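import Mathlib
import Pool.Agent.Lib.Helper90.GSem.Defs

/-!
# Existence of Frobenius elements in the absolute Galois group of `ℚ`
-/

namespace Pool.Agent.Ord

open NumberField Pool.Agent.GSem
open scoped Pointwise

variable {Ω : Type*} [Field Ω] [CharZero Ω] [IsAlgClosure ℚ Ω]

theorem isGaloisΩ : IsGalois ℚ Ω := IsAlgClosure.isGalois ℚ Ω

omit [IsAlgClosure ℚ Ω] in
theorem coe_smul_ringOfIntegers (g : Gal(Ω/ℚ)) (x : 𝓞 Ω) : ((g • x : 𝓞 Ω) : Ω) = g (x : Ω) := rfl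

theorem isInvariant_int : Algebra.IsInvariant ℤ (𝓞 Ω) Gal(Ω/ℚ) := by
  have hG : IsGalois ℚ Ω := isGaloisΩ
  refine ⟨fun x hx => ?_⟩
  have h1 : ∀ g : Gal(Ω/ℚ), g (x : Ω) = x := fun g =>
    congrArg (fun y : 𝓞 Ω => (y : Ω)) (hx g)
  have h2 : (x : Ω) ∈ (⊥ : IntermediateField ℚ Ω) := by
    rw [← InfiniteGalois.fixedField_bot]
    rw [IntermediateField.mem_fixedField_iff]
    intro g _
    exact h1 g
  obtain ⟨q, hq⟩ := IntermediateField.mem_bot.1 h2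
  have h3 : IsIntegral ℤ q := by
    have h4 : IsIntegral ℤ (algebraMap ℚ Ω q) := by
      rw [hq]; exact x.isIntegral_coe
    exact (isIntegral_algebraMap_iff (algebraMap ℚ Ω).injective).1 h4
  obtain ⟨m, hm⟩ := IsIntegrallyClosed.isIntegral_iff.1 h3
  refine ⟨m, ?_⟩
  apply RingOfIntegers.coe_injective
  have h5 : algebraMap ℚ Ω (algebraMap ℤ ℚ m) = (x : Ω) := by rw [hm, hq]
  refine Eq.trans ?_ h5
  simp

omit [IsAlgClosure ℚ Ω] in
/-- A prime ideal of the ring of all algebraic integers above a rational prime. -/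
theorem exists_prime_above {q : ℕ} (hq : q.Prime) :
    ∃ Q : Ideal (𝓞 Ω), Q.IsMaximal ∧ (q : 𝓞 Ω) ∈ Q := by
  have h1 : Ideal.span {(q : 𝓞 Ω)} ≠ ⊤ := by
    intro h
    rw [Ideal.span_singleton_eq_top] at h
    obtain ⟨u, hu⟩ := h
    have h2 : IsIntegral ℤ ((q : ℚ)⁻¹) := by
      have h4 : IsIntegral ℤ (algebraMap ℚ Ω ((q : ℚ)⁻¹)) := by
        have h5 : algebraMap ℚ Ω ((q : ℚ)⁻¹) = ((u⁻¹ : (𝓞 Ω)ˣ) : 𝓞 Ω) := by
          rw [map_inv₀, map_natCast]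
          have h6 : ((q : 𝓞 Ω) : Ω) * (((u⁻¹ : (𝓞 Ω)ˣ) : 𝓞 Ω) : Ω) = 1 := by
            rw [← hu, ← map_mul, Units.mul_inv, map_one]
          have h6' : (q : Ω) * (((u⁻¹ : (𝓞 Ω)ˣ) : 𝓞 Ω) : Ω) = 1 := by
            simpa using h6
          exact inv_eq_of_mul_eq_one_right h6'
        rw [h5]
        exact RingOfIntegers.isIntegral_coe _
      exact (isIntegral_algebraMap_iff (algebraMap ℚ Ω).injective).1 h4
    obtain ⟨m, hm⟩ := IsIntegrallyClosed.isIntegral_iff.1 h2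
    have hq0 : (q : ℚ) ≠ 0 := by exact_mod_cast hq.ne_zero
    have h7 : (m : ℚ) * q = 1 := by
      rw [show (m : ℚ) = (q : ℚ)⁻¹ from by simpa using hm, inv_mul_cancel₀ hq0]
    have h8 : m * (q : ℤ) = 1 := by exact_mod_cast h7
    have h9 : (q : ℤ) ∣ 1 := ⟨m, by rw [← h8, mul_comm]⟩
    have h10 := Int.eq_one_of_dvd_one (by positivity) h9
    exact hq.one_lt.ne' (by exact_mod_cast h10)
  obtain ⟨Q, hQ, hle⟩ := Ideal.exists_le_maximal _ h1
  exact ⟨Q, hQ, hle (Ideal.mem_span_singleton_self _)⟩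

omit [CharZero Ω] [IsAlgClosure ℚ Ω] in
/-- The intersection with `ℤ` of a prime above `q`. -/
theorem intCast_mem_iff {q : ℕ} (hq : q.Prime) {Q : Ideal (𝓞 Ω)} (hQ : Q.IsPrime)
    (hqQ : (q : 𝓞 Ω) ∈ Q) (m : ℤ) : (m : 𝓞 Ω) ∈ Q ↔ (q : ℤ) ∣ m := by
  constructor
  · intro h
    by_contra hnd
    have hcop : IsCoprime (q : ℤ) m := by
      rw [Int.isCoprime_iff_gcd_eq_one]
      exact (Nat.Prime.coprime_iff_not_dvd hq).2 (fun h' => hnd (Int.natCast_dvd.2 h'))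
    obtain ⟨u, v, huv⟩ := hcop
    apply hQ.ne_top
    rw [Ideal.eq_top_iff_one]
    have h1 : (1 : 𝓞 Ω) = (u : 𝓞 Ω) * q + v * m := by
      have := congrArg (fun t : ℤ => (t : 𝓞 Ω)) huv
      push_cast at this
      exact this.symm
    rw [h1]
    exact Q.add_mem (Q.mul_mem_left _ hqQ) (Q.mul_mem_left _ h)
  · rintro ⟨c, rfl⟩
    push_cast
    exact Q.mul_mem_right _ hqQ

/-- Frobenius elements exist. -/
theorem exists_frob {q : ℕ} (hq : q.Prime) : ∃ φ : Gal(Ω/ℚ), IsFrobAt q φ := by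
  classical
  obtain ⟨Q, hQ, hqQ⟩ := exists_prime_above (Ω := Ω) hq
  have hQp : Q.IsPrime := hQ.isPrime
  have hfact : Fact q.Prime := ⟨hq⟩
  let P : Ideal ℤ := Q.under ℤ
  have hlo : Q.LiesOver P := ⟨rfl⟩
  have hinv := isInvariant_int (Ω := Ω)
  have hP : P = Ideal.span {(q : ℤ)} := by
    ext m
    rw [Ideal.mem_span_singleton, ← intCast_mem_iff hq hQp hqQ]
    show algebraMap ℤ (𝓞 Ω) m ∈ Q ↔ _
    simp
  let _ : TopologicalSpace (𝓞 Ω) := ⊥
  have : DiscreteTopology (𝓞 Ω) := ⟨rfl⟩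
  have hcont : ContinuousSMul Gal(Ω/ℚ) (𝓞 Ω) := by
    rw [continuousSMul_iff_stabilizer_isOpen]
    intro x
    have h1 := stabilizer_isOpen_of_isIntegral (K := ℚ) (x : Ω)
    convert! h1 using 1
    ext g
    simp only [SetLike.mem_coe, MulAction.mem_stabilizer_iff]
    constructor
    · intro h
      exact congrArg (fun y : 𝓞 Ω => (y : Ω)) h
    · intro h
      exact RingOfIntegers.coe_injective h
  let _ : Field (𝓞 Ω ⧸ Q) := Ideal.Quotient.field Q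
  have hPmax : P.IsMaximal := by
    rw [hP]
    exact Int.ideal_span_isMaximal_of_prime q
  let _ : Field (ℤ ⧸ P) := Ideal.Quotient.field P
  have hchar : CharP (𝓞 Ω ⧸ Q) q := by
    have h0 : ((q : ℕ) : 𝓞 Ω ⧸ Q) = 0 := by
      have := Ideal.Quotient.eq_zero_iff_mem.2 hqQ
      rwa [map_natCast] at this
    exact (CharP.charP_iff_prime_eq_zero hq).2 h0
  have hexp : ExpChar (𝓞 Ω ⧸ Q) q := ExpChar.prime hq
  have hint : Algebra.IsIntegral ℤ (𝓞 Ω) := inferInstance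
  have halg : Algebra.IsAlgebraic (ℤ ⧸ P) (𝓞 Ω ⧸ Q) := by
    have : Algebra.IsIntegral (ℤ ⧸ P) (𝓞 Ω ⧸ Q) := inferInstance
    infer_instance
  let F : (𝓞 Ω ⧸ Q) →ₐ[ℤ ⧸ P] (𝓞 Ω ⧸ Q) :=
    { toRingHom := frobenius (𝓞 Ω ⧸ Q) q
      commutes' := by
        intro r
        obtain ⟨m, rfl⟩ := Ideal.Quotient.mk_surjective r
        show (algebraMap (ℤ ⧸ P) (𝓞 Ω ⧸ Q) (Ideal.Quotient.mk P m)) ^ q = _
        rw [← map_pow, ← map_pow]
        congr 1
        rw [Ideal.Quotient.eq, hP, Ideal.mem_span_singleton]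
        rw [← ZMod.intCast_zmod_eq_zero_iff_dvd]
        push_cast
        rw [ZMod.pow_card, sub_self] }
  have hF : Function.Bijective F := Algebra.IsAlgebraic.algHom_bijective F
  obtain ⟨σ, hσ⟩ := Ideal.Quotient.stabilizerHom_surjective_of_profinite (G := Gal(Ω/ℚ)) P Q
    (AlgEquiv.ofBijective F hF)
  refine ⟨σ, Q, hQp, hqQ, fun x => ?_⟩
  rw [← Ideal.Quotient.eq]
  exact DFunLike.congr_fun hσ (Ideal.Quotient.mk Q x)

end Pool.Agent.Ord
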