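import Mathlib
import Pool.Agent.Lib.H59.RootIdeals
import Pool.Agent.Lib.Helper95.Ord.FrobExists

/-!
# Primes of degree one and embeddings fixed by a Frobenius element
-/

open Set Module NumberField IsDedekindDomain Polynomial Pool.Agent.Lib.H59 Pool.Agent.GSem
open Ideal (absNorm)

noncomputable section

namespace Pool.Agent.Ord

/-- An integral power basis. -/
theorem exists_intPowerBasis (K : Type*) [Field K] [NumberField K] :
    ∃ (B : PowerBasis ℚ K) (η : 𝓞 K), B.gen = (η : K) := by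
  obtain ⟨θ, hθ⟩ := Field.exists_primitive_element ℚ K
  have hθa : IsAlgebraic ℤ θ := by
    have : IsAlgebraic ℚ θ := Algebra.IsAlgebraic.isAlgebraic θ
    exact (IsFractionRing.isAlgebraic_iff ℤ ℚ K).2 this
  obtain ⟨y, hy0, hy⟩ := hθa.exists_integral_multiple
  have hyK : (y : K) ≠ 0 := by exact_mod_cast hy0
  set e : K := (y : K) * θ with he
  have heint : IsIntegral ℤ e := by
    rw [he, ← zsmul_eq_mul]
    exact hy
  have hetop : IntermediateField.adjoin ℚ {e} = ⊤ := by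
    rw [eq_top_iff, ← hθ, IntermediateField.adjoin_simple_le_iff]
    have h1 : e ∈ IntermediateField.adjoin ℚ {e} := IntermediateField.mem_adjoin_simple_self ℚ e
    have h2 : θ = (y : K)⁻¹ * e := by rw [he]; field_simp
    rw [h2]
    refine mul_mem (inv_mem ?_) h1
    exact intCast_mem _ _
  have hadj : Algebra.adjoin ℚ {e} = ⊤ := by
    have := IntermediateField.adjoin_simple_toSubalgebra_of_isAlgebraic
      (F := ℚ) (α := e) (Algebra.IsAlgebraic.isAlgebraic e)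
    rw [← this, hetop]
    rfl
  have heQ : IsIntegral ℚ e := Algebra.IsIntegral.isIntegral e
  exact ⟨PowerBasis.ofAdjoinEqTop heQ hadj, ⟨e, heint⟩, PowerBasis.ofAdjoinEqTop_gen heQ hadj⟩

variable {Ω : Type*} [Field Ω] [CharZero Ω] [IsAlgClosure ℚ Ω]
variable {K : Type*} [Field K] [NumberField K]

/-- An embedding restricted to the rings of integers. -/
abbrev om (σ : K →ₐ[ℚ] Ω) : 𝓞 K →+* 𝓞 Ω := RingOfIntegers.mapRingHom (σ : K →+* Ω)

/-- The action of the Galois group on the embeddings. -/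
abbrev actE (φ : Gal(Ω/ℚ)) (σ : K →ₐ[ℚ] Ω) : K →ₐ[ℚ] Ω := (φ : Ω →ₐ[ℚ] Ω).comp σ

omit [IsAlgClosure ℚ Ω] in
theorem om_act (φ : Gal(Ω/ℚ)) (σ : K →ₐ[ℚ] Ω) (x : 𝓞 K) : om (actE φ σ) x = φ • om σ x := by
  apply RingOfIntegers.coe_injective
  rfl

omit [IsAlgClosure ℚ Ω] in
theorem algHom_ext_gen {B : PowerBasis ℚ K} {η : 𝓞 K} (hη : B.gen = (η : K))
    {σ σ' : K →ₐ[ℚ] Ω} (h : om σ η = om σ' η) : σ = σ' := by
  apply B.algHom_ext
  rw [hη]
  exact congrArg (fun y : 𝓞 Ω => (y : Ω)) h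

/-- Distinct embeddings stay distinct modulo a prime not dividing the discriminant. -/
theorem eq_of_sub_mem {B : PowerBasis ℚ K} {η : 𝓞 K} (hη : B.gen = (η : K)) {Δ : ℤ}
    (hΔ : (Δ : ℚ) = Algebra.discr ℚ B.basis) {p : ℕ} (hp : p.Prime) (hpΔ : ¬ (p : ℤ) ∣ Δ)
    {Q : Ideal (𝓞 Ω)} (hQ : Q.IsPrime) (hpQ : (p : 𝓞 Ω) ∈ Q) {σ σ' : K →ₐ[ℚ] Ω}
    (h : om σ η - om σ' η ∈ Q) : σ = σ' := by
  classical
  by_contra hne
  have hac : IsAlgClosed Ω := IsAlgClosure.isAlgClosed ℚ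
  have e : Fin B.dim ≃ (K →ₐ[ℚ] Ω) := by
    refine Fintype.equivOfCardEq ?_
    rw [Fintype.card_fin, AlgHom.card]
    exact (PowerBasis.finrank B).symm
  have h1 := Algebra.discr_powerBasis_eq_prod ℚ Ω B e
  rw [← hΔ] at h1
  have h2 : ((Δ : ℤ) : 𝓞 Ω) =
      ∏ i : Fin B.dim, ∏ j ∈ Finset.Ioi i, (om (e j) η - om (e i) η) ^ 2 := by
    apply RingOfIntegers.coe_injective
    have h3 : algebraMap (𝓞 Ω) Ω ((Δ : ℤ) : 𝓞 Ω) = algebraMap ℚ Ω ((Δ : ℤ) : ℚ) := by simp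
    rw [h3, h1]
    simp only [map_prod, map_pow, map_sub, hη]
    rfl
  have h4 : ((Δ : ℤ) : 𝓞 Ω) ∈ Q := by
    rw [h2]
    obtain ⟨i, hi⟩ := e.surjective σ
    obtain ⟨j, hj⟩ := e.surjective σ'
    have hij : i ≠ j := by
      rintro rfl
      exact hne (hi.symm.trans hj)
    rcases lt_or_gt_of_ne hij with hlt | hlt
    · refine Q.mem_of_dvd (Finset.dvd_prod_of_mem _ (Finset.mem_univ i)) ?_
      refine Q.mem_of_dvd (Finset.dvd_prod_of_mem _ (Finset.mem_Ioi.2 hlt)) ?_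
      rw [hi, hj]
      refine Q.pow_mem_of_mem ?_ 2 (by norm_num)
      rw [← neg_sub]
      exact Q.neg_mem h
    · refine Q.mem_of_dvd (Finset.dvd_prod_of_mem _ (Finset.mem_univ j)) ?_
      refine Q.mem_of_dvd (Finset.dvd_prod_of_mem _ (Finset.mem_Ioi.2 hlt)) ?_
      rw [hi, hj]
      exact Q.pow_mem_of_mem h 2 (by norm_num)
  exact hpΔ ((intCast_mem_iff hp hQ hpQ Δ).1 h4)

/-- In a domain of characteristic `p` the solutions of `a ^ p = a` are the integers. -/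
theorem exists_int_eq_of_pow (R : Type*) [CommRing R] [IsDomain R] {p : ℕ} [hfact : Fact p.Prime]
    [CharP R p] {a : R} (ha : a ^ p = a) : ∃ m : ℤ, a = (m : R) := by
  classical
  have hp := hfact.out
  let ψ : ZMod p →+* R := ZMod.castHom (dvd_refl p) R
  have hψ : Function.Injective ψ := ψ.injective
  have hdeg : (X ^ p - X : R[X]).natDegree = p := by
    rw [natDegree_sub_eq_left_of_natDegree_lt, natDegree_X_pow]
    rw [natDegree_X_pow, natDegree_X]
    exact hp.one_lt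
  have hne : (X ^ p - X : R[X]) ≠ 0 := by
    intro h0
    rw [h0, natDegree_zero] at hdeg
    exact hp.ne_zero hdeg.symm
  by_contra hcon
  push Not at hcon
  have hnot : a ∉ Finset.univ.image ψ := by
    intro hmem
    obtain ⟨t, -, ht⟩ := Finset.mem_image.1 hmem
    apply hcon (t.val : ℤ)
    have h1 : ψ t = ((t.val : ℕ) : R) := by
      conv_lhs => rw [← ZMod.natCast_zmod_val t]
      rw [map_natCast]
    rw [← ht, h1]
    simp
  have hsub : insert a (Finset.univ.image ψ) ⊆ (X ^ p - X : R[X]).roots.toFinset := by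
    intro b hb
    rw [Multiset.mem_toFinset, mem_roots hne, IsRoot.def, eval_sub, eval_pow, eval_X, sub_eq_zero]
    rcases Finset.mem_insert.1 hb with rfl | hb
    · exact ha
    · obtain ⟨t, -, rfl⟩ := Finset.mem_image.1 hb
      rw [← map_pow, ZMod.pow_card]
  have hcard := Finset.card_le_card hsub
  rw [Finset.card_insert_of_notMem hnot, Finset.card_image_of_injective _ hψ, Finset.card_univ,
    ZMod.card] at hcard
  have h2 := (Multiset.toFinset_card_le (X ^ p - X : R[X]).roots).trans (card_roots' _)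
  rw [hdeg] at h2
  exact absurd (hcard.trans h2) (Nat.not_succ_le_self p)

theorem charP_quotient {R : Type*} [CommRing R] {p : ℕ} (hp : p.Prime) {Q : Ideal R}
    (hQ : Q.IsPrime) (hpQ : (p : R) ∈ Q) : CharP (R ⧸ Q) p := by
  have hdom : IsDomain (R ⧸ Q) := Ideal.Quotient.isDomain Q
  have h0 : ((p : ℕ) : R ⧸ Q) = 0 := by
    have := Ideal.Quotient.eq_zero_iff_mem.2 hpQ
    rwa [map_natCast] at this
  exact (CharP.charP_iff_prime_eq_zero hp).2 h0

/-- An element equal to its `p`-th power modulo a prime is congruent to an integer. -/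
theorem exists_int_of_pow {R : Type*} [CommRing R] {p : ℕ} (hp : p.Prime) {Q : Ideal R}
    (hQ : Q.IsPrime) (hpQ : (p : R) ∈ Q) {x : R} (hx : x - x ^ p ∈ Q) :
    ∃ m : ℤ, x - (m : R) ∈ Q := by
  have hfact : Fact p.Prime := ⟨hp⟩
  have hdom : IsDomain (R ⧸ Q) := Ideal.Quotient.isDomain Q
  have hchar : CharP (R ⧸ Q) p := charP_quotient hp hQ hpQ
  have ha : (Ideal.Quotient.mk Q x) ^ p = Ideal.Quotient.mk Q x := by
    have := Ideal.Quotient.eq.2 hx
    rw [map_pow] at this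
    exact this.symm
  obtain ⟨m, hm⟩ := exists_int_eq_of_pow (R ⧸ Q) ha
  refine ⟨m, ?_⟩
  rw [← Ideal.Quotient.eq, hm, map_intCast]

/-- The number of embeddings fixed by a Frobenius is at most the number of primes of degree one. -/
theorem card_fixed_le {B : PowerBasis ℚ K} {η : 𝓞 K} (hη : B.gen = (η : K)) {Δ : ℤ}
    (hΔ : (Δ : ℚ) = Algebra.discr ℚ B.basis) {p : ℕ} (hp : p.Prime) (hpΔ : ¬ (p : ℤ) ∣ Δ)
    {φ : Gal(Ω/ℚ)} (hφ : IsFrobAt p φ) :
    Nat.card {σ : K →ₐ[ℚ] Ω // actE φ σ = σ} ≤ degOne K p := by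
  classical
  obtain ⟨Q, hQ, hpQ, hQφ⟩ := hφ
  have h1 : ∀ σ : {σ : K →ₐ[ℚ] Ω // actE φ σ = σ}, ∃ m : ℤ, om σ.1 η - (m : 𝓞 Ω) ∈ Q := by
    intro σ
    apply exists_int_of_pow hp hQ hpQ
    have h2 := hQφ (om σ.1 η)
    rwa [← om_act, σ.2] at h2
  choose m hm using h1
  have hfin : Finite {σ : K →ₐ[ℚ] Ω // actE φ σ = σ} := inferInstance
  have : Fintype {σ : K →ₐ[ℚ] Ω // actE φ σ = σ} := Fintype.ofFinite _
  have hminj : ∀ σ σ', (p : ℤ) ∣ m σ - m σ' → σ = σ' := by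
    intro σ σ' hd
    have h3 := (intCast_mem_iff hp hQ hpQ _).2 hd
    apply Subtype.ext
    apply eq_of_sub_mem hη hΔ hp hpΔ hQ hpQ
    have h4 : om σ.1 η - om σ'.1 η =
        (om σ.1 η - (m σ : 𝓞 Ω)) - (om σ'.1 η - (m σ' : 𝓞 Ω)) + ((m σ - m σ' : ℤ) : 𝓞 Ω) := by
      push_cast; ring
    rw [h4]
    exact Q.add_mem (Q.sub_mem (hm σ) (hm σ')) h3
  have hinj : Function.Injective m := fun σ σ' h => hminj σ σ' (by rw [h, sub_self]; exact dvd_zero _)
  have h5 := card_roots_le_degOne hη hΔ hp hpΔ (Finset.univ.image m) ?_ ?_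
  · rwa [Finset.card_image_of_injective _ hinj, Finset.card_univ, ← Nat.card_eq_fintype_card] at h5
  · intro a ha
    obtain ⟨σ, -, rfl⟩ := Finset.mem_image.1 ha
    rw [← intCast_mem_iff hp hQ hpQ, ← Ideal.Quotient.eq_zero_iff_mem]
    have h6 : Ideal.Quotient.mk Q (om σ.1 η) = Ideal.Quotient.mk Q ((m σ : ℤ) : 𝓞 Ω) :=
      Ideal.Quotient.eq.2 (hm σ)
    have h7 : Ideal.Quotient.mk Q (((minpoly ℤ η).eval (m σ) : ℤ) : 𝓞 Ω) =
        eval₂ ((Ideal.Quotient.mk Q).comp (Int.castRingHom (𝓞 Ω)))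
          (Ideal.Quotient.mk Q ((m σ : ℤ) : 𝓞 Ω)) (minpoly ℤ η) := by
      rw [← hom_eval₂, eval₂_at_intCast]
      simp
    rw [h7, ← h6, ← hom_eval₂]
    have h8 : eval₂ (Int.castRingHom (𝓞 Ω)) (om σ.1 η) (minpoly ℤ η) =
        om σ.1 (aeval η (minpoly ℤ η)) := by
      rw [aeval_def, hom_eval₂]
      congr 1
      exact RingHom.ext_int _ _
    rw [h8, minpoly.aeval, map_zero, map_zero]
  · intro a ha b hb hab
    obtain ⟨σ, -, rfl⟩ := Finset.mem_image.1 ha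
    obtain ⟨σ', -, rfl⟩ := Finset.mem_image.1 hb
    rw [hminj σ σ' hab]

/-- The number of primes of degree one is at most the number of embeddings fixed by a Frobenius. -/
theorem degOne_le_card_fixed {B : PowerBasis ℚ K} {η : 𝓞 K} (hη : B.gen = (η : K)) {Δ : ℤ}
    (hΔ : (Δ : ℚ) = Algebra.discr ℚ B.basis) {p : ℕ} (hp : p.Prime) (hpΔ : ¬ (p : ℤ) ∣ Δ)
    {φ : Gal(Ω/ℚ)} (hφ : IsFrobAt p φ) :
    degOne K p ≤ Nat.card {σ : K →ₐ[ℚ] Ω // actE φ σ = σ} := by
  classical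
  have hac : IsAlgClosed Ω := IsAlgClosure.isAlgClosed ℚ
  obtain ⟨Q, hQ, hpQ, hQφ⟩ := hφ
  have hfact : Fact p.Prime := ⟨hp⟩
  -- the data attached to a prime of norm `p`
  have h1 : ∀ P : {P : HeightOneSpectrum (𝓞 K) // absNorm P.asIdeal = p},
      ∃ m : ℤ, η - (m : 𝓞 K) ∈ P.1.asIdeal := by
    intro P
    have hb : below P.1 = p := below_eq_of_absNorm_eq hp P.2
    have hpP : (p : 𝓞 K) ∈ P.1.asIdeal := by
      have := (Int.cast_mem_ideal_iff (I := P.1.asIdeal) (d := (p : ℤ))).2 (by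
        show ((absNorm (Ideal.under ℤ P.1.asIdeal) : ℕ) : ℤ) ∣ _
        rw [show absNorm (Ideal.under ℤ P.1.asIdeal) = p from hb])
      simpa using this
    apply exists_int_of_pow hp P.1.isPrime hpP
    have hfin : Finite (𝓞 K ⧸ P.1.asIdeal) := Ideal.finiteQuotientOfFreeOfNeBot _ P.1.ne_bot
    have hmax : P.1.asIdeal.IsMaximal := P.1.isMaximal
    let _ : Field (𝓞 K ⧸ P.1.asIdeal) := Ideal.Quotient.field _
    have : Fintype (𝓞 K ⧸ P.1.asIdeal) := Fintype.ofFinite _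
    have hcard : Fintype.card (𝓞 K ⧸ P.1.asIdeal) = p := by
      rw [← Nat.card_eq_fintype_card]
      have := P.2
      rwa [Ideal.absNorm_apply, Submodule.cardQuot_apply] at this
    rw [← Ideal.Quotient.eq, map_pow]
    have := FiniteField.pow_card (Ideal.Quotient.mk P.1.asIdeal η)
    rw [hcard] at this
    exact this.symm
  choose m hm using h1
  have h2 : ∀ P : {P : HeightOneSpectrum (𝓞 K) // absNorm P.asIdeal = p},
      ∃ σ : K →ₐ[ℚ] Ω, om σ η - (m P : 𝓞 Ω) ∈ Q := by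
    intro P
    have h3 : (p : ℤ) ∣ Algebra.norm ℤ (η - (m P : 𝓞 K)) := by
      have := Ideal.absNorm_dvd_norm_of_mem (hm P)
      rwa [P.2] at this
    have h4 := (intCast_mem_iff hp hQ hpQ _).2 h3
    have h5 : ((Algebra.norm ℤ (η - (m P : 𝓞 K)) : ℤ) : 𝓞 Ω) =
        ∏ σ : K →ₐ[ℚ] Ω, om σ (η - (m P : 𝓞 K)) := by
      apply RingOfIntegers.coe_injective
      have h6 := Algebra.norm_eq_prod_embeddings ℚ Ω ((η - (m P : 𝓞 K) : 𝓞 K) : K)
      rw [map_prod]
      have h7 : algebraMap (𝓞 Ω) Ω ((Algebra.norm ℤ (η - (m P : 𝓞 K)) : ℤ) : 𝓞 Ω) =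
          algebraMap ℚ Ω (Algebra.norm ℚ ((η - (m P : 𝓞 K) : 𝓞 K) : K)) := by
        rw [← Algebra.coe_norm_int]
        simp
      rw [h7, h6]
      rfl
    rw [h5, hQ.prod_mem_iff] at h4
    obtain ⟨σ, -, hσ⟩ := h4
    refine ⟨σ, ?_⟩
    rw [map_sub, map_intCast] at hσ
    exact hσ
  choose s hs using h2
  have h3 : ∀ P, actE φ (s P) = s P := by
    intro P
    apply eq_of_sub_mem hη hΔ hp hpΔ hQ hpQ
    rw [om_act]
    have e1 := hQφ (om (s P) η)
    have e2 : om (s P) η ^ p - (m P : 𝓞 Ω) ^ p ∈ Q :=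
      Q.mem_of_dvd (sub_dvd_pow_sub_pow _ _ p) (hs P)
    have e3 : (m P : 𝓞 Ω) ^ p - (m P : 𝓞 Ω) ∈ Q := by
      have : (((m P) ^ p - m P : ℤ) : 𝓞 Ω) ∈ Q := by
        rw [intCast_mem_iff hp hQ hpQ, ← ZMod.intCast_zmod_eq_zero_iff_dvd]
        push_cast
        rw [ZMod.pow_card, sub_self]
      push_cast at this
      exact this
    have e4 := Q.sub_mem (Q.add_mem (Q.add_mem e1 e2) e3) (hs P)
    have e5 : φ • om (s P) η - om (s P) η = φ • om (s P) η - om (s P) η ^ p +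
        (om (s P) η ^ p - (m P : 𝓞 Ω) ^ p) + ((m P : 𝓞 Ω) ^ p - (m P : 𝓞 Ω)) -
        (om (s P) η - (m P : 𝓞 Ω)) := by ring
    rw [e5]
    exact e4
  have hfin : Finite {σ : K →ₐ[ℚ] Ω // actE φ σ = σ} := inferInstance
  refine Nat.card_le_card_of_injective
    (fun P => (⟨s P, h3 P⟩ : {σ : K →ₐ[ℚ] Ω // actE φ σ = σ})) ?_
  intro P P' hPP'
  have hss : s P = s P' := congrArg Subtype.val hPP'
  have h4 : (p : ℤ) ∣ m P - m P' := by
    rw [← intCast_mem_iff hp hQ hpQ]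
    have := Q.sub_mem (hs P') (hss ▸ hs P)
    push_cast
    have e : (m P : 𝓞 Ω) - (m P' : 𝓞 Ω) =
        om (s P') η - (m P' : 𝓞 Ω) - (om (s P') η - (m P : 𝓞 Ω)) := by ring
    rw [e]
    exact this
  -- membership is determined by `m`
  have h5 : ∀ (R : {P : HeightOneSpectrum (𝓞 K) // absNorm P.asIdeal = p}) (a : 𝓞 K) (A : ℤ[X]),
      (Δ : 𝓞 K) * a = aeval η A → (a ∈ R.1.asIdeal ↔ (p : ℤ) ∣ A.eval (m R)) := by
    intro R a A hA
    have hb : absNorm (Ideal.under ℤ R.1.asIdeal) = p := below_eq_of_absNorm_eq hp R.2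
    have hint : ∀ t : ℤ, (t : 𝓞 K) ∈ R.1.asIdeal ↔ (p : ℤ) ∣ t := by
      intro t
      rw [Int.cast_mem_ideal_iff (I := R.1.asIdeal) (d := t), hb]
    have hΔR : (Δ : 𝓞 K) ∉ R.1.asIdeal := fun h => hpΔ ((hint Δ).1 h)
    have e1 : Ideal.Quotient.mk R.1.asIdeal η = Ideal.Quotient.mk R.1.asIdeal (m R : 𝓞 K) :=
      Ideal.Quotient.eq.2 (hm R)
    have e2 : Ideal.Quotient.mk R.1.asIdeal (aeval η A) =
        Ideal.Quotient.mk R.1.asIdeal ((A.eval (m R) : ℤ) : 𝓞 K) := by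
      have h9 : ((A.eval (m R) : ℤ) : 𝓞 K) = eval₂ (Int.castRingHom (𝓞 K)) (m R : 𝓞 K) A := by
        rw [eval₂_at_intCast]
        simp
      rw [h9, hom_eval₂, ← e1, aeval_def, hom_eval₂]
      congr 1
    have e3 : a ∈ R.1.asIdeal ↔ (Δ : 𝓞 K) * a ∈ R.1.asIdeal := by
      constructor
      · intro h; exact R.1.asIdeal.mul_mem_left _ h
      · intro h
        exact (R.1.isPrime.mem_or_mem h).resolve_left hΔR
    rw [e3, hA, ← hint, ← Ideal.Quotient.eq_zero_iff_mem, ← Ideal.Quotient.eq_zero_iff_mem, e2]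
  apply Subtype.ext
  apply HeightOneSpectrum.ext
  ext a
  obtain ⟨A, hA⟩ := exists_poly_eq hη hΔ a
  rw [h5 P a A hA, h5 P' a A hA]
  have h6 : m P - m P' ∣ A.eval (m P) - A.eval (m P') := sub_dvd_eval_sub _ _ _
  have h7 := h4.trans h6
  constructor
  · intro h
    have := dvd_sub h h7
    simpa using this
  · intro h
    have := dvd_add h7 h
    simpa using this

variable (Ω K) in
/-- For large `p` the number of primes of norm `p` is the number of embeddings fixed by a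
Frobenius element at `p`. -/
theorem exists_bound_degOne_eq : ∃ b : ℕ, ∀ p : ℕ, b < p → p.Prime → ∀ φ : Gal(Ω/ℚ),
    IsFrobAt p φ → degOne K p =
      Nat.card {σ : K →+* Ω // ((φ : Ω ≃+* Ω) : Ω →+* Ω).comp σ = σ} := by
  obtain ⟨B, η, hη⟩ := exists_intPowerBasis K
  obtain ⟨Δ, hΔ⟩ := exists_int_discr hη
  have hΔ0 : Δ ≠ 0 := by
    intro h0
    have h1 := Algebra.discr_not_zero_of_basis ℚ B.basis
    rw [← hΔ, h0] at h1
    simp at h1
  refine ⟨Δ.natAbs, fun p hp hpp φ hφ => ?_⟩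
  have hpΔ : ¬ (p : ℤ) ∣ Δ := by
    intro h
    have h1 := Nat.le_of_dvd (Int.natAbs_pos.2 hΔ0) (Int.natCast_dvd.1 h)
    omega
  rw [le_antisymm (degOne_le_card_fixed hη hΔ hpp hpΔ hφ) (card_fixed_le hη hΔ hpp hpΔ hφ)]
  refine Nat.card_congr (Equiv.subtypeEquiv (RingHom.equivRatAlgHom K Ω).symm fun σ => ?_)
  constructor
  · intro h
    ext x
    exact DFunLike.congr_fun h x
  · intro h
    ext x
    exact DFunLike.congr_fun h x

end Pool.Agent.Ord
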