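import Mathlib
import Pool.Agent.Lib.H59.PrimeIdealSums
import Pool.Agent.Lib.H59.ZetaResidue

/-!
# `∑ a_K(p) p ^ (-1 - σ) = log (1 / σ) + O(1)`, `a_K(p)` the number of primes of norm `p`
-/

open Set Module Filter Topology NumberField Pool.Agent.Lib.H59
open scoped ENNReal

noncomputable section

namespace Pool.Agent.Ord

variable (K : Type*) [Field K] [NumberField K]

/-- The general term of the sum over the primes of degree one. -/
def pterm (σ : ℝ) (p : ℕ) : ℝ := if p.Prime then degOne K p * (p : ℝ) ^ (-(1 + σ)) else 0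

theorem pterm_nonneg (σ : ℝ) (p : ℕ) : 0 ≤ pterm K σ p := by
  unfold pterm
  split_ifs
  · positivity
  · exact le_rfl

theorem pterm_le (σ : ℝ) (p : ℕ) : pterm K σ p ≤ degOne K p * (p : ℝ) ^ (-(1 + σ)) := by
  unfold pterm
  split_ifs
  · exact le_rfl
  · positivity

/-- The sum over the primes of degree one. -/
def psum (σ : ℝ) : ℝ := ∑' p, pterm K σ p

theorem psum_bounds : ∃ C : ℝ, ∀ᶠ σ : ℝ in 𝓝[>] 0, Summable (pterm K σ) ∧
    |psum K σ - Real.log (1 / σ)| ≤ C := by
  have hκ := dedekindZeta_residue_pos K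
  set κ := dedekindZeta_residue K with hκdef
  set d := finrank ℚ K with hd
  set c : ℝ := 2 * (2 ^ Units.rank K * (Units.rank K).factorial) with hc
  have hc0 : 0 < c := by positivity
  set x₀ := cutoff K with hx₀
  have hx₀1 : 1 ≤ x₀ := one_le_cutoff K
  have hx₀0 : 0 < x₀ := by linarith
  set a : ℝ := κ / 2 ^ (d + 1) * x₀⁻¹ with ha
  have ha0 : 0 < a := by positivity
  refine ⟨|Real.log (2 * κ)| + (|Real.log (a / c)| + 6 * d), ?_⟩
  have h1 := eventually_zetaE_le K
  have h2 : ∀ᶠ σ : ℝ in 𝓝[>] 0, σ ≤ 1 := by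
    have : ∀ᶠ σ : ℝ in 𝓝 0, σ < 1 := eventually_lt_nhds (by norm_num)
    exact (this.filter_mono nhdsWithin_le_nhds).mono fun _ h => h.le
  filter_upwards [h1, h2, self_mem_nhdsWithin] with σ hσ hσ1 hσ0
  have hσ0' : 0 < σ := hσ0
  have hlog : Real.log (2 * κ / σ) = Real.log (2 * κ) + Real.log (1 / σ) := by
    rw [← Real.log_mul (by positivity) (by positivity)]
    congr 1
    ring
  have hbound : ∀ T : Finset ℕ, ∑ p ∈ T, pterm K σ p ≤ Real.log (2 * κ) + Real.log (1 / σ) := by
    intro T
    have h3 := (exp_sum_le_zetaE (K := K) (1 + σ) T).trans hσ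
    rw [ENNReal.ofReal_le_ofReal_iff (by positivity)] at h3
    have h4 := (Real.le_log_iff_exp_le (by positivity)).2 h3
    rw [hlog] at h4
    exact (Finset.sum_le_sum fun p _ => pterm_le K σ p).trans h4
  have hsum : Summable (pterm K σ) :=
    summable_of_sum_le (fun p => pterm_nonneg K σ p) hbound
  refine ⟨hsum, ?_⟩
  have hup : psum K σ ≤ Real.log (2 * κ) + Real.log (1 / σ) :=
    hsum.tsum_le_of_sum_le hbound
  have hlow : Real.log (1 / σ) + Real.log (a / c) - 6 * d ≤ psum K σ := by
    have h5 : zetaE K (1 + σ) ≤ ENNReal.ofReal (Real.exp (psum K σ + 6 * d)) := by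
      refine zetaE_le_exp (by linarith) _ fun T hT => ?_
      have h6 : ∑ p ∈ T, degOne K p * (p : ℝ) ^ (-(1 + σ)) = ∑ p ∈ T, pterm K σ p :=
        Finset.sum_congr rfl fun p hp => by
          unfold pterm
          rw [if_pos (hT p hp)]
      rw [h6]
      exact hsum.sum_le_tsum T fun p _ => pterm_nonneg K σ p
    have h7 := residue_le_zetaE (K := K) hσ0'
    have h8 := h7.trans (mul_le_mul_right h5 _)
    rw [← ENNReal.ofReal_mul hc0.le, ENNReal.ofReal_le_ofReal_iff (by positivity)] at h8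
    have h9 : a / σ ≤ κ / 2 ^ (d + 1) * (x₀ ^ (-σ) / σ) := by
      have : x₀⁻¹ ≤ x₀ ^ (-σ) := by
        rw [← Real.rpow_neg_one]
        exact Real.rpow_le_rpow_of_exponent_le hx₀1 (by linarith)
      rw [ha, mul_div_assoc]
      gcongr
    have h10 : a / c * (1 / σ) ≤ Real.exp (psum K σ + 6 * d) := by
      have := h9.trans h8
      rw [div_le_iff₀ hσ0'] at this
      have h11 : a / c * (1 / σ) = a / (c * σ) := by field_simp
      rw [h11, div_le_iff₀ (by positivity)]
      linarith
    have h12 := (Real.log_le_iff_le_exp (by positivity)).2 h10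
    rw [Real.log_mul (by positivity) (by positivity)] at h12
    linarith
  rw [abs_le]
  have e1 := neg_abs_le (Real.log (a / c))
  have e2 := le_abs_self (Real.log (2 * κ))
  have e3 := abs_nonneg (Real.log (a / c))
  have e4 := abs_nonneg (Real.log (2 * κ))
  have e5 : (0 : ℝ) ≤ 6 * d := by positivity
  constructor <;> linarith

end Pool.Agent.Ord
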