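import Mathlib

/-!
# Eigenvalues of powers of a matrix, and of matrices close to the identity
-/

open Polynomial

namespace Pool.Agent.Ord

theorem exists_fin_map {α : Type*} (m : Multiset α) {n : ℕ} (h : Multiset.card m = n) :
    ∃ f : Fin n → α, m = Multiset.map f Finset.univ.val := by
  obtain ⟨l, rfl⟩ : ∃ l : List α, m = (l : Multiset α) := ⟨m.toList, (Multiset.coe_toList m).symm⟩
  rw [Multiset.coe_card] at h
  subst h
  refine ⟨l.get, ?_⟩
  rw [Fin.univ_val_map, List.ofFn_get]

variable {K : Type*} [Field K] {n : ℕ}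

theorem exists_eigenvalues [IsAlgClosed K] (M : Matrix (Fin n) (Fin n) K) :
    ∃ α : Fin n → K, M.charpoly = ∏ i, (X - C (α i)) := by
  have hs := IsAlgClosed.splits M.charpoly
  have hcard : Multiset.card M.charpoly.roots = n := by
    rw [← hs.natDegree_eq_card_roots, M.charpoly_natDegree_eq_dim, Fintype.card_fin]
  obtain ⟨α, hα⟩ := exists_fin_map _ hcard
  refine ⟨α, ?_⟩
  have h1 := hs.eq_prod_roots
  rw [M.charpoly_monic.leadingCoeff, C_1, one_mul, hα, Multiset.map_map] at h1
  exact h1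

theorem det_aeval_X_sub_C {M : Matrix (Fin n) (Fin n) K} {α : Fin n → K}
    (hα : M.charpoly = ∏ i, (X - C (α i))) (r : K) :
    (aeval M (X - C r)).det = ∏ i, (α i - r) := by
  have h1 := Matrix.eval_charpoly M r
  rw [hα, eval_prod] at h1
  simp only [eval_sub, eval_X, eval_C] at h1
  have h2 : aeval M (X - C r) = -(Matrix.scalar (Fin n) r - M) := by
    rw [map_sub, aeval_X, aeval_C, neg_sub]
    rfl
  rw [h2, Matrix.det_neg, ← h1, Fintype.card_fin]
  have h3 : ∀ i, α i - r = -1 * (r - α i) := fun i => by ring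
  rw [Finset.prod_congr rfl fun i _ => h3 i, Finset.prod_mul_distrib, Finset.prod_const,
    Finset.card_univ, Fintype.card_fin]

theorem det_aeval [IsAlgClosed K] {M : Matrix (Fin n) (Fin n) K} {α : Fin n → K}
    (hα : M.charpoly = ∏ i, (X - C (α i))) (q : K[X]) :
    (aeval M q).det = ∏ i, q.eval (α i) := by
  have hq := (IsAlgClosed.splits q).eq_prod_roots
  have key : ∀ s : Multiset K, (aeval M (s.map fun a => X - C a).prod).det =
      ∏ i, ((s.map fun a => X - C a).prod).eval (α i) := by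
    intro s
    induction s using Multiset.induction_on with
    | empty => simp
    | cons a s ih =>
      rw [Multiset.map_cons, Multiset.prod_cons, map_mul, Matrix.det_mul, ih,
        det_aeval_X_sub_C hα, ← Finset.prod_mul_distrib]
      refine Finset.prod_congr rfl fun i _ => ?_
      rw [eval_mul, eval_sub, eval_X, eval_C]
  rw [hq, map_mul, Matrix.det_mul, key, aeval_C]
  have : (algebraMap K (Matrix (Fin n) (Fin n) K) q.leadingCoeff).det =
      ∏ _i : Fin n, q.leadingCoeff := by
    rw [Algebra.algebraMap_eq_smul_one, Matrix.det_smul, Matrix.det_one, mul_one,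
      Finset.prod_const, Finset.card_univ]
  rw [this, ← Finset.prod_mul_distrib]
  refine Finset.prod_congr rfl fun i _ => ?_
  rw [eval_mul, eval_C]

/-- The eigenvalues of the powers of a matrix. -/
theorem charpoly_pow_eq [IsAlgClosed K] {M : Matrix (Fin n) (Fin n) K} {α : Fin n → K}
    (hα : M.charpoly = ∏ i, (X - C (α i))) (k : ℕ) :
    (M ^ k).charpoly = ∏ i, (X - C (α i ^ k)) := by
  have hinf : Infinite K := IsAlgClosed.instInfinite
  apply Polynomial.funext
  intro c
  rw [Matrix.eval_charpoly, eval_prod]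
  simp only [eval_sub, eval_X, eval_C]
  have h1 : Matrix.scalar (Fin n) c - M ^ k = aeval M (C c - X ^ k) := by
    rw [map_sub, aeval_C, map_pow, aeval_X]
    rfl
  rw [h1, det_aeval hα]
  simp

/-- An eigenvalue of a matrix which is entrywise close to the identity is close to `1`. -/
theorem norm_eigenvalue_sub_one_lt {L : Type*} [NormedField L] [IsUltrametricDist L]
    {M : Matrix (Fin n) (Fin n) L} {δ : ℝ} (hM : ∀ a b, ‖M a b - (1 : Matrix (Fin n) (Fin n) L) a b‖ < δ)
    {r : L} (hr : M.charpoly.IsRoot r) : ‖r - 1‖ < δ := by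
  classical
  have h1 : (Matrix.scalar (Fin n) r - M).det = 0 := by
    rw [← Matrix.eval_charpoly]
    exact hr
  obtain ⟨v, hv0, hv⟩ := Matrix.exists_mulVec_eq_zero_iff.2 h1
  obtain ⟨i₀, hi₀⟩ : ∃ i, v i ≠ 0 := by
    by_contra hcon
    push Not at hcon
    exact hv0 (funext hcon)
  have hne : (Finset.univ : Finset (Fin n)).Nonempty := ⟨i₀, Finset.mem_univ _⟩
  obtain ⟨i, -, hi⟩ := Finset.exists_max_image Finset.univ (fun i => ‖v i‖) hne
  have hvi : 0 < ‖v i‖ := lt_of_lt_of_le (norm_pos_iff.2 hi₀) (hi i₀ (Finset.mem_univ _))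
  have h2 : (r - 1) * v i = ∑ k, (M i k - (1 : Matrix (Fin n) (Fin n) L) i k) * v k := by
    have h3 := congrFun hv i
    rw [Matrix.sub_mulVec, Pi.sub_apply, Pi.zero_apply, sub_eq_zero] at h3
    have h4 : (Matrix.scalar (Fin n) r).mulVec v i = r * v i := by
      rw [Matrix.scalar_apply, Matrix.mulVec_diagonal]
    rw [h4] at h3
    have h5 : ∑ k, (M i k - (1 : Matrix (Fin n) (Fin n) L) i k) * v k =
        (M.mulVec v) i - ((1 : Matrix (Fin n) (Fin n) L).mulVec v) i := by
      simp only [Matrix.mulVec, dotProduct, sub_mul, Finset.sum_sub_distrib]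
    rw [h5, ← h3, Matrix.one_mulVec]
    ring
  have h6 : ‖(r - 1) * v i‖ < δ * ‖v i‖ := by
    rw [h2]
    obtain ⟨k, -, hk⟩ := IsUltrametricDist.exists_norm_finset_sum_le_of_nonempty hne
      (fun k => (M i k - (1 : Matrix (Fin n) (Fin n) L) i k) * v k)
    refine lt_of_le_of_lt hk ?_
    rw [norm_mul]
    have hk1 := hM i k
    have hk2 := hi k (Finset.mem_univ _)
    calc ‖M i k - (1 : Matrix (Fin n) (Fin n) L) i k‖ * ‖v k‖
        ≤ ‖M i k - (1 : Matrix (Fin n) (Fin n) L) i k‖ * ‖v i‖ := by gcongr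
      _ < δ * ‖v i‖ := by gcongr
  rw [norm_mul] at h6
  exact lt_of_mul_lt_mul_right h6 hvi.le

end Pool.Agent.Ord
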