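import Mathlib

/-!
# The exponential of a complete extension of `ℚ_ℓ` near `0`
-/

open NormedSpace Filter Topology
open scoped ENNReal NNReal Nat

namespace Pool.Agent.Ord

section norms

variable (ℓ : ℕ) [hℓ : Fact ℓ.Prime] {K : Type*} [NontriviallyNormedField K]
  [NormedAlgebra ℚ_[ℓ] K]

include ℓ in
theorem norm_natCast_eq (n : ℕ) : ‖(n : K)‖ = ‖(n : ℚ_[ℓ])‖ := by
  rw [← map_natCast (algebraMap ℚ_[ℓ] K), norm_algebraMap']

include ℓ in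
theorem norm_intCast_eq (n : ℤ) : ‖(n : K)‖ = ‖(n : ℚ_[ℓ])‖ := by
  rw [← map_intCast (algebraMap ℚ_[ℓ] K), norm_algebraMap']

include ℓ in
theorem norm_natCast_le_one' (n : ℕ) : ‖(n : K)‖ ≤ 1 := by
  rw [norm_natCast_eq ℓ]
  exact_mod_cast Padic.norm_int_le_one (p := ℓ) n

include ℓ in
theorem norm_natCast_eq_one {n : ℕ} (hn : ¬ ℓ ∣ n) : ‖(n : K)‖ = 1 := by
  rw [norm_natCast_eq ℓ]
  rw [Padic.norm_natCast_eq_one_iff]
  exact (Nat.Prime.coprime_iff_not_dvd hℓ.out).2 hn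

include ℓ in
theorem norm_ell : ‖(ℓ : K)‖ = (ℓ : ℝ)⁻¹ := by
  rw [norm_natCast_eq ℓ, Padic.norm_p]

include ℓ in
theorem norm_factorial_inv_le (n : ℕ) : ‖((n ! : ℕ) : K)⁻¹‖ ≤ (ℓ : ℝ) ^ n := by
  have hℓ1 : (1 : ℝ) ≤ ℓ := by exact_mod_cast hℓ.out.one_le
  rw [norm_inv, norm_natCast_eq ℓ, Padic.norm_eq_zpow_neg_valuation (by
    exact_mod_cast (Nat.factorial_ne_zero n))]
  rw [Padic.valuation_natCast, ← zpow_neg, neg_neg, zpow_natCast]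
  refine pow_le_pow_right₀ hℓ1 ?_
  have h1 := sub_one_mul_padicValNat_factorial (p := ℓ) n
  have h2 : 1 ≤ ℓ - 1 := by
    have := hℓ.out.two_le
    omega
  calc padicValNat ℓ n ! ≤ (ℓ - 1) * padicValNat ℓ n ! := Nat.le_mul_of_pos_left _ (by omega)
    _ = n - (ℓ.digits n).sum := h1
    _ ≤ n := Nat.sub_le _ _

variable (K) in
include ℓ in
theorem inv_le_expSeries_radius : ((ℓ : ℝ≥0)⁻¹ : ℝ≥0) ≤ (expSeries K K).radius := by
  have hℓ0 : (0 : ℝ) < ℓ := by exact_mod_cast hℓ.out.pos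
  refine ((expSeries K K).le_radius_of_bound (r := (ℓ : ℝ≥0)⁻¹) 1 fun n => ?_)
  have h1 : ‖expSeries K K n‖ ≤ (ℓ : ℝ) ^ n := by
    rw [expSeries]
    refine (norm_smul_le ((n ! : K)⁻¹) (ContinuousMultilinearMap.mkPiAlgebraFin K n K)).trans ?_
    have h2 : ‖ContinuousMultilinearMap.mkPiAlgebraFin K n K‖ ≤ 1 :=
      (ContinuousMultilinearMap.norm_mkPiAlgebraFin (𝕜 := K) (n := n) (A := K)).le
    have h3 := norm_factorial_inv_le ℓ (K := K) n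
    have h4 : 0 ≤ ‖((n ! : ℕ) : K)⁻¹‖ := norm_nonneg _
    calc ‖((n ! : ℕ) : K)⁻¹‖ * ‖ContinuousMultilinearMap.mkPiAlgebraFin K n K‖
        ≤ (ℓ : ℝ) ^ n * 1 := by gcongr
      _ = _ := mul_one _
  calc ‖expSeries K K n‖ * (((ℓ : ℝ≥0)⁻¹ : ℝ≥0) : ℝ) ^ n
      ≤ (ℓ : ℝ) ^ n * (((ℓ : ℝ≥0)⁻¹ : ℝ≥0) : ℝ) ^ n := by gcongr
    _ = 1 := by
      push_cast
      rw [← mul_pow, mul_inv_cancel₀ hℓ0.ne', one_pow]

end norms

section facts

variable (ℓ : ℕ) [hℓ : Fact ℓ.Prime] (K : Type*) [NontriviallyNormedField K] [CharZero K]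
  [NormedAlgebra ℚ_[ℓ] K] [CompleteSpace K]

include ℓ in
/-- The properties of the exponential that are used. -/
theorem exp_facts : ∃ r : ℝ, 0 < r ∧
    (∀ x y : K, ‖x‖ < r → ‖y‖ < r → exp (x + y) = exp x * exp y) ∧
    (∀ x : K, ‖x‖ < r → AnalyticAt K exp x) ∧
    ∃ δ > 0, ∀ u : K, ‖u - 1‖ < δ → ∃ x : K, ‖x‖ < r ∧ exp x = u := by
  have hℓ0 : (0 : ℝ) < ℓ := by exact_mod_cast hℓ.out.pos
  have hrad := inv_le_expSeries_radius ℓ K
  have hpos : 0 < (expSeries K K).radius := by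
    refine lt_of_lt_of_le ?_ hrad
    rw [ENNReal.coe_pos]
    have : (0 : ℝ≥0) < ℓ := by exact_mod_cast hℓ.out.pos
    positivity
  have hmem : ∀ x : K, ‖x‖ < (ℓ : ℝ)⁻¹ → x ∈ Metric.eball (0 : K) (expSeries K K).radius := by
    intro x hx
    rw [Metric.mem_eball, edist_zero_right]
    refine lt_of_lt_of_le ?_ hrad
    rw [enorm_eq_nnnorm, ENNReal.coe_lt_coe, ← NNReal.coe_lt_coe]
    push_cast
    exact hx
  refine ⟨(ℓ : ℝ)⁻¹, by positivity, fun x y hx hy => exp_add_of_mem_ball (hmem x hx) (hmem y hy),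
    fun x hx => analyticAt_exp_of_mem_ball x (hmem x hx), ?_⟩
  have h1 : HasStrictDerivAt (exp : K → K) 1 0 := hasStrictDerivAt_exp_zero_of_radius_pos hpos
  have h2 := h1.map_nhds_eq one_ne_zero
  rw [exp_zero] at h2
  have h3 : exp '' (Metric.ball (0 : K) (ℓ : ℝ)⁻¹) ∈ 𝓝 (1 : K) := by
    rw [← h2]
    exact Filter.image_mem_map (Metric.ball_mem_nhds _ (by positivity))
  obtain ⟨δ, hδ, hsub⟩ := Metric.mem_nhds_iff.1 h3
  refine ⟨δ, hδ, fun u hu => ?_⟩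
  obtain ⟨x, hx, hxu⟩ := hsub (by rwa [Metric.mem_ball, dist_eq_norm])
  exact ⟨x, by simpa using hx, hxu⟩

end facts

end Pool.Agent.Ord
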