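import Mathlib
import Pool.Agent.Lib.Helper95.Ord.ExpAdic

/-!
# Power sums along `ℓ`-adically small exponents avoid a finite set
-/

open NormedSpace Filter Topology

namespace Pool.Agent.Ord

theorem exists_pos_forall_le {ι : Type*} (S : Finset ι) (d : ι → ℝ) (hd : ∀ i ∈ S, 0 < d i) :
    ∃ δ > 0, ∀ i ∈ S, δ ≤ d i := by
  classical
  induction S using Finset.induction_on with
  | empty => exact ⟨1, one_pos, by simp⟩
  | insert a S ha ih =>
    obtain ⟨δ, hδ, h⟩ := ih fun i hi => hd i (Finset.mem_insert_of_mem hi)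
    refine ⟨min δ (d a), lt_min hδ (hd a (Finset.mem_insert_self _ _)), fun i hi => ?_⟩
    rcases Finset.mem_insert.1 hi with rfl | hi
    · exact min_le_right _ _
    · exact (min_le_left _ _).trans (h i hi)

variable (ℓ : ℕ) [hℓ : Fact ℓ.Prime] {K : Type*} [NontriviallyNormedField K] [CharZero K]
  [NormedAlgebra ℚ_[ℓ] K] [CompleteSpace K]

include ℓ in
/-- **Power sums avoid a finite set.** -/
theorem power_sums_avoid {J : Type*} [Fintype J] (γ : J → K)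
    (hnear : ∀ δ > 0, ∃ m > 0, ∀ j, ‖γ j ^ m - 1‖ < δ)
    (hratio : ∀ i j, ∀ k > 0, γ i ^ k = γ j ^ k → γ i = γ j)
    (hne : ∃ i j, γ i ≠ γ j) (T : Finset K) :
    ∃ e₁ : ℕ, ∀ e ≥ e₁, ∃ δ > 0, ∀ k : ℕ, ¬ ℓ ∣ k → ∀ t ∈ T,
      δ ≤ ‖∑ j, γ j ^ (ℓ ^ e * k) - t‖ := by
  classical
  have hℓp := hℓ.out
  have hℓ0 : (0 : ℝ) < ℓ := by exact_mod_cast hℓp.pos
  have hℓ1 : (1 : ℝ) < ℓ := by exact_mod_cast hℓp.one_lt
  obtain ⟨r, hr, hadd, han, δ₀, hδ₀, hsurj⟩ := exp_facts ℓ K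
  obtain ⟨m, hm0, hm⟩ := hnear δ₀ hδ₀
  obtain ⟨e₀, m', hm', hmeq⟩ := Nat.exists_eq_pow_mul_and_not_dvd hm0.ne' ℓ hℓp.ne_one
  have hm'0 : m' ≠ 0 := fun h => hm' (h ▸ dvd_zero _)
  have hm'n : ‖(m' : K)‖ = 1 := norm_natCast_eq_one ℓ hm'
  have hm'K : (m' : K) ≠ 0 := by exact_mod_cast hm'0
  have hsmall : ∀ (s x : K), ‖s‖ ≤ 1 → ‖x‖ < r → ‖s * x‖ < r := by
    intro s x hs hx
    rw [norm_mul]
    calc ‖s‖ * ‖x‖ ≤ 1 * ‖x‖ := by gcongr
      _ < r := by rwa [one_mul]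
  have hexp0 : ∀ x : K, ‖x‖ < r → exp x ≠ 0 := by
    intro x hx h0
    have h1 := hadd x (-x) hx (by rwa [norm_neg])
    rw [add_neg_cancel, exp_zero, h0, zero_mul] at h1
    exact one_ne_zero h1
  have hexpn : ∀ (n : ℕ) (x : K), ‖x‖ < r → exp ((n : K) * x) = exp x ^ n := by
    intro n x hx
    induction n with
    | zero => simp
    | succ n ih =>
      rw [Nat.cast_succ, add_mul, one_mul, hadd _ _ (hsmall _ _ (norm_natCast_le_one' ℓ n) hx) hx,
        ih, pow_succ]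
  -- logarithms
  have hlog : ∀ x : K, ∃ L : K, ‖x ^ m - 1‖ < δ₀ → ‖L‖ < r ∧ exp L ^ m' = x ^ m := by
    intro x
    by_cases hx : ‖x ^ m - 1‖ < δ₀
    · obtain ⟨Λ, hΛ, hΛx⟩ := hsurj _ hx
      have hL : ‖Λ / m'‖ < r := by rw [norm_div, hm'n, div_one]; exact hΛ
      refine ⟨Λ / m', fun _ => ⟨hL, ?_⟩⟩
      rw [← hexpn m' _ hL, mul_div_cancel₀ _ hm'K, hΛx]
    · exact ⟨0, fun h => absurd h hx⟩
  choose L hL using hlog
  set g : K → K := fun x => x ^ ℓ ^ e₀ / exp (L x) with hg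
  have hLr : ∀ j, ‖L (γ j)‖ < r := fun j => (hL _ (hm j)).1
  have hLe : ∀ j, exp (L (γ j)) ^ m' = γ j ^ m := fun j => (hL _ (hm j)).2
  have hγ0 : ∀ j, γ j ≠ 0 := by
    intro j h0
    have h1 := hLe j
    have h2 := hLr j
    rw [h0] at h1 h2
    rw [zero_pow hm0.ne'] at h1
    exact hexp0 _ h2 (pow_eq_zero_iff hm'0 |>.1 h1)
  have hg1 : ∀ j, g (γ j) ^ m' = 1 := by
    intro j
    simp only [hg]
    rw [div_pow, hLe, ← pow_mul, ← hmeq, div_self (pow_ne_zero _ (hγ0 j))]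
  have hg0 : ∀ j, g (γ j) ≠ 0 := by
    intro j h0
    have := hg1 j
    rw [h0, zero_pow hm'0] at this
    exact zero_ne_one this
  have hpow : ∀ (s : ℕ) (j : J), γ j ^ (ℓ ^ e₀ * s) = g (γ j) ^ s * exp ((s : K) * L (γ j)) := by
    intro s j
    have h1 : γ j ^ ℓ ^ e₀ = g (γ j) * exp (L (γ j)) := by
      simp only [hg]
      rw [div_mul_cancel₀ _ (hexp0 _ (hLr j))]
    rw [pow_mul, h1, mul_pow, hexpn _ _ (hLr j)]
  -- the interpolating functions
  let Φ : ℕ → K → K := fun r₀ s => ∑ j, g (γ j) ^ r₀ * exp (s * L (γ j))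
  have hΦan : ∀ r₀ (s : K), ‖s‖ ≤ 1 → AnalyticAt K (Φ r₀) s := by
    intro r₀ s hs
    apply Finset.analyticAt_fun_sum
    intro j _
    apply AnalyticAt.mul analyticAt_const
    have h1 : AnalyticAt K (fun s : K => s * L (γ j)) s := analyticAt_id.mul analyticAt_const
    exact AnalyticAt.fun_comp (han _ (hsmall _ _ hs (hLr j))) h1
  have hΦs : ∀ s : ℕ, ∑ j, γ j ^ (ℓ ^ e₀ * s) = Φ (s % m') s := by
    intro s
    refine Finset.sum_congr rfl fun j _ => ?_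
    rw [hpow, ← pow_mod_orderOf, ← pow_mod_orderOf (g (γ j)) (s % m')]
    congr 2
    rw [Nat.mod_mod_of_dvd]
    exact orderOf_dvd_of_pow_eq_one (hg1 j)
  -- nonconstancy
  have hnc : ∀ r₀ t, ∀ᶠ s in 𝓝[≠] (0 : K), Φ r₀ s ≠ t := by
    intro r₀ t
    rcases (hΦan r₀ 0 (by simp)).eventually_eq_or_eventually_ne
      (analyticAt_const (v := t)) with hcon | hcon
    · exfalso
      obtain ⟨ρ, hρ, hball⟩ := Metric.eventually_nhds_iff.1 hcon
      obtain ⟨N, hN⟩ : ∃ N : ℕ, ((ℓ : ℝ)⁻¹) ^ N < ρ :=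
        exists_pow_lt_of_lt_one hρ (inv_lt_one_of_one_lt₀ hℓ1)
      let v : K → K := fun x => exp (((ℓ ^ N : ℕ) : K) * L x)
      have hNn : ‖((ℓ ^ N : ℕ) : K)‖ = ((ℓ : ℝ)⁻¹) ^ N := by
        rw [Nat.cast_pow, norm_pow, norm_ell]
      have hNL : ∀ j, ‖((ℓ ^ N : ℕ) : K) * L (γ j)‖ < r := fun j =>
        hsmall _ _ (norm_natCast_le_one' ℓ _) (hLr j)
      have hsum : ∀ i : ℕ, ∑ j, g (γ j) ^ r₀ * v (γ j) ^ i = t := by
        intro i
        have h1 : ‖(i : K) * ((ℓ ^ N : ℕ) : K)‖ < ρ := by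
          rw [norm_mul, hNn]
          calc ‖(i : K)‖ * ((ℓ : ℝ)⁻¹) ^ N ≤ 1 * ((ℓ : ℝ)⁻¹) ^ N := by
                gcongr; exact norm_natCast_le_one' ℓ i
            _ < ρ := by rwa [one_mul]
        have h2 := hball (y := (i : K) * ((ℓ ^ N : ℕ) : K)) (by rwa [dist_zero_right])
        rw [← h2]
        refine Finset.sum_congr rfl fun j _ => ?_
        rw [mul_assoc, hexpn _ _ (hNL j)]
      -- distinct values stay distinct
      have hvinj : ∀ i j, v (γ i) = v (γ j) → γ i = γ j := by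
        intro i j hij
        have hvm : ∀ j, v (γ j) ^ m' = γ j ^ (ℓ ^ e₀ * ℓ ^ N * m') := by
          intro j
          rw [pow_mul, hpow, mul_pow, ← pow_mul, mul_comm (ℓ ^ N) m', pow_mul, hg1, one_pow, one_mul]
        apply hratio i j (ℓ ^ e₀ * ℓ ^ N * m') (by
          have := hℓp.pos
          have := Nat.pos_of_ne_zero hm'0
          positivity)
        rw [← hvm, ← hvm, hij]
      -- a value different from one
      obtain ⟨j₀, hj₀⟩ : ∃ j₀, v (γ j₀) ≠ 1 := by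
        obtain ⟨i, j, hij⟩ := hne
        by_contra hall
        push Not at hall
        exact hij (hvinj i j (by rw [hall i, hall j]))
      let G : Finset K := (Finset.univ.image γ).erase (γ j₀)
      let P : Polynomial K := (Polynomial.X - Polynomial.C 1) *
        ∏ x ∈ G, (Polynomial.X - Polynomial.C (v x))
      have hP : ∀ P : Polynomial K, ∑ j, g (γ j) ^ r₀ * P.eval (v (γ j)) = t * P.eval 1 := by
        intro P
        induction P using Polynomial.induction_on' with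
        | add p q hp hq =>
          simp only [Polynomial.eval_add, mul_add, Finset.sum_add_distrib, hp, hq]
        | monomial n a =>
          simp only [Polynomial.eval_monomial, one_pow, mul_one]
          have : ∀ j, g (γ j) ^ r₀ * (a * v (γ j) ^ n) = a * (g (γ j) ^ r₀ * v (γ j) ^ n) := by
            intro j; ring
          rw [Finset.sum_congr rfl fun j _ => this j, ← Finset.mul_sum, hsum, mul_comm]
      have hP1 := hP P
      have hPe1 : P.eval 1 = 0 := by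
        simp [P]
      have hPe : ∀ x, P.eval x = (x - 1) * ∏ y ∈ G, (x - v y) := by
        intro x
        simp [P, Polynomial.eval_prod]
      rw [hPe1, mul_zero] at hP1
      have hP0 : P.eval (v (γ j₀)) ≠ 0 := by
        rw [hPe]
        refine mul_ne_zero (sub_ne_zero.2 hj₀) (Finset.prod_ne_zero_iff.2 fun x hx => ?_)
        rw [Finset.mem_erase, Finset.mem_image] at hx
        obtain ⟨hx0, j, -, rfl⟩ := hx
        rw [sub_ne_zero]
        intro h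
        exact hx0 (hvinj _ _ h).symm
      have hterm : ∀ j, g (γ j) ^ r₀ * P.eval (v (γ j)) =
          if γ j = γ j₀ then g (γ j₀) ^ r₀ * P.eval (v (γ j₀)) else 0 := by
        intro j
        split_ifs with h
        · rw [h]
        · rw [hPe]
          have : ∏ y ∈ G, (v (γ j) - v y) = 0 := by
            refine Finset.prod_eq_zero (i := γ j) ?_ (sub_self _)
            rw [Finset.mem_erase, Finset.mem_image]
            exact ⟨h, j, Finset.mem_univ _, rfl⟩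
          rw [this, mul_zero, mul_zero]
      rw [Finset.sum_congr rfl fun j _ => hterm j, ← Finset.sum_filter, Finset.sum_const,
        nsmul_eq_mul] at hP1
      have hcard : ((Finset.univ.filter fun j => γ j = γ j₀).card : K) ≠ 0 := by
        have : (Finset.univ.filter fun j => γ j = γ j₀).card ≠ 0 :=
          Finset.card_ne_zero_of_mem (Finset.mem_filter.2 ⟨Finset.mem_univ j₀, rfl⟩)
        exact_mod_cast this
      exact (mul_ne_zero hcard (mul_ne_zero (pow_ne_zero _ (hg0 j₀)) hP0)) hP1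
    · exact hcon
  -- a uniform radius
  have hρ : ∃ ρ > 0, ∀ r₀ < m', ∀ t ∈ T, ∀ s : K, s ≠ 0 → ‖s‖ < ρ → Φ r₀ s ≠ t := by
    have h1 : ∀ a : ℕ × K, ∃ ρ > 0, ∀ s : K, s ≠ 0 → ‖s‖ < ρ → Φ a.1 s ≠ a.2 := by
      intro a
      have h2 := hnc a.1 a.2
      rw [eventually_nhdsWithin_iff, Metric.eventually_nhds_iff] at h2
      obtain ⟨ρ, hρ, h3⟩ := h2
      exact ⟨ρ, hρ, fun s hs0 hs => h3 (by rwa [dist_zero_right]) hs0⟩
    choose ρ hρ0 hρ using h1
    obtain ⟨δ, hδ, hle⟩ := exists_pos_forall_le (Finset.range m' ×ˢ T) ρ fun a _ => hρ0 a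
    refine ⟨δ, hδ, fun r₀ hr₀ t ht s hs0 hs => ?_⟩
    exact hρ (r₀, t) s hs0 (lt_of_lt_of_le hs (hle (r₀, t)
      (Finset.mem_product.2 ⟨Finset.mem_range.2 hr₀, ht⟩)))
  obtain ⟨ρ, hρ0, hρ⟩ := hρ
  obtain ⟨N, hN⟩ : ∃ N : ℕ, ((ℓ : ℝ)⁻¹) ^ N < ρ :=
    exists_pow_lt_of_lt_one hρ0 (inv_lt_one_of_one_lt₀ hℓ1)
  refine ⟨e₀ + N, fun e he => ?_⟩
  obtain ⟨f, rfl⟩ := Nat.exists_eq_add_of_le he
  -- compactness of the units of `ℤ_ℓ`
  let U : Set ℤ_[ℓ] := {u | ‖u‖ = 1}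
  have hU : IsCompact U := (isClosed_eq continuous_norm continuous_const).isCompact
  have h1U : (1 : ℤ_[ℓ]) ∈ U := by
    show ‖(1 : ℤ_[ℓ])‖ = 1
    exact norm_one
  let c : ℤ_[ℓ] → K := fun u => ((ℓ ^ (N + f) : ℕ) : K) * algebraMap ℚ_[ℓ] K (u : ℚ_[ℓ])
  have hc : Continuous c := by
    refine continuous_const.mul ?_
    exact (continuous_algebraMap ℚ_[ℓ] K).comp continuous_subtype_val
  have hcn : ∀ u ∈ U, ‖c u‖ = ((ℓ : ℝ)⁻¹) ^ (N + f) := by
    intro u hu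
    have h1 : ‖u‖ = 1 := hu
    simp only [c]
    rw [norm_mul, Nat.cast_pow, norm_pow, norm_ell, norm_algebraMap']
    have : ‖(u : ℚ_[ℓ])‖ = 1 := h1
    rw [this, mul_one]
  have hpow1 : ((ℓ : ℝ)⁻¹) ^ (N + f) ≤ ((ℓ : ℝ)⁻¹) ^ N :=
    pow_le_pow_of_le_one (by positivity) (inv_le_one_of_one_le₀ hℓ1.le) (Nat.le_add_right _ _)
  have hmin : ∀ a : ℕ × K, a ∈ Finset.range m' ×ˢ T → ∃ δ > 0, ∀ u ∈ U,
      δ ≤ ‖Φ a.1 (c u) - a.2‖ := by
    intro a ha
    rw [Finset.mem_product, Finset.mem_range] at ha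
    have hcont : ContinuousOn (fun u => ‖Φ a.1 (c u) - a.2‖) U := by
      intro u hu
      have h1 : ContinuousAt (Φ a.1) (c u) := by
        refine (hΦan a.1 (c u) ?_).continuousAt
        rw [hcn u hu]
        exact pow_le_one₀ (by positivity) (inv_le_one_of_one_le₀ hℓ1.le)
      have h2 : ContinuousAt (fun u => Φ a.1 (c u)) u := ContinuousAt.comp' h1 hc.continuousAt
      exact ((h2.sub continuousAt_const).norm).continuousWithinAt
    obtain ⟨u₀, hu₀, hmin⟩ := hU.exists_isMinOn ⟨1, h1U⟩ hcont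
    refine ⟨‖Φ a.1 (c u₀) - a.2‖, ?_, fun u hu => hmin hu⟩
    rw [gt_iff_lt, norm_pos_iff, sub_ne_zero]
    apply hρ a.1 ha.1 a.2 ha.2
    · rw [← norm_ne_zero_iff, hcn u₀ hu₀]
      positivity
    · rw [hcn u₀ hu₀]
      exact lt_of_le_of_lt hpow1 hN
  have hmin' : ∀ a : ℕ × K, ∃ δ : ℝ, a ∈ Finset.range m' ×ˢ T → 0 < δ ∧ ∀ u ∈ U,
      δ ≤ ‖Φ a.1 (c u) - a.2‖ := by
    intro a
    by_cases ha : a ∈ Finset.range m' ×ˢ T
    · obtain ⟨δ, hδ, h⟩ := hmin a ha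
      exact ⟨δ, fun _ => ⟨hδ, h⟩⟩
    · exact ⟨0, fun h => absurd h ha⟩
  choose d hd using hmin'
  obtain ⟨δ, hδ, hle⟩ := exists_pos_forall_le (Finset.range m' ×ˢ T) d fun a ha => (hd a ha).1
  refine ⟨δ, hδ, fun k hk t ht => ?_⟩
  have hmem : ((ℓ ^ (N + f) * k) % m', t) ∈ Finset.range m' ×ˢ T :=
    Finset.mem_product.2 ⟨Finset.mem_range.2 (Nat.mod_lt _ (Nat.pos_of_ne_zero hm'0)), ht⟩
  have hkU : ((k : ℕ) : ℤ_[ℓ]) ∈ U := by
    show ‖((k : ℕ) : ℤ_[ℓ])‖ = 1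
    rw [PadicInt.norm_natCast_eq_one_iff]
    exact (Nat.Prime.coprime_iff_not_dvd hℓp).2 hk
  have h1 := (hle _ hmem).trans ((hd _ hmem).2 _ hkU)
  have h2 : c ((k : ℕ) : ℤ_[ℓ]) = ((ℓ ^ (N + f) * k : ℕ) : K) := by
    simp [c]
  rw [h2] at h1
  have h3 : ℓ ^ (e₀ + N + f) * k = ℓ ^ e₀ * (ℓ ^ (N + f) * k) := by
    rw [add_assoc, pow_add, mul_assoc]
  rw [h3, hΦs]
  exact h1

end Pool.Agent.Ord
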