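import Mathlib
import Pool.Agent.Lib.Helper95.Ord.MatrixRoots

/-!
# Symmetric functions of the eigenvalues are polynomial functions of the matrix
-/

open Finset

namespace Pool.Agent.Ord

section pe

variable {R : Type*} [CommRing R]

/-- The `h`-th elementary symmetric function of the roots of a monic polynomial of degree `n`. -/
def pe (P : Polynomial R) (n h : ℕ) : R := (-1) ^ h * P.coeff (n - h)

theorem pe_map {S : Type*} [CommRing S] (f : R →+* S) (P : Polynomial R) (n h : ℕ) :
    pe (P.map f) n h = f (pe P n h) := by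
  simp [pe]

theorem pe_prod {n : ℕ} (α : Fin n → R) {h : ℕ} (hh : h ≤ n) :
    pe (∏ i, (Polynomial.X - Polynomial.C (α i))) n h =
      ∑ A ∈ powersetCard h (univ : Finset (Fin n)), ∏ i ∈ A, α i := by
  have h1 := Multiset.prod_X_sub_C_coeff ((univ : Finset (Fin n)).val.map α) (k := n - h)
    (by simp)
  rw [Multiset.map_map, Multiset.card_map] at h1
  have h2 : Multiset.card (univ : Finset (Fin n)).val = n := by simp
  rw [h2, Nat.sub_sub_self hh, Finset.esymm_map_val] at h1
  rw [pe]
  have h3 : (∏ i, (Polynomial.X - Polynomial.C (α i))).coeff (n - h) =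
      (-1) ^ h * ∑ A ∈ powersetCard h (univ : Finset (Fin n)), ∏ i ∈ A, α i := h1
  rw [h3, ← mul_assoc, ← mul_pow, neg_one_mul, neg_neg, one_pow, one_mul]

end pe

section sym

variable {K : Type*} [Field K] {n : ℕ}

/-- The entries of a matrix as a function on pairs. -/
abbrev ent (M : Matrix (Fin n) (Fin n) K) : Fin n × Fin n → K := fun ij => M ij.1 ij.2

theorem eval_univ_coeff (M : Matrix (Fin n) (Fin n) K) (k : ℕ) :
    MvPolynomial.eval (ent M) ((Matrix.charpoly.univ K (Fin n)).coeff k) = M.charpoly.coeff k := by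
  have h := Matrix.charpoly.univ_coeff_eval₂Hom (n := Fin n) (RingHom.id K) (ent M) k
  exact h

/-- A symmetric polynomial in the eigenvalues is a polynomial in the entries. -/
theorem exists_poly_sym (S : MvPolynomial (Fin n) K) (hS : S.IsSymmetric) :
    ∃ Pol : MvPolynomial (Fin n × Fin n) K, ∀ (M : Matrix (Fin n) (Fin n) K) (α : Fin n → K),
      M.charpoly = ∏ i, (Polynomial.X - Polynomial.C (α i)) →
        MvPolynomial.eval (ent M) Pol = MvPolynomial.eval α S := by
  obtain ⟨Ψ, hΨ⟩ := MvPolynomial.esymmAlgHom_fin_surjective (R := K) (m := n) (n := n) le_rfl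
    ⟨S, hS⟩
  have hΨ' : MvPolynomial.aeval (fun i : Fin n => MvPolynomial.esymm (Fin n) K (i + 1)) Ψ = S := by
    rw [← MvPolynomial.esymmAlgHom_apply, hΨ]
  let g : Fin n → MvPolynomial (Fin n × Fin n) K := fun i =>
    (-1) ^ ((i : ℕ) + 1) * (Matrix.charpoly.univ K (Fin n)).coeff (n - (i + 1))
  refine ⟨MvPolynomial.aeval g Ψ, fun M α hα => ?_⟩
  have h1 : MvPolynomial.eval (ent M) (MvPolynomial.aeval g Ψ) =
      MvPolynomial.eval (fun i => MvPolynomial.eval (ent M) (g i)) Ψ := by
    rw [← MvPolynomial.coe_aeval_eq_eval, ← MvPolynomial.coe_aeval_eq_eval]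
    show MvPolynomial.aeval (ent M) (MvPolynomial.aeval g Ψ) = _
    rw [← AlgHom.comp_apply, MvPolynomial.comp_aeval]
    rfl
  have h2 : MvPolynomial.eval α S =
      MvPolynomial.eval (fun i : Fin n => MvPolynomial.eval α
        (MvPolynomial.esymm (Fin n) K (i + 1))) Ψ := by
    rw [← hΨ', ← MvPolynomial.coe_aeval_eq_eval, ← MvPolynomial.coe_aeval_eq_eval]
    show MvPolynomial.aeval α (MvPolynomial.aeval _ Ψ) = _
    rw [← AlgHom.comp_apply, MvPolynomial.comp_aeval]
    rfl
  rw [h1, h2]
  congr 1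
  congr 1
  funext i
  simp only [g]
  rw [map_mul, map_pow, map_neg, map_one, eval_univ_coeff, hα]
  have h3 := pe_prod α (h := (i : ℕ) + 1) i.2
  rw [pe] at h3
  rw [h3, MvPolynomial.esymm, map_sum]
  refine Finset.sum_congr rfl fun A _ => ?_
  rw [map_prod]
  simp

/-- The product over pairs of subsets of size `h`. -/
noncomputable def pairProd (n h : ℕ) (ζ : K) : MvPolynomial (Fin n) K :=
  ∏ A ∈ powersetCard h (univ : Finset (Fin n)), ∏ B ∈ powersetCard h (univ : Finset (Fin n)),
    ((∏ i ∈ A, MvPolynomial.X i) - MvPolynomial.C ζ * ∏ i ∈ B, MvPolynomial.X i)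

theorem pairProd_symm (h : ℕ) (ζ : K) : (pairProd n h ζ).IsSymmetric := by
  intro e
  have key : ∀ f : Finset (Fin n) → MvPolynomial (Fin n) K,
      ∏ A ∈ powersetCard h (univ : Finset (Fin n)), f (A.map e.toEmbedding) =
        ∏ A ∈ powersetCard h (univ : Finset (Fin n)), f A := by
    intro f
    refine Finset.prod_bij (fun A _ => A.map e.toEmbedding) ?_ ?_ ?_ ?_
    · intro A hA
      rw [mem_powersetCard] at hA ⊢
      exact ⟨subset_univ _, by rw [card_map]; exact hA.2⟩
    · intro A _ B _ hAB
      exact Finset.map_injective _ hAB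
    · intro B hB
      rw [mem_powersetCard] at hB
      refine ⟨B.map e.symm.toEmbedding, ?_, ?_⟩
      · rw [mem_powersetCard]
        exact ⟨subset_univ _, by rw [card_map]; exact hB.2⟩
      · ext x
        simp
    · intro A _
      rfl
  have hprod : ∀ A : Finset (Fin n), MvPolynomial.rename e (∏ i ∈ A, MvPolynomial.X i) =
      ∏ i ∈ A.map e.toEmbedding, (MvPolynomial.X i : MvPolynomial (Fin n) K) := by
    intro A
    rw [map_prod, Finset.prod_map]
    simp
  rw [pairProd, map_prod]
  have h1 : ∀ A ∈ powersetCard h (univ : Finset (Fin n)),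
      MvPolynomial.rename e (∏ B ∈ powersetCard h (univ : Finset (Fin n)),
        ((∏ i ∈ A, MvPolynomial.X i) - MvPolynomial.C ζ * ∏ i ∈ B, MvPolynomial.X i)) =
      ∏ B ∈ powersetCard h (univ : Finset (Fin n)),
        ((∏ i ∈ A.map e.toEmbedding, (MvPolynomial.X i : MvPolynomial (Fin n) K)) -
          MvPolynomial.C ζ * ∏ i ∈ B, MvPolynomial.X i) := by
    intro A _
    rw [map_prod, ← key (fun B => (∏ i ∈ A.map e.toEmbedding,
      (MvPolynomial.X i : MvPolynomial (Fin n) K)) - MvPolynomial.C ζ * ∏ i ∈ B, MvPolynomial.X i)]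
    refine Finset.prod_congr rfl fun B _ => ?_
    rw [map_sub, map_mul, MvPolynomial.rename_C, hprod, hprod]
  rw [Finset.prod_congr rfl h1]
  exact key (fun A => ∏ B ∈ powersetCard h (univ : Finset (Fin n)),
        ((∏ i ∈ A, (MvPolynomial.X i : MvPolynomial (Fin n) K)) -
          MvPolynomial.C ζ * ∏ i ∈ B, MvPolynomial.X i))

theorem eval_pairProd (h : ℕ) (ζ : K) (α : Fin n → K) :
    MvPolynomial.eval α (pairProd n h ζ) =
      ∏ A ∈ powersetCard h (univ : Finset (Fin n)), ∏ B ∈ powersetCard h (univ : Finset (Fin n)),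
        ((∏ i ∈ A, α i) - ζ * ∏ i ∈ B, α i) := by
  simp [pairProd, map_prod]

/-- A polynomial function of the matrix detecting coincidences of products of eigenvalues up
to `ζ`. -/
theorem exists_poly_pair (n h : ℕ) (ζ : K) : ∃ Pol : MvPolynomial (Fin n × Fin n) K,
    ∀ (M : Matrix (Fin n) (Fin n) K) (α : Fin n → K),
      M.charpoly = ∏ i, (Polynomial.X - Polynomial.C (α i)) →
        MvPolynomial.eval (ent M) Pol =
          ∏ A ∈ powersetCard h (univ : Finset (Fin n)),
            ∏ B ∈ powersetCard h (univ : Finset (Fin n)), ((∏ i ∈ A, α i) - ζ * ∏ i ∈ B, α i) := by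
  obtain ⟨Pol, hPol⟩ := exists_poly_sym (pairProd n h ζ) (pairProd_symm h ζ)
  exact ⟨Pol, fun M α hα => by rw [hPol M α hα, eval_pairProd]⟩

/-- A polynomial function of the matrix which does not vanish at a given matrix with two
distinct eigenvalues, but vanishes at all matrices with a single eigenvalue. -/
theorem exists_poly_distinct [CharZero K] (M₀ : Matrix (Fin n) (Fin n) K) (α₀ : Fin n → K)
    (hα₀ : M₀.charpoly = ∏ i, (Polynomial.X - Polynomial.C (α₀ i))) (hne : ∃ i j, α₀ i ≠ α₀ j) :
    ∃ Pol : MvPolynomial (Fin n × Fin n) K, MvPolynomial.eval (ent M₀) Pol ≠ 0 ∧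
      ∀ (M : Matrix (Fin n) (Fin n) K) (α : Fin n → K),
        M.charpoly = ∏ i, (Polynomial.X - Polynomial.C (α i)) →
          MvPolynomial.eval (ent M) Pol ≠ 0 → ∃ i j, α i ≠ α j := by
  classical
  obtain ⟨i₀, j₀, hij⟩ := hne
  have hn : n ≠ 0 := by
    rintro rfl
    exact i₀.elim0
  have hinf : Infinite K := CharZero.infinite K
  -- the discrepancy polynomial in one variable
  let D : (Fin n → K) → K → K := fun α c => (n : K) ^ n * ∏ i, (c - α i) - (n * c - ∑ i, α i) ^ n
  have hD : ∃ c, D α₀ c ≠ 0 := by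
    by_contra hcon
    push Not at hcon
    have h1 : (Polynomial.C ((n : K) ^ n) * ∏ i, (Polynomial.X - Polynomial.C (α₀ i))) =
        (Polynomial.C (n : K) * Polynomial.X - Polynomial.C (∑ i, α₀ i)) ^ n := by
      apply Polynomial.funext
      intro c
      have := hcon c
      simp only [D, sub_eq_zero] at this
      simpa [Polynomial.eval_prod, Polynomial.eval_finsetSum] using this
    have h2 : ∀ i, (n : K) * α₀ i = ∑ i, α₀ i := by
      intro i
      have h3 := congrArg (Polynomial.eval (α₀ i)) h1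
      have h4 : (∏ j, (Polynomial.X - Polynomial.C (α₀ j))).eval (α₀ i) = 0 := by
        rw [Polynomial.eval_prod]
        exact Finset.prod_eq_zero (Finset.mem_univ i) (by simp)
      rw [Polynomial.eval_mul, h4, mul_zero, Polynomial.eval_pow] at h3
      have h5 := pow_eq_zero_iff hn |>.1 h3.symm
      simp only [Polynomial.eval_sub, Polynomial.eval_mul, Polynomial.eval_C,
        Polynomial.eval_X] at h5
      exact sub_eq_zero.1 h5
    have h6 : (n : K) * α₀ i₀ = n * α₀ j₀ := by rw [h2, h2]
    have hnK : (n : K) ≠ 0 := by exact_mod_cast hn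
    exact hij (mul_left_cancel₀ hnK h6)
  obtain ⟨c, hc⟩ := hD
  let Pol : MvPolynomial (Fin n × Fin n) K :=
    MvPolynomial.C ((n : K) ^ n) * (Matrix.charpoly.univ K (Fin n)).eval (MvPolynomial.C c) -
      (MvPolynomial.C ((n : K) * c) - ∑ i, MvPolynomial.X (i, i)) ^ n
  have hPol : ∀ (M : Matrix (Fin n) (Fin n) K) (α : Fin n → K),
      M.charpoly = ∏ i, (Polynomial.X - Polynomial.C (α i)) →
        MvPolynomial.eval (ent M) Pol = D α c := by
    intro M α hα
    have h1 : MvPolynomial.eval (ent M) ((Matrix.charpoly.univ K (Fin n)).eval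
        (MvPolynomial.C c)) = ∏ i, (c - α i) := by
      have h2 : MvPolynomial.eval (ent M) ((Matrix.charpoly.univ K (Fin n)).eval
        (MvPolynomial.C c)) = M.charpoly.eval c := by
        rw [Polynomial.eval_eq_sum_range, Polynomial.eval_eq_sum_range, map_sum,
          Matrix.charpoly.univ_natDegree, M.charpoly_natDegree_eq_dim]
        refine Finset.sum_congr rfl fun k _ => ?_
        rw [map_mul, eval_univ_coeff, map_pow, MvPolynomial.eval_C]
      rw [h2, hα, Polynomial.eval_prod]
      simp
    have h3 : ∑ i, M i i = ∑ i, α i := by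
      have h4 : M.charpoly = (((univ : Finset (Fin n)).val.map α).map
          (fun a => Polynomial.X - Polynomial.C a)).prod := by
        rw [hα, Multiset.map_map]
        rfl
      have h5 := Matrix.trace_eq_sum_roots_charpoly_of_splits (B := M) (by
        rw [hα]
        exact Polynomial.Splits.prod fun i _ => Polynomial.Splits.X_sub_C (α i))
      rw [h4, Polynomial.roots_multiset_prod_X_sub_C] at h5
      exact h5
    simp only [Pol, D, map_sub, map_mul, map_pow, MvPolynomial.eval_C, h1, map_sum,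
      MvPolynomial.eval_X, h3]
  refine ⟨Pol, by rw [hPol M₀ α₀ hα₀]; exact hc, fun M α hα hM => ?_⟩
  rw [hPol M α hα] at hM
  by_contra hcon
  push Not at hcon
  apply hM
  have hconst : ∀ i, α i = α i₀ := fun i => hcon i i₀
  simp only [D]
  rw [Finset.prod_congr rfl fun i _ => by rw [hconst i], Finset.prod_const,
    Finset.sum_congr rfl fun i _ => hconst i, Finset.sum_const, Finset.card_univ, Fintype.card_fin,
    nsmul_eq_mul, ← mul_sub, mul_pow, sub_self]

end sym

end Pool.Agent.Ord
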