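import Mathlib
import Pool.Agent.Lib.Helper95.Ord.Sym

/-!
# Families of representations with connected Zariski closure
-/

open Set Topology

namespace Pool.Agent.Ord

section defs

variable {Γ : Type*} [Group Γ] {ι : Type*} {K : Type*} [Field K] {n : ι → ℕ}
  (ρ : ∀ j, Γ →* Matrix (Fin (n j)) (Fin (n j)) K)

/-- The algebra of functions on the group generated by the matrix coefficients of the
representations `ρ j`. -/
def coordAlg : Subalgebra K (Γ → K) :=
  Algebra.adjoin K {f | ∃ j a b, f = fun x => ρ j x a b}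

/-- The Zariski closure of the image of `(ρ j)_j` is connected: a polynomial in the matrix
coefficients which vanishes on an open subgroup vanishes on the whole group. -/
def IsConnectedFamily [TopologicalSpace Γ] : Prop :=
  ∀ U : Subgroup Γ, IsOpen (U : Set Γ) → ∀ f ∈ coordAlg ρ, (∀ x ∈ U, f x = 0) → f = 0

theorem poly_mem_coordAlg (j : ι) (B : Matrix (Fin (n j)) (Fin (n j)) K)
    (Pol : MvPolynomial (Fin (n j) × Fin (n j)) K) :
    (fun x => MvPolynomial.eval (ent (ρ j x * B)) Pol) ∈ coordAlg ρ := by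
  induction Pol using MvPolynomial.induction_on with
  | C a =>
    have : (fun x => MvPolynomial.eval (ent (ρ j x * B)) (MvPolynomial.C a)) =
        algebraMap K (Γ → K) a := by
      funext x
      simp
    rw [this]
    exact (coordAlg ρ).algebraMap_mem a
  | add p q hp hq =>
    have : (fun x => MvPolynomial.eval (ent (ρ j x * B)) (p + q)) =
        (fun x => MvPolynomial.eval (ent (ρ j x * B)) p) +
          (fun x => MvPolynomial.eval (ent (ρ j x * B)) q) := by
      funext x
      simp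
    rw [this]
    exact (coordAlg ρ).add_mem hp hq
  | mul_X p ij hp =>
    have : (fun x => MvPolynomial.eval (ent (ρ j x * B)) (p * MvPolynomial.X ij)) =
        (fun x => MvPolynomial.eval (ent (ρ j x * B)) p) *
          (∑ k, (algebraMap K (Γ → K) (B k ij.2)) * (fun x => ρ j x ij.1 k)) := by
      funext x
      simp only [map_mul, MvPolynomial.eval_X, Pi.mul_apply, Finset.sum_apply,
        Pi.algebraMap_apply, Algebra.algebraMap_self, RingHom.id_apply]
      congr 1
      show (ρ j x * B) ij.1 ij.2 = _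
      rw [Matrix.mul_apply]
      exact Finset.sum_congr rfl fun k _ => mul_comm _ _
    rw [this]
    refine (coordAlg ρ).mul_mem hp ((coordAlg ρ).sum_mem fun k _ => ?_)
    exact (coordAlg ρ).mul_mem ((coordAlg ρ).algebraMap_mem _)
      (Algebra.subset_adjoin ⟨j, ij.1, k, rfl⟩)

end defs

section dense

variable {Γ : Type*} [Group Γ] [TopologicalSpace Γ] [IsTopologicalGroup Γ] [CompactSpace Γ]
  [TotallyDisconnectedSpace Γ] {ι : Type*} {K : Type*} [NormedField K] {n : ι → ℕ}
  {ρ : ∀ j, Γ →* Matrix (Fin (n j)) (Fin (n j)) K}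

omit [CompactSpace Γ] [TotallyDisconnectedSpace Γ] in
theorem continuous_poly {j : ι} (hρ : Continuous (ρ j))
    (Pol : MvPolynomial (Fin (n j) × Fin (n j)) K) :
    Continuous fun x => MvPolynomial.eval (ent (ρ j x⁻¹)) Pol := by
  have h1 : Continuous fun x : Γ => ent (ρ j x⁻¹) := by
    refine continuous_pi fun ij => ?_
    exact (hρ.comp continuous_inv).matrix_elem ij.1 ij.2
  exact (MvPolynomial.continuous_eval Pol).comp h1

theorem isOpen_dense_poly (hconn : IsConnectedFamily ρ) {j : ι} (hρ : Continuous (ρ j))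
    (Pol : MvPolynomial (Fin (n j) × Fin (n j)) K) (g₀ : Γ)
    (hg₀ : MvPolynomial.eval (ent (ρ j g₀)) Pol ≠ 0) :
    IsOpen {x : Γ | MvPolynomial.eval (ent (ρ j x⁻¹)) Pol ≠ 0} ∧
      Dense {x : Γ | MvPolynomial.eval (ent (ρ j x⁻¹)) Pol ≠ 0} := by
  have hcont := continuous_poly hρ Pol
  refine ⟨isOpen_ne_fun hcont continuous_const, ?_⟩
  rw [dense_iff_inter_open]
  rintro V hV ⟨x₀, hx₀⟩
  by_contra hcon
  rw [not_nonempty_iff_eq_empty] at hcon
  have hzero : ∀ x ∈ V, MvPolynomial.eval (ent (ρ j x⁻¹)) Pol = 0 := by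
    intro x hx
    by_contra h
    have : x ∈ V ∩ {x : Γ | MvPolynomial.eval (ent (ρ j x⁻¹)) Pol ≠ 0} := ⟨hx, h⟩
    rw [hcon] at this
    exact this
  have hV' : IsOpen ((fun u => x₀ * u) ⁻¹' V) := hV.preimage (continuous_const_mul x₀)
  have h1V' : (1 : Γ) ∈ (fun u => x₀ * u) ⁻¹' V := by
    show x₀ * 1 ∈ V
    rwa [mul_one]
  obtain ⟨H, hH⟩ := ProfiniteGrp.exist_openNormalSubgroup_sub_open_nhds_of_one hV' h1V'
  have hf := poly_mem_coordAlg ρ j (ρ j x₀⁻¹) Pol
  have hfun := hconn H.toSubgroup H.isOpen _ hf (by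
    intro u hu
    have hu' : u⁻¹ ∈ H.toSubgroup := inv_mem hu
    have h2 := hzero (x₀ * u⁻¹) (hH hu')
    rw [mul_inv_rev, inv_inv, map_mul] at h2
    exact h2)
  have h3 := congrFun hfun (g₀ * x₀)
  simp only [Pi.zero_apply] at h3
  rw [← map_mul, mul_assoc, mul_inv_cancel, mul_one] at h3
  exact hg₀ h3

end dense

end Pool.Agent.Ord
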