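import Mathlib
import Pool.Agent.Lib.Helper95.Ord.Zariski
import Pool.Agent.Lib.Helper95.Ord.PowerSums

/-!
# Elements of a profinite group whose traces avoid a finite set
-/

open Set Topology

namespace Pool.Agent.Ord

section near

variable {Γ : Type*} [Group Γ] [TopologicalSpace Γ] [IsTopologicalGroup Γ] [CompactSpace Γ]
  [TotallyDisconnectedSpace Γ]

/-- In a profinite group every neighbourhood of `1` contains a power of a given element. -/
theorem exists_pow_mem_nhds {V : Set Γ} (hV : IsOpen V) (h1 : (1 : Γ) ∈ V) (x : Γ) :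
    ∃ m > 0, x ^ m ∈ V := by
  obtain ⟨H, hH⟩ := ProfiniteGrp.exist_openNormalSubgroup_sub_open_nhds_of_one hV h1
  have hfin : Finite (Γ ⧸ H.toSubgroup) := Subgroup.quotient_finite_of_isOpen _ H.isOpen
  have hfi : H.toSubgroup.FiniteIndex := Subgroup.finiteIndex_of_finite_quotient
  refine ⟨H.toSubgroup.index, Nat.pos_of_ne_zero hfi.index_ne_zero, hH ?_⟩
  exact Subgroup.pow_index_mem H.toSubgroup x

end near

section choice

variable {Γ : Type*} [Group Γ] [TopologicalSpace Γ] [IsTopologicalGroup Γ] [CompactSpace Γ]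
  [TotallyDisconnectedSpace Γ] [T2Space Γ] {ι : Type*} [Finite ι] {K : Type*} [NormedField K]
  [CharZero K] [IsAlgClosed K] {n : ι → ℕ} {ρ : ∀ j, Γ →* Matrix (Fin (n j)) (Fin (n j)) K}

theorem countable_roots_of_unity (K : Type*) [Field K] :
    {ζ : K | ∃ k > 0, ζ ^ k = 1}.Countable := by
  classical
  have : {ζ : K | ∃ k > 0, ζ ^ k = 1} ⊆ ⋃ k : ℕ, {ζ : K | 0 < k ∧ ζ ^ k = 1} := by
    rintro ζ ⟨k, hk, h⟩
    exact mem_iUnion.2 ⟨k, hk, h⟩
  refine Countable.mono this (countable_iUnion fun k => ?_)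
  rcases Nat.eq_zero_or_pos k with rfl | hk
  · simp
  · have hne : (Polynomial.X ^ k - 1 : Polynomial K) ≠ 0 := Polynomial.X_pow_sub_C_ne_zero hk 1
    refine Set.Finite.countable (Set.Finite.subset
      (Polynomial.X ^ k - 1 : Polynomial K).roots.toFinset.finite_toSet ?_)
    rintro ζ ⟨-, h⟩
    rw [Finset.mem_coe, Multiset.mem_toFinset, Polynomial.mem_roots hne]
    simp [h]

/-- A generic element: no ratio of products of `h` eigenvalues is a nontrivial root of unity, and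
there are two distinct eigenvalues. -/
theorem exists_generic (hρ : ∀ j, Continuous (ρ j)) (hconn : IsConnectedFamily ρ)
    (hdist : ∀ j, ∃ (g : Γ) (α : Fin (n j) → K),
      (ρ j g).charpoly = ∏ i, (Polynomial.X - Polynomial.C (α i)) ∧ ∃ i i', α i ≠ α i')
    (h : ι → ℕ) {W : Set Γ} (hW : IsOpen W) (hWne : W.Nonempty) :
    ∃ x ∈ W, ∀ j, ∀ α : Fin (n j) → K,
      (ρ j x⁻¹).charpoly = ∏ i, (Polynomial.X - Polynomial.C (α i)) →
        (∃ i i', α i ≠ α i') ∧
        ∀ A ∈ Finset.powersetCard (h j) (Finset.univ : Finset (Fin (n j))),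
          ∀ B ∈ Finset.powersetCard (h j) (Finset.univ : Finset (Fin (n j))),
            ∀ ζ : K, (∃ k > 0, ζ ^ k = 1) → ∏ i ∈ A, α i = ζ * ∏ i ∈ B, α i → ζ = 1 := by
  classical
  let Z := {ζ : K // (∃ k > 0, ζ ^ k = 1) ∧ ζ ≠ 1}
  have hZ : Countable Z := by
    have h1 := countable_roots_of_unity K
    exact (Countable.mono (fun ζ (hζ : (∃ k > 0, ζ ^ k = 1) ∧ ζ ≠ 1) => hζ.1) h1).to_subtype
  choose P₁ hP₁ using fun a : ι × Z => exists_poly_pair (n a.1) (h a.1) a.2.1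
  choose g₀ α₀ hα₀ hne₀ using hdist
  choose P₂ hP₂ hP₂' using fun j => exists_poly_distinct (ρ j (g₀ j)) (α₀ j) (hα₀ j) (hne₀ j)
  let O : (ι × Z) ⊕ ι → Set Γ := fun a => match a with
    | Sum.inl a => {x : Γ | MvPolynomial.eval (ent (ρ a.1 x⁻¹)) (P₁ a) ≠ 0}
    | Sum.inr j => {x : Γ | MvPolynomial.eval (ent (ρ j x⁻¹)) (P₂ j) ≠ 0}
  have hO : ∀ a, IsOpen (O a) ∧ Dense (O a) := by
    rintro (a | j)
    · refine isOpen_dense_poly hconn (hρ a.1) (P₁ a) 1 ?_
      have h1 : (ρ a.1 1).charpoly =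
          ∏ _i : Fin (n a.1), (Polynomial.X - Polynomial.C (1 : K)) := by
        rw [map_one, Matrix.charpoly_one]
        simp
      rw [hP₁ a _ (fun _ => 1) h1]
      refine Finset.prod_ne_zero_iff.2 fun A _ => Finset.prod_ne_zero_iff.2 fun B _ => ?_
      simp only [Finset.prod_const_one, mul_one]
      exact sub_ne_zero.2 a.2.2.2.symm
    · exact isOpen_dense_poly hconn (hρ j) (P₂ j) (g₀ j) (hP₂ j)
  have hdense : Dense (⋂ a, O a) := dense_iInter_of_isOpen (fun a => (hO a).1) fun a => (hO a).2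
  obtain ⟨x, hxW, hx⟩ := hdense.inter_open_nonempty W hW hWne
  rw [mem_iInter] at hx
  refine ⟨x, hxW, fun j α hα => ⟨?_, ?_⟩⟩
  · exact hP₂' j _ α hα (hx (Sum.inr j))
  · intro A hA B hB ζ hζ hAB
    by_contra hne
    have h1 := hx (Sum.inl (j, ⟨ζ, hζ, hne⟩))
    have h2 : MvPolynomial.eval (ent (ρ j x⁻¹)) (P₁ (j, ⟨ζ, hζ, hne⟩)) ≠ 0 := h1
    rw [hP₁ (j, ⟨ζ, hζ, hne⟩) _ α hα] at h2
    apply h2
    refine Finset.prod_eq_zero hA (Finset.prod_eq_zero hB ?_)
    rw [hAB, sub_self]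

end choice

section avoid

variable {Γ : Type*} [Group Γ] [TopologicalSpace Γ] [IsTopologicalGroup Γ] [CompactSpace Γ]
  [TotallyDisconnectedSpace Γ] [T2Space Γ] {ι : Type*} [Finite ι]

theorem norm_mul_sub_one_lt {K : Type*} [NormedField K] [IsUltrametricDist K] {a b : K} {δ : ℝ}
    (hδ : δ ≤ 1) (ha : ‖a - 1‖ < δ) (hb : ‖b - 1‖ < δ) : ‖a * b - 1‖ < δ := by
  have hb1 : ‖b‖ ≤ 1 := by
    have h1 : b = (b - 1) + 1 := by ring
    rw [h1]
    refine (IsUltrametricDist.norm_add_le_max _ _).trans (max_le (hb.le.trans hδ) ?_)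
    rw [norm_one]
  have h2 : a * b - 1 = (a - 1) * b + (b - 1) := by ring
  rw [h2]
  refine lt_of_le_of_lt (IsUltrametricDist.norm_add_le_max _ _) (max_lt ?_ hb)
  rw [norm_mul]
  calc ‖a - 1‖ * ‖b‖ ≤ ‖a - 1‖ * 1 := by gcongr
    _ < δ := by rwa [mul_one]

theorem norm_prod_sub_one_lt {K : Type*} [NormedField K] [IsUltrametricDist K] {κ : Type*}
    (s : Finset κ) (f : κ → K) {δ : ℝ} (hδ0 : 0 < δ) (hδ : δ ≤ 1) (hf : ∀ i ∈ s, ‖f i - 1‖ < δ) :
    ‖∏ i ∈ s, f i - 1‖ < δ := by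
  classical
  induction s using Finset.induction_on with
  | empty => simpa using hδ0
  | insert a s ha ih =>
    rw [Finset.prod_insert ha]
    exact norm_mul_sub_one_lt hδ (hf a (Finset.mem_insert_self _ _))
      (ih fun i hi => hf i (Finset.mem_insert_of_mem hi))

variable (ℓ : ℕ) [hℓ : Fact ℓ.Prime] {K : Type*} [NontriviallyNormedField K]
  [CharZero K] [NormedAlgebra ℚ_[ℓ] K] [CompleteSpace K] [IsUltrametricDist K] [IsAlgClosed K]
  {n : ι → ℕ} {ρ : ∀ j, Γ →* Matrix (Fin (n j)) (Fin (n j)) K}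

/-- The twisted `h`-th elementary symmetric function of the eigenvalues of `ρ (z⁻¹)`. -/
noncomputable def tw (ρ : ∀ j, Γ →* Matrix (Fin (n j)) (Fin (n j)) K) (h : ι → ℕ)
    (ψ : ι → (Γ →* K)) (j : ι) (z : Γ) : K :=
  pe (ρ j z⁻¹).charpoly (n j) (h j) * ψ j z

include ℓ in
theorem core_group (hρ : ∀ j, Continuous (ρ j)) (hconn : IsConnectedFamily ρ)
    (hdist : ∀ j, ∃ (g : Γ) (α : Fin (n j) → K),
      (ρ j g).charpoly = ∏ i, (Polynomial.X - Polynomial.C (α i)) ∧ ∃ i i', α i ≠ α i')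
    (h : ι → ℕ) (hh0 : ∀ j, 0 < h j) (hhn : ∀ j, h j < n j) (ψ : ι → (Γ →* K))
    (hψ : ∀ j, Continuous (ψ j)) (T : ι → Finset K) {W : Set Γ} (hW : IsOpen W)
    (hWne : W.Nonempty) :
    ∃ x ∈ W, ∃ e : ℕ, ∃ δ > 0, ∀ k : ℕ, ¬ ℓ ∣ k → ∀ j, ∀ t ∈ T j,
      δ ≤ ‖tw ρ h ψ j (x ^ (ℓ ^ e * k)) - t‖ := by
  classical
  have : Fintype ι := Fintype.ofFinite ι
  obtain ⟨x, hxW, hx⟩ := exists_generic hρ hconn hdist h hW hWne
  refine ⟨x, hxW, ?_⟩
  choose α hα using fun j => exists_eigenvalues (ρ j x⁻¹)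
  -- the powers
  have hpow : ∀ j k, (ρ j (x ^ k)⁻¹).charpoly =
      ∏ i, (Polynomial.X - Polynomial.C (α j i ^ k)) := by
    intro j k
    rw [← inv_pow, map_pow]
    exact charpoly_pow_eq (hα j) k
  -- closeness to `1`
  have hnear : ∀ δ > 0, ∃ m > 0, ∀ j, (∀ i, ‖α j i ^ m - 1‖ < δ) ∧ ‖ψ j x ^ m - 1‖ < δ := by
    intro δ hδ
    let V : Set Γ := {z | ∀ j, (∀ a b, ‖ρ j z⁻¹ a b - (1 : Matrix (Fin (n j)) (Fin (n j)) K) a b‖ < δ)
      ∧ ‖ψ j z - 1‖ < δ}
    have hVo : IsOpen V := by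
      have : V = ⋂ j, ((⋂ a, ⋂ b,
          {z | ‖ρ j z⁻¹ a b - (1 : Matrix (Fin (n j)) (Fin (n j)) K) a b‖ < δ}) ∩
          {z | ‖ψ j z - 1‖ < δ}) := by
        ext z
        simp [V, mem_iInter]
      rw [this]
      refine isOpen_iInter_of_finite fun j => IsOpen.inter
        (isOpen_iInter_of_finite fun a => isOpen_iInter_of_finite fun b => ?_) ?_
      · refine isOpen_lt ?_ continuous_const
        exact ((((hρ j).comp continuous_inv).matrix_elem a b).sub continuous_const).norm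
      · exact isOpen_lt ((hψ j).sub continuous_const).norm continuous_const
    have h1V : (1 : Γ) ∈ V := by
      intro j
      constructor
      · intro a b
        rw [inv_one, map_one, sub_self, norm_zero]
        exact hδ
      · rw [map_one, sub_self, norm_zero]
        exact hδ
    obtain ⟨m, hm0, hm⟩ := exists_pow_mem_nhds hVo h1V x
    refine ⟨m, hm0, fun j => ⟨fun i => ?_, ?_⟩⟩
    · apply norm_eigenvalue_sub_one_lt (hm j).1
      rw [hpow j m, Polynomial.IsRoot.def, Polynomial.eval_prod]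
      exact Finset.prod_eq_zero (Finset.mem_univ i) (by simp)
    · have := (hm j).2
      rwa [map_pow] at this
  have hα0 : ∀ j i, α j i ≠ 0 := by
    intro j i h0
    obtain ⟨m, hm0, hm⟩ := hnear 1 one_pos
    have h1 := (hm j).1 i
    rw [h0, zero_pow hm0.ne', zero_sub, norm_neg, norm_one] at h1
    exact lt_irrefl _ h1
  have hψ0 : ∀ j, ψ j x ≠ 0 := by
    intro j h0
    have h1 : ψ j x * ψ j x⁻¹ = 1 := by rw [← map_mul, mul_inv_cancel, map_one]
    rw [h0, zero_mul] at h1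
    exact zero_ne_one h1
  -- the families of products
  let J : ι → Type := fun j => {A : Finset (Fin (n j)) // A ∈ Finset.powersetCard (h j) Finset.univ}
  let γ : ∀ j, J j → K := fun j A => (∏ i ∈ A.1, α j i) * ψ j x
  have htw : ∀ j k, tw ρ h ψ j (x ^ k) = ∑ A : J j, γ j A ^ k := by
    intro j k
    rw [tw, hpow, pe_prod _ (hhn j).le, Finset.sum_mul, map_pow]
    rw [Finset.sum_subtype (p := fun A => A ∈ Finset.powersetCard (h j) Finset.univ)
      (Finset.powersetCard (h j) Finset.univ) (fun _ => Iff.rfl)]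
    refine Finset.sum_congr rfl fun A _ => ?_
    simp only [γ]
    rw [mul_pow, Finset.prod_pow]
  have hex : ∀ j, ∃ e₁ : ℕ, ∀ e ≥ e₁, ∃ δ > 0, ∀ k : ℕ, ¬ ℓ ∣ k → ∀ t ∈ T j,
      δ ≤ ‖∑ A : J j, γ j A ^ (ℓ ^ e * k) - t‖ := by
    intro j
    apply power_sums_avoid ℓ (γ j)
    · intro δ hδ
      obtain ⟨m, hm0, hm⟩ := hnear (min δ 1) (lt_min hδ one_pos)
      refine ⟨m, hm0, fun A => ?_⟩
      refine lt_of_lt_of_le ?_ (min_le_left δ 1)
      simp only [γ]
      rw [mul_pow, ← Finset.prod_pow]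
      exact norm_mul_sub_one_lt (min_le_right _ _)
        (norm_prod_sub_one_lt _ _ (lt_min hδ one_pos) (min_le_right _ _) fun i _ => (hm j).1 i)
        (hm j).2
    · intro A B k hk hAB
      simp only [γ] at hAB ⊢
      have hB0 : ∏ i ∈ B.1, α j i ≠ 0 := Finset.prod_ne_zero_iff.2 fun i _ => hα0 j i
      have h1 : (∏ i ∈ A.1, α j i) ^ k = (∏ i ∈ B.1, α j i) ^ k := by
        rw [mul_pow, mul_pow] at hAB
        exact mul_right_cancel₀ (pow_ne_zero _ (hψ0 j)) hAB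
      have h2 := (hx j (α j) (hα j)).2 A.1 A.2 B.1 B.2
        ((∏ i ∈ A.1, α j i) / ∏ i ∈ B.1, α j i)
        ⟨k, hk, by rw [div_pow, h1, div_self (pow_ne_zero _ hB0)]⟩
        (by rw [div_mul_cancel₀ _ hB0])
      rw [div_eq_one_iff_eq hB0] at h2
      rw [h2]
    · obtain ⟨i, i', hii⟩ := (hx j (α j) (hα j)).1
      have hne : i ≠ i' := fun h => hii (by rw [h])
      obtain ⟨C, hC, hCc⟩ : ∃ C ⊆ (Finset.univ.erase i).erase i', C.card = h j - 1 := by
        apply Finset.exists_subset_card_eq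
        rw [Finset.card_erase_of_mem (Finset.mem_erase.2 ⟨hne.symm, Finset.mem_univ _⟩),
          Finset.card_erase_of_mem (Finset.mem_univ _), Finset.card_univ, Fintype.card_fin]
        have := hhn j
        omega
      have hiC : i ∉ C := fun hi => by
        have := hC hi
        simp at this
      have hi'C : i' ∉ C := fun hi => by
        have := hC hi
        simp at this
      have hcard : C.card + 1 = h j := by
        have := hh0 j
        omega
      refine ⟨⟨insert i C, Finset.mem_powersetCard.2 ⟨Finset.subset_univ _, by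
        rw [Finset.card_insert_of_notMem hiC, hcard]⟩⟩,
        ⟨insert i' C, Finset.mem_powersetCard.2 ⟨Finset.subset_univ _, by
        rw [Finset.card_insert_of_notMem hi'C, hcard]⟩⟩, ?_⟩
      simp only [γ]
      rw [Finset.prod_insert hiC, Finset.prod_insert hi'C]
      intro heq
      have h3 := mul_right_cancel₀ (hψ0 j) heq
      have hC0 : ∏ i ∈ C, α j i ≠ 0 := Finset.prod_ne_zero_iff.2 fun i _ => hα0 j i
      exact hii (mul_right_cancel₀ hC0 h3)
  choose e₁ he₁ using hex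
  let e : ℕ := Finset.univ.sup e₁
  have he : ∀ j, ∃ δ > 0, ∀ k : ℕ, ¬ ℓ ∣ k → ∀ t ∈ T j,
      δ ≤ ‖∑ A : J j, γ j A ^ (ℓ ^ e * k) - t‖ := fun j =>
    he₁ j e (Finset.le_sup (f := e₁) (Finset.mem_univ j))
  choose d hd0 hd using he
  obtain ⟨δ, hδ, hle⟩ := exists_pos_forall_le Finset.univ d fun j _ => hd0 j
  refine ⟨e, δ, hδ, fun k hk j t ht => ?_⟩
  rw [htw]
  exact (hle j (Finset.mem_univ j)).trans (hd j k hk t ht)

end avoid

end Pool.Agent.Ord
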