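import Mathlib
import Pool.Agent.Lib.Helper95.Ord.Sym
import Pool.Agent.Lib.Helper95.Ord.Zariski

/-!
# Families of functions whose power sums lie in an algebra of functions
-/

open Finset

namespace Pool.Agent.Ord

section ps

variable {X K : Type*} [Field K] (𝒜 : Subalgebra K (X → K))

/-- The power sums of the functions `β j` lie in `𝒜`. -/
def IsPS {J : Type*} [Fintype J] (β : J → X → K) : Prop :=
  ∀ k : ℕ, (fun x => ∑ j, β j x ^ k) ∈ 𝒜

variable {𝒜}

theorem IsPS.esymm [CharZero K] {J : Type*} [Fintype J] {β : J → X → K} (hβ : IsPS 𝒜 β) (i : ℕ) :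
    (fun x => ∑ A ∈ powersetCard i (univ : Finset J), ∏ j ∈ A, β j x) ∈ 𝒜 := by
  classical
  induction i using Nat.strong_induction_on with
  | _ i ih =>
    rcases Nat.eq_zero_or_pos i with rfl | hi
    · have : (fun x => ∑ A ∈ powersetCard 0 (univ : Finset J), ∏ j ∈ A, β j x) =
          algebraMap K (X → K) 1 := by
        funext x
        simp
      rw [this]
      exact 𝒜.algebraMap_mem 1
    · have hi0 : (i : K) ≠ 0 := by exact_mod_cast hi.ne'
      have key : (fun x => ∑ A ∈ powersetCard i (univ : Finset J), ∏ j ∈ A, β j x) =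
          (algebraMap K (X → K) ((i : K)⁻¹ * (-1) ^ (i + 1))) *
          ∑ a ∈ (antidiagonal i).filter (fun a => a.1 < i),
            (algebraMap K (X → K) ((-1) ^ a.1)) *
            (fun x => ∑ A ∈ powersetCard a.1 (univ : Finset J), ∏ j ∈ A, β j x) *
            (fun x => ∑ j, β j x ^ a.2) := by
        funext x
        have h1 := congrArg (MvPolynomial.eval fun j => β j x)
          (MvPolynomial.mul_esymm_eq_sum J K i)
        simp only [map_mul, map_sum, map_pow, map_neg, map_one, map_natCast,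
          MvPolynomial.esymm, MvPolynomial.psum, map_prod, MvPolynomial.eval_X] at h1
        simp only [Pi.mul_apply, Finset.sum_apply, Pi.algebraMap_apply, Algebra.algebraMap_self,
          RingHom.id_apply]
        rw [mul_assoc, ← h1, ← mul_assoc, inv_mul_cancel₀ hi0, one_mul]
      rw [key]
      refine 𝒜.mul_mem (𝒜.algebraMap_mem _) (𝒜.sum_mem fun a ha => ?_)
      exact 𝒜.mul_mem (𝒜.mul_mem (𝒜.algebraMap_mem _) (ih a.1 (Finset.mem_filter.1 ha).2))
        (hβ a.2)

theorem IsPS.pow {J : Type*} [Fintype J] {β : J → X → K} (hβ : IsPS 𝒜 β) (m : ℕ) :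
    IsPS 𝒜 fun j x => β j x ^ m := by
  intro k
  simp only [← pow_mul]
  exact hβ (m * k)

/-- Products over the subsets with `i` elements. -/
theorem IsPS.subsets [CharZero K] {J : Type*} [Fintype J] {β : J → X → K} (hβ : IsPS 𝒜 β) (i : ℕ) :
    IsPS 𝒜 fun (A : {A // A ∈ powersetCard i (univ : Finset J)}) x => ∏ j ∈ A.1, β j x := by
  intro k
  have h1 := (hβ.pow k).esymm i
  have h2 : (fun x => ∑ A ∈ powersetCard i (univ : Finset J), ∏ j ∈ A, β j x ^ k) =
      fun x => ∑ A : {A // A ∈ powersetCard i (univ : Finset J)}, (∏ j ∈ A.1, β j x) ^ k := by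
    funext x
    rw [Finset.sum_subtype (p := fun A => A ∈ powersetCard i (univ : Finset J))
      (powersetCard i (univ : Finset J)) (fun _ => Iff.rfl)]
    refine Finset.sum_congr rfl fun A _ => ?_
    rw [Finset.prod_pow]
  rw [← h2]
  exact h1

/-- Products of several families. -/
theorem IsPS.pi {Λ : Type*} [Fintype Λ] [DecidableEq Λ] {J : Λ → Type*} [∀ l, Fintype (J l)]
    {β : ∀ l, J l → X → K} (hβ : ∀ l, IsPS 𝒜 (β l)) :
    IsPS 𝒜 fun (f : ∀ l, J l) x => ∏ l, β l (f l) x := by
  intro k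
  have h1 : (fun x => ∑ f : (∀ l, J l), (∏ l, β l (f l) x) ^ k) =
      ∏ l, fun x => ∑ j, β l j x ^ k := by
    funext x
    rw [Finset.prod_apply, Finset.prod_univ_sum, Fintype.piFinset_univ]
    refine Finset.sum_congr rfl fun f _ => ?_
    rw [Finset.prod_pow]
  rw [h1]
  exact 𝒜.prod_mem fun l _ => hβ l k

theorem IsPS.sub_mul {J : Type*} [Fintype J] {β : J → X → K} (hβ : IsPS 𝒜 β) (ζ : K) :
    IsPS 𝒜 fun (a : J × J) x => β a.1 x - ζ * β a.2 x := by
  intro k
  have h1 : (fun x => ∑ a : J × J, (β a.1 x - ζ * β a.2 x) ^ k) =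
      ∑ m ∈ range (k + 1), (algebraMap K (X → K) ((-ζ) ^ (k - m) * (k.choose m : K))) *
        ((fun x => ∑ j, β j x ^ m) * fun x => ∑ j, β j x ^ (k - m)) := by
    funext x
    simp only [Pi.mul_apply, Finset.sum_apply, Pi.algebraMap_apply, Algebra.algebraMap_self,
      RingHom.id_apply]
    rw [Fintype.sum_prod_type]
    have h2 : ∀ a b, (β a x - ζ * β b x) ^ k = ∑ m ∈ range (k + 1),
        ((-ζ) ^ (k - m) * (k.choose m : K)) * (β a x ^ m * β b x ^ (k - m)) := by
      intro a b
      rw [sub_eq_add_neg, add_pow]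
      refine Finset.sum_congr rfl fun m _ => ?_
      rw [← neg_mul, mul_pow]
      ring
    simp only [h2]
    rw [Finset.sum_congr rfl fun a _ => Finset.sum_comm]
    rw [Finset.sum_comm]
    refine Finset.sum_congr rfl fun m _ => ?_
    rw [Finset.sum_mul_sum, Finset.mul_sum]
    refine Finset.sum_congr rfl fun a _ => ?_
    rw [Finset.mul_sum]
  rw [h1]
  exact 𝒜.sum_mem fun m _ => 𝒜.mul_mem (𝒜.algebraMap_mem _) (𝒜.mul_mem (hβ _) (hβ _))

theorem IsPS.prod_mem [CharZero K] {J : Type*} [Fintype J] {β : J → X → K} (hβ : IsPS 𝒜 β) :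
    (fun x => ∏ j, β j x) ∈ 𝒜 := by
  have h1 := hβ.esymm (Fintype.card J)
  have h2 : powersetCard (Fintype.card J) (univ : Finset J) = {univ} := by
    have := powersetCard_self (univ : Finset J)
    rwa [card_univ] at this
  simp only [h2, sum_singleton] at h1
  exact h1

theorem IsPS.theta_mem [CharZero K] {J : Type*} [Fintype J] {β : J → X → K} (hβ : IsPS 𝒜 β)
    (ζ : K) : (fun x => ∏ a : J × J, (β a.1 x - ζ * β a.2 x)) ∈ 𝒜 :=
  (hβ.sub_mul ζ).prod_mem

end ps

section coord

variable {Γ : Type*} [Group Γ] {ι : Type*} {K : Type*} [Field K] {n : ι → ℕ}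
  {ρ : ∀ j, Γ →* Matrix (Fin (n j)) (Fin (n j)) K}

theorem entry_pow_mem (j : ι) (k : ℕ) (a b : Fin (n j)) :
    (fun x => (ρ j x ^ k) a b) ∈ coordAlg ρ := by
  induction k generalizing a b with
  | zero =>
    have : (fun x => (ρ j x ^ 0) a b) =
        algebraMap K (Γ → K) ((1 : Matrix (Fin (n j)) (Fin (n j)) K) a b) := by
      funext x
      simp
    rw [this]
    exact (coordAlg ρ).algebraMap_mem _
  | succ k ih =>
    have : (fun x => (ρ j x ^ (k + 1)) a b) =
        ∑ c, (fun x => (ρ j x ^ k) a c) * fun x => ρ j x c b := by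
      funext x
      rw [pow_succ, Matrix.mul_apply, Finset.sum_apply]
      rfl
    rw [this]
    exact (coordAlg ρ).sum_mem fun c _ => (coordAlg ρ).mul_mem (ih a c)
      (Algebra.subset_adjoin ⟨j, c, b, rfl⟩)

theorem isPS_eigenvalues [IsAlgClosed K] (j : ι) {α : Γ → Fin (n j) → K}
    (hα : ∀ x, (ρ j x).charpoly = ∏ i, (Polynomial.X - Polynomial.C (α x i))) :
    IsPS (coordAlg ρ) fun (i : Fin (n j)) x => α x i := by
  intro k
  have h1 : (fun x => ∑ i, α x i ^ k) = ∑ a, fun x => (ρ j x ^ k) a a := by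
    funext x
    rw [Finset.sum_apply]
    have h2 := charpoly_pow_eq (hα x) k
    have h3 : Matrix.trace (ρ j x ^ k) = ∑ i, α x i ^ k := by
      have h4 : ∏ i, (Polynomial.X - Polynomial.C (α x i ^ k)) =
          (((univ : Finset (Fin (n j))).val.map fun i => α x i ^ k).map
            fun a => Polynomial.X - Polynomial.C a).prod := by
        rw [Multiset.map_map]
        rfl
      rw [Matrix.trace_eq_sum_roots_charpoly, h2, h4, Polynomial.roots_multiset_prod_X_sub_C]
      rfl
    rw [← h3]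
    rfl
  rw [h1]
  exact (coordAlg ρ).sum_mem fun a _ => entry_pow_mem j k a a

theorem translate_mem {f : Γ → K} (hf : f ∈ coordAlg ρ) (x₀ : Γ) :
    (fun u => f (x₀ * u)) ∈ coordAlg ρ := by
  induction hf using Algebra.adjoin_induction with
  | mem f hf =>
    obtain ⟨j, a, b, rfl⟩ := hf
    have : (fun u => ρ j (x₀ * u) a b) =
        ∑ c, (algebraMap K (Γ → K) (ρ j x₀ a c)) * fun u => ρ j u c b := by
      funext u
      rw [map_mul, Matrix.mul_apply, Finset.sum_apply]
      rfl
    simp only [this]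
    exact (coordAlg ρ).sum_mem fun c _ => (coordAlg ρ).mul_mem ((coordAlg ρ).algebraMap_mem _)
      (Algebra.subset_adjoin ⟨j, c, b, rfl⟩)
  | algebraMap r => exact (coordAlg ρ).algebraMap_mem r
  | add f g _ _ hf hg => exact (coordAlg ρ).add_mem hf hg
  | mul f g _ _ hf hg => exact (coordAlg ρ).mul_mem hf hg

end coord

end Pool.Agent.Ord
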