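import Mathlib
import Pool.Agent.Lib.Helper95.Ord.PSum
import Pool.Agent.Lib.Helper95.Ord.Core

/-!
# Elements of a profinite group where products of symmetric functions avoid a finite set
-/

open Set Topology

namespace Pool.Agent.Ord

section dense

variable {Γ : Type*} [Group Γ] [TopologicalSpace Γ] [IsTopologicalGroup Γ] [CompactSpace Γ]
  [TotallyDisconnectedSpace Γ] {ι : Type*} {K : Type*} [NormedField K] {n : ι → ℕ}
  {ρ : ∀ j, Γ →* Matrix (Fin (n j)) (Fin (n j)) K}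

omit [IsTopologicalGroup Γ] [CompactSpace Γ] [TotallyDisconnectedSpace Γ] in
theorem continuous_coordAlg (hρ : ∀ j, Continuous (ρ j)) {f : Γ → K} (hf : f ∈ coordAlg ρ) :
    Continuous f := by
  induction hf using Algebra.adjoin_induction with
  | mem f hf =>
    obtain ⟨j, a, b, rfl⟩ := hf
    exact (hρ j).matrix_elem a b
  | algebraMap r => exact continuous_const
  | add f g _ _ hf hg => exact hf.add hg
  | mul f g _ _ hf hg => exact hf.mul hg

theorem isOpen_dense_mem (hconn : IsConnectedFamily ρ) (hρ : ∀ j, Continuous (ρ j)) {f : Γ → K}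
    (hf : f ∈ coordAlg ρ) (g₀ : Γ) (hg₀ : f g₀ ≠ 0) :
    IsOpen {x : Γ | f x⁻¹ ≠ 0} ∧ Dense {x : Γ | f x⁻¹ ≠ 0} := by
  have hcont := continuous_coordAlg hρ hf
  have hopen : IsOpen {x : Γ | f x ≠ 0} := isOpen_ne_fun hcont continuous_const
  have hdense : Dense {x : Γ | f x ≠ 0} := by
    rw [dense_iff_inter_open]
    rintro V hV ⟨x₀, hx₀⟩
    by_contra hcon
    rw [not_nonempty_iff_eq_empty] at hcon
    have hzero : ∀ x ∈ V, f x = 0 := by
      intro x hx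
      by_contra h
      have : x ∈ V ∩ {x : Γ | f x ≠ 0} := ⟨hx, h⟩
      rw [hcon] at this
      exact this
    have hV' : IsOpen ((fun u => x₀ * u) ⁻¹' V) := hV.preimage (continuous_const_mul x₀)
    have h1V' : (1 : Γ) ∈ (fun u => x₀ * u) ⁻¹' V := by
      show x₀ * 1 ∈ V
      rwa [mul_one]
    obtain ⟨H, hH⟩ := ProfiniteGrp.exist_openNormalSubgroup_sub_open_nhds_of_one hV' h1V'
    have hfun := hconn H.toSubgroup H.isOpen _ (translate_mem hf x₀) fun u hu => hzero _ (hH hu)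
    have h3 := congrFun hfun (x₀⁻¹ * g₀)
    simp only [Pi.zero_apply, mul_inv_cancel_left] at h3
    exact hg₀ h3
  refine ⟨hopen.preimage continuous_inv, ?_⟩
  exact hdense.preimage (Homeomorph.inv Γ).isOpenMap

end dense

section core

variable {Γ : Type*} [Group Γ] [TopologicalSpace Γ] [IsTopologicalGroup Γ] [CompactSpace Γ]
  [TotallyDisconnectedSpace Γ] [T2Space Γ] {ι : Type*} [Finite ι] {Λ : ι → Type*}
  [∀ j, Fintype (Λ j)] {n : ι → ℕ} {τ : Type*} [Finite τ]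

/-- The index set of the products over subsets with `h` elements. -/
abbrev Idx (Λ n : Type*) [Fintype n] (h : ℕ) : Type _ :=
  Λ → {A : Finset n // A ∈ Finset.powersetCard h (Finset.univ : Finset n)}

/-- The product over `l` of the `h t`-th elementary symmetric functions of the eigenvalues of
`ρ l (z⁻¹)`, twisted by `ψ t`. -/
noncomputable def tw₂ {K : Type*} [Field K]
    (ρ : ∀ j, Λ j → (Γ →* Matrix (Fin (n j)) (Fin (n j)) K)) (jj : τ → ι)
    (h : τ → ℕ) (ψ : τ → (Γ →* K)) (t : τ) (z : Γ) : K :=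
  (∏ l : Λ (jj t), pe (ρ (jj t) l z⁻¹).charpoly (n (jj t)) (h t)) * ψ t z

/-- The union of the families. -/
abbrev tot {K : Type*} [Field K] (ρ : ∀ j, Λ j → (Γ →* Matrix (Fin (n j)) (Fin (n j)) K)) :
    ∀ a : (Σ j, Λ j), Γ →* Matrix (Fin (n a.1)) (Fin (n a.1)) K := fun a => ρ a.1 a.2

theorem eigen_one {K : Type*} [Field K] {m : ℕ} {α : Fin m → K}
    (h : (1 : Matrix (Fin m) (Fin m) K).charpoly =
      ∏ i, (Polynomial.X - Polynomial.C (α i))) (i : Fin m) : α i = 1 := by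
  rw [Matrix.charpoly_one] at h
  have h1 := congrArg (Polynomial.eval (α i)) h
  rw [Polynomial.eval_prod, Finset.prod_eq_zero (Finset.mem_univ i) (by simp),
    Polynomial.eval_pow, Polynomial.eval_sub, Polynomial.eval_X, Polynomial.eval_one] at h1
  exact sub_eq_zero.1 ((pow_eq_zero_iff (Fintype.card_pos_iff.2 ⟨i⟩).ne').1 h1)

omit [T2Space Γ] in
theorem exists_generic₂ {K : Type*} [NormedField K] [CharZero K] [IsAlgClosed K]
    {ρ : ∀ j, Λ j → (Γ →* Matrix (Fin (n j)) (Fin (n j)) K)}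
    (hρ : ∀ j l, Continuous (ρ j l)) (hconn : IsConnectedFamily (tot ρ))
    {ld : ∀ j, Λ j}
    (hdist : ∀ j, ∃ (g : Γ) (α : Fin (n j) → K),
      (ρ j (ld j) g).charpoly = ∏ i, (Polynomial.X - Polynomial.C (α i)) ∧ ∃ i i', α i ≠ α i')
    (jj : τ → ι) (h : τ → ℕ)
    {α : ∀ a : (Σ j, Λ j), Γ → Fin (n a.1) → K}
    (hα : ∀ a x, (tot ρ a x).charpoly = ∏ i, (Polynomial.X - Polynomial.C (α a x i)))
    {W : Set Γ} (hW : IsOpen W) (hWne : W.Nonempty) :
    ∃ x ∈ W, (∀ j, ∃ i i', α ⟨j, ld j⟩ x⁻¹ i ≠ α ⟨j, ld j⟩ x⁻¹ i') ∧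
      ∀ t, ∀ f f' : Idx (Λ (jj t)) (Fin (n (jj t))) (h t), ∀ ζ : K, (∃ k > 0, ζ ^ k = 1) →
        ∏ l, ∏ i ∈ (f l).1, α ⟨jj t, l⟩ x⁻¹ i = ζ * ∏ l, ∏ i ∈ (f' l).1, α ⟨jj t, l⟩ x⁻¹ i →
          ζ = 1 := by
  classical
  let Z := {ζ : K // (∃ k > 0, ζ ^ k = 1) ∧ ζ ≠ 1}
  have hZ : Countable Z := by
    have h1 := countable_roots_of_unity K
    exact (Countable.mono (fun ζ (hζ : (∃ k > 0, ζ ^ k = 1) ∧ ζ ≠ 1) => hζ.1) h1).to_subtype
  choose g₀ α₀ hα₀ hne₀ using hdist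
  choose P₂ hP₂ hP₂' using fun j =>
    exists_poly_distinct (ρ j (ld j) (g₀ j)) (α₀ j) (hα₀ j) (hne₀ j)
  let Θ : τ × Z → Γ → K := fun a x => ∏ b : Idx (Λ (jj a.1)) (Fin (n (jj a.1))) (h a.1) ×
      Idx (Λ (jj a.1)) (Fin (n (jj a.1))) (h a.1),
    ((∏ l, ∏ i ∈ (b.1 l).1, α ⟨jj a.1, l⟩ x i) -
      a.2.1 * ∏ l, ∏ i ∈ (b.2 l).1, α ⟨jj a.1, l⟩ x i)
  have hΘ : ∀ a, Θ a ∈ coordAlg (tot ρ) := by
    intro a
    have h1 : ∀ l : Λ (jj a.1), IsPS (coordAlg (tot ρ))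
        fun (i : Fin (n (jj a.1))) x => α ⟨jj a.1, l⟩ x i := fun l =>
      isPS_eigenvalues (ρ := tot ρ) ⟨jj a.1, l⟩ (hα ⟨jj a.1, l⟩)
    exact (IsPS.pi fun l => (h1 l).subsets (h a.1)).theta_mem a.2.1
  let O : (τ × Z) ⊕ ι → Set Γ := fun a => match a with
    | Sum.inl a => {x : Γ | Θ a x⁻¹ ≠ 0}
    | Sum.inr j => {x : Γ | MvPolynomial.eval (ent (ρ j (ld j) x⁻¹)) (P₂ j) ≠ 0}
  have hO : ∀ a, IsOpen (O a) ∧ Dense (O a) := by
    rintro (a | j)
    · refine isOpen_dense_mem hconn (fun a => hρ a.1 a.2) (hΘ a) 1 ?_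
      simp only [Θ]
      refine Finset.prod_ne_zero_iff.2 fun b _ => ?_
      have h1 : ∀ l i, α ⟨jj a.1, l⟩ 1 i = 1 := by
        intro l i
        have h2 := hα ⟨jj a.1, l⟩ 1
        rw [map_one] at h2
        exact eigen_one h2 i
      simp only [h1, Finset.prod_const_one, mul_one]
      exact sub_ne_zero.2 a.2.2.2.symm
    · exact isOpen_dense_poly (ρ := tot ρ) (j := ⟨j, ld j⟩) hconn (hρ j (ld j)) (P₂ j) (g₀ j)
        (hP₂ j)
  have hdense : Dense (⋂ a, O a) := dense_iInter_of_isOpen (fun a => (hO a).1) fun a => (hO a).2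
  obtain ⟨x, hxW, hx⟩ := hdense.inter_open_nonempty W hW hWne
  rw [mem_iInter] at hx
  refine ⟨x, hxW, fun j => ?_, ?_⟩
  · exact hP₂' j _ _ (hα ⟨j, ld j⟩ x⁻¹) (hx (Sum.inr j))
  · intro t f f' ζ hζ hff
    by_contra hne
    have h1 := hx (Sum.inl (t, ⟨ζ, hζ, hne⟩))
    have h2 : Θ (t, ⟨ζ, hζ, hne⟩) x⁻¹ ≠ 0 := h1
    apply h2
    simp only [Θ]
    refine Finset.prod_eq_zero (Finset.mem_univ (f, f')) ?_
    simp only
    rw [hff, sub_self]

end core

section avoid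

variable {Γ : Type*} [Group Γ] [TopologicalSpace Γ] [IsTopologicalGroup Γ] [CompactSpace Γ]
  [TotallyDisconnectedSpace Γ] [T2Space Γ] {ι : Type*} [Finite ι] {Λ : ι → Type*}
  [∀ j, Fintype (Λ j)] {n : ι → ℕ} {τ : Type*} [Finite τ]
variable (ℓ : ℕ) [hℓ : Fact ℓ.Prime] {K : Type*} [NontriviallyNormedField K]
  [CharZero K] [NormedAlgebra ℚ_[ℓ] K] [CompleteSpace K] [IsUltrametricDist K] [IsAlgClosed K]

include ℓ in
theorem core_group₂ {ρ : ∀ j, Λ j → (Γ →* Matrix (Fin (n j)) (Fin (n j)) K)}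
    (hρ : ∀ j l, Continuous (ρ j l)) (hconn : IsConnectedFamily (tot ρ))
    {ld : ∀ j, Λ j}
    (hdist : ∀ j, ∃ (g : Γ) (α : Fin (n j) → K),
      (ρ j (ld j) g).charpoly = ∏ i, (Polynomial.X - Polynomial.C (α i)) ∧ ∃ i i', α i ≠ α i')
    (jj : τ → ι) (h : τ → ℕ) (hh0 : ∀ t, 0 < h t) (hhn : ∀ t, h t < n (jj t))
    (ψ : τ → (Γ →* K)) (hψ : ∀ t, Continuous (ψ t)) (T : τ → Finset K)
    {W : Set Γ} (hW : IsOpen W) (hWne : W.Nonempty) :
    ∃ x ∈ W, ∃ e : ℕ, ∃ δ > 0, ∀ k : ℕ, ¬ ℓ ∣ k → ∀ t, ∀ u ∈ T t,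
      δ ≤ ‖tw₂ ρ jj h ψ t (x ^ (ℓ ^ e * k)) - u‖ := by
  classical
  have : Fintype ι := Fintype.ofFinite ι
  have : Fintype τ := Fintype.ofFinite τ
  choose α hα using fun (a : Σ j, Λ j) (x : Γ) => exists_eigenvalues (tot ρ a x)
  obtain ⟨x, hxW, hxd, hx⟩ := exists_generic₂ hρ hconn hdist jj h hα hW hWne
  refine ⟨x, hxW, ?_⟩
  -- the powers
  have hpow : ∀ j l k, (ρ j l (x ^ k)⁻¹).charpoly =
      ∏ i, (Polynomial.X - Polynomial.C (α ⟨j, l⟩ x⁻¹ i ^ k)) := by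
    intro j l k
    rw [← inv_pow, map_pow]
    exact charpoly_pow_eq (hα ⟨j, l⟩ x⁻¹) k
  -- closeness to `1`
  have hnear : ∀ δ > 0, ∃ m > 0, (∀ j l i, ‖α ⟨j, l⟩ x⁻¹ i ^ m - 1‖ < δ) ∧
      ∀ t, ‖ψ t x ^ m - 1‖ < δ := by
    intro δ hδ
    let V : Set Γ := {z | (∀ j l a b,
      ‖ρ j l z⁻¹ a b - (1 : Matrix (Fin (n j)) (Fin (n j)) K) a b‖ < δ) ∧ ∀ t, ‖ψ t z - 1‖ < δ}
    have hVo : IsOpen V := by
      have : V = (⋂ j, ⋂ l, ⋂ a, ⋂ b,
          {z | ‖ρ j l z⁻¹ a b - (1 : Matrix (Fin (n j)) (Fin (n j)) K) a b‖ < δ}) ∩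
          ⋂ t, {z | ‖ψ t z - 1‖ < δ} := by
        ext z
        simp [V, mem_iInter]
      rw [this]
      refine IsOpen.inter (isOpen_iInter_of_finite fun j => isOpen_iInter_of_finite fun l =>
        isOpen_iInter_of_finite fun a => isOpen_iInter_of_finite fun b => ?_)
        (isOpen_iInter_of_finite fun t => ?_)
      · refine isOpen_lt ?_ continuous_const
        exact ((((hρ j l).comp continuous_inv).matrix_elem a b).sub continuous_const).norm
      · exact isOpen_lt ((hψ t).sub continuous_const).norm continuous_const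
    have h1V : (1 : Γ) ∈ V := by
      constructor
      · intro j l a b
        rw [inv_one, map_one, sub_self, norm_zero]
        exact hδ
      · intro t
        rw [map_one, sub_self, norm_zero]
        exact hδ
    obtain ⟨m, hm0, hm⟩ := exists_pow_mem_nhds hVo h1V x
    refine ⟨m, hm0, fun j l i => ?_, fun t => ?_⟩
    · apply norm_eigenvalue_sub_one_lt (hm.1 j l)
      rw [hpow j l m, Polynomial.IsRoot.def, Polynomial.eval_prod]
      exact Finset.prod_eq_zero (Finset.mem_univ i) (by simp)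
    · have := hm.2 t
      rwa [map_pow] at this
  have hα0 : ∀ j l i, α ⟨j, l⟩ x⁻¹ i ≠ 0 := by
    intro j l i h0
    obtain ⟨m, hm0, hm⟩ := hnear 1 one_pos
    have h1 := hm.1 j l i
    rw [h0, zero_pow hm0.ne', zero_sub, norm_neg, norm_one] at h1
    exact lt_irrefl _ h1
  have hψ0 : ∀ t, ψ t x ≠ 0 := by
    intro t h0
    have h1 : ψ t x * ψ t x⁻¹ = 1 := by rw [← map_mul, mul_inv_cancel, map_one]
    rw [h0, zero_mul] at h1
    exact zero_ne_one h1
  -- the families of products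
  let γ : ∀ t, Idx (Λ (jj t)) (Fin (n (jj t))) (h t) → K := fun t f =>
    (∏ l, ∏ i ∈ (f l).1, α ⟨jj t, l⟩ x⁻¹ i) * ψ t x
  have htw : ∀ t k, tw₂ ρ jj h ψ t (x ^ k) = ∑ f, γ t f ^ k := by
    intro t k
    rw [tw₂, map_pow]
    have h1 : ∀ l : Λ (jj t), pe (ρ (jj t) l (x ^ k)⁻¹).charpoly (n (jj t)) (h t) =
        ∑ A : {A : Finset (Fin (n (jj t))) // A ∈ Finset.powersetCard (h t) Finset.univ},
          ∏ i ∈ A.1, α ⟨jj t, l⟩ x⁻¹ i ^ k := by
      intro l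
      rw [hpow, pe_prod _ (hhn t).le, Finset.sum_subtype
        (p := fun A => A ∈ Finset.powersetCard (h t) (Finset.univ : Finset (Fin (n (jj t)))))
        (Finset.powersetCard (h t) Finset.univ) (fun _ => Iff.rfl)]
    rw [Finset.prod_congr rfl fun l _ => h1 l, Finset.prod_univ_sum, Fintype.piFinset_univ,
      Finset.sum_mul]
    refine Finset.sum_congr rfl fun f _ => ?_
    simp only [γ]
    rw [mul_pow, ← Finset.prod_pow]
    congr 1
    refine Finset.prod_congr rfl fun l _ => ?_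
    rw [Finset.prod_pow]
  have hprod0 : ∀ t (f : Idx (Λ (jj t)) (Fin (n (jj t))) (h t)),
      ∏ l, ∏ i ∈ (f l).1, α ⟨jj t, l⟩ x⁻¹ i ≠ 0 := fun t f =>
    Finset.prod_ne_zero_iff.2 fun l _ => Finset.prod_ne_zero_iff.2 fun i _ => hα0 _ l i
  have hex : ∀ t, ∃ e₁ : ℕ, ∀ e ≥ e₁, ∃ δ > 0, ∀ k : ℕ, ¬ ℓ ∣ k → ∀ u ∈ T t,
      δ ≤ ‖∑ f, γ t f ^ (ℓ ^ e * k) - u‖ := by
    intro t
    apply power_sums_avoid ℓ (γ t)
    · intro δ hδ
      obtain ⟨m, hm0, hm⟩ := hnear (min δ 1) (lt_min hδ one_pos)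
      refine ⟨m, hm0, fun f => ?_⟩
      refine lt_of_lt_of_le ?_ (min_le_left δ 1)
      simp only [γ]
      rw [mul_pow, ← Finset.prod_pow]
      refine norm_mul_sub_one_lt (min_le_right _ _)
        (norm_prod_sub_one_lt _ _ (lt_min hδ one_pos) (min_le_right _ _) fun l _ => ?_) (hm.2 t)
      rw [← Finset.prod_pow]
      exact norm_prod_sub_one_lt _ _ (lt_min hδ one_pos) (min_le_right _ _) fun i _ => hm.1 _ l i
    · intro f f' k hk hff
      simp only [γ] at hff ⊢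
      have h1 : (∏ l, ∏ i ∈ (f l).1, α ⟨jj t, l⟩ x⁻¹ i) ^ k =
          (∏ l, ∏ i ∈ (f' l).1, α ⟨jj t, l⟩ x⁻¹ i) ^ k := by
        rw [mul_pow, mul_pow] at hff
        exact mul_right_cancel₀ (pow_ne_zero _ (hψ0 t)) hff
      have h2 := hx t f f'
        ((∏ l, ∏ i ∈ (f l).1, α ⟨jj t, l⟩ x⁻¹ i) / ∏ l, ∏ i ∈ (f' l).1, α ⟨jj t, l⟩ x⁻¹ i)
        ⟨k, hk, by rw [div_pow, h1, div_self (pow_ne_zero _ (hprod0 t f'))]⟩
        (by rw [div_mul_cancel₀ _ (hprod0 t f')])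
      rw [div_eq_one_iff_eq (hprod0 t f')] at h2
      rw [h2]
    · obtain ⟨i, i', hii⟩ : ∃ i i' : Fin (n (jj t)),
          α ⟨jj t, ld (jj t)⟩ x⁻¹ i ≠ α ⟨jj t, ld (jj t)⟩ x⁻¹ i' := hxd (jj t)
      have hne : i ≠ i' := fun h => hii (by rw [h])
      obtain ⟨C, hC, hCc⟩ : ∃ C ⊆ (Finset.univ.erase i).erase i', C.card = h t - 1 := by
        apply Finset.exists_subset_card_eq
        rw [Finset.card_erase_of_mem (Finset.mem_erase.2 ⟨hne.symm, Finset.mem_univ _⟩),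
          Finset.card_erase_of_mem (Finset.mem_univ _), Finset.card_univ, Fintype.card_fin]
        have := hhn t
        omega
      have hiC : i ∉ C := fun hi => by
        have := hC hi
        simp at this
      have hi'C : i' ∉ C := fun hi => by
        have := hC hi
        simp at this
      have hcard : C.card + 1 = h t := by
        have := hh0 t
        omega
      let A₁ : {A : Finset (Fin (n (jj t))) // A ∈ Finset.powersetCard (h t) Finset.univ} :=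
        ⟨insert i C, Finset.mem_powersetCard.2 ⟨Finset.subset_univ _, by
          rw [Finset.card_insert_of_notMem hiC, hcard]⟩⟩
      let A₂ : {A : Finset (Fin (n (jj t))) // A ∈ Finset.powersetCard (h t) Finset.univ} :=
        ⟨insert i' C, Finset.mem_powersetCard.2 ⟨Finset.subset_univ _, by
          rw [Finset.card_insert_of_notMem hi'C, hcard]⟩⟩
      refine ⟨Function.update (fun _ => A₁) (ld (jj t)) A₁,
        Function.update (fun _ => A₁) (ld (jj t)) A₂, ?_⟩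
      simp only [γ]
      intro heq
      have h3 := mul_right_cancel₀ (hψ0 t) heq
      rw [← Finset.mul_prod_erase Finset.univ _ (Finset.mem_univ (ld (jj t))),
        ← Finset.mul_prod_erase Finset.univ (fun l => ∏ i ∈
          (Function.update (fun _ => A₁) (ld (jj t)) A₂ l).1, α ⟨jj t, l⟩ x⁻¹ i)
          (Finset.mem_univ (ld (jj t)))] at h3
      have h4 : ∏ l ∈ Finset.univ.erase (ld (jj t)), ∏ i ∈
          (Function.update (fun _ => A₁) (ld (jj t)) A₂ l).1, α ⟨jj t, l⟩ x⁻¹ i =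
          ∏ l ∈ Finset.univ.erase (ld (jj t)), ∏ i ∈
          (Function.update (fun _ => A₁) (ld (jj t)) A₁ l).1, α ⟨jj t, l⟩ x⁻¹ i := by
        refine Finset.prod_congr rfl fun l hl => ?_
        rw [Function.update_of_ne (Finset.ne_of_mem_erase hl),
          Function.update_of_ne (Finset.ne_of_mem_erase hl)]
      rw [h4] at h3
      have h5 : ∏ l ∈ Finset.univ.erase (ld (jj t)), ∏ i ∈
          (Function.update (fun _ => A₁) (ld (jj t)) A₁ l).1, α ⟨jj t, l⟩ x⁻¹ i ≠ 0 :=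
        Finset.prod_ne_zero_iff.2 fun l _ => Finset.prod_ne_zero_iff.2 fun i _ => hα0 _ l i
      have h6 := mul_right_cancel₀ h5 h3
      rw [Function.update_self, Function.update_self] at h6
      simp only [A₁, A₂] at h6
      rw [Finset.prod_insert hiC, Finset.prod_insert hi'C] at h6
      have hC0 : ∏ i ∈ C, α ⟨jj t, ld (jj t)⟩ x⁻¹ i ≠ 0 :=
        Finset.prod_ne_zero_iff.2 fun i _ => hα0 _ _ i
      exact hii (mul_right_cancel₀ hC0 h6)
  choose e₁ he₁ using hex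
  let e : ℕ := Finset.univ.sup e₁
  have he : ∀ t, ∃ δ > 0, ∀ k : ℕ, ¬ ℓ ∣ k → ∀ u ∈ T t,
      δ ≤ ‖∑ f, γ t f ^ (ℓ ^ e * k) - u‖ := fun t =>
    he₁ t e (Finset.le_sup (f := e₁) (Finset.mem_univ t))
  choose d hd0 hd using he
  obtain ⟨δ, hδ, hle⟩ := exists_pos_forall_le Finset.univ d fun t _ => hd0 t
  refine ⟨e, δ, hδ, fun k hk t u hu => ?_⟩
  rw [htw]
  exact (hle t (Finset.mem_univ t)).trans (hd t k hk u hu)

end avoid

end Pool.Agent.Ord
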