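import Mathlib

/-!
# Counting in finite groups, and Möbius inversion for generators of cyclic subgroups
-/

open Finset

namespace Pool.Agent.Ord

/-- Counting through a map whose fibres are the left cosets of a subgroup. -/
theorem card_fibres {G X : Type*} [Group G] [Finite G] (C : Subgroup G) (F : G → X)
    (hF : Function.Surjective F) (hfib : ∀ x x', F x = F x' ↔ x⁻¹ * x' ∈ C) (P : X → Prop) :
    Nat.card {x : G // P (F x)} = Nat.card C * Nat.card {a : X // P a} := by
  classical
  have : Fintype G := Fintype.ofFinite G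
  have hX : Finite X := Finite.of_surjective F hF
  have : Fintype X := Fintype.ofFinite X
  rw [Nat.card_eq_fintype_card, Fintype.card_subtype, Nat.card_eq_fintype_card (α := {a : X // P a}),
    Fintype.card_subtype]
  have hmaps : ∀ x ∈ univ.filter (fun x : G => P (F x)), F x ∈ univ.filter (fun a : X => P a) := by
    intro x hx
    rw [mem_filter] at hx ⊢
    exact ⟨mem_univ _, hx.2⟩
  rw [card_eq_sum_card_fiberwise hmaps]
  have hfibc : ∀ a ∈ univ.filter (fun a : X => P a),
      (((univ.filter (fun x : G => P (F x))).filter (fun x => F x = a)).card) = Nat.card C := by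
    intro a ha
    obtain ⟨x₀, rfl⟩ := hF a
    rw [mem_filter] at ha
    rw [Nat.card_eq_fintype_card, ← Finset.card_univ]
    symm
    refine card_bij (fun c _ => x₀ * c.1) ?_ ?_ ?_
    · intro c _
      rw [mem_filter, mem_filter]
      have : F (x₀ * c.1) = F x₀ := by
        rw [eq_comm, hfib, inv_mul_cancel_left]
        exact c.2
      exact ⟨⟨mem_univ _, by rw [this]; exact ha.2⟩, this⟩
    · intro c _ c' _ h
      exact Subtype.ext (mul_left_cancel h)
    · intro x hx
      rw [mem_filter] at hx
      have h1 : x₀⁻¹ * x ∈ C := (hfib x₀ x).1 hx.2.symm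
      exact ⟨⟨_, h1⟩, mem_univ _, mul_inv_cancel_left _ _⟩
  rw [sum_congr rfl hfibc, sum_const, smul_eq_mul, mul_comm]

theorem sum_moebius (m : ℕ) (hm : m ≠ 0) :
    ∑ d ∈ m.divisors, ArithmeticFunction.moebius d = if m = 1 then 1 else 0 := by
  have h := congrArg (fun f : ArithmeticFunction ℤ => f m) ArithmeticFunction.moebius_mul_coe_zeta
  simp only [ArithmeticFunction.one_apply] at h
  rw [← h, ArithmeticFunction.mul_apply, Nat.sum_divisorsAntidiagonal
    (f := fun a b => ArithmeticFunction.moebius a * ((ArithmeticFunction.zeta : ArithmeticFunction ℤ) b))]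
  refine sum_congr rfl fun d hd => ?_
  have hd' := Nat.mem_divisors.1 hd
  have : m / d ≠ 0 := by
    rw [Nat.div_ne_zero_iff]
    exact ⟨fun h0 => by simp [h0] at hd', Nat.le_of_dvd (Nat.pos_of_ne_zero hm) hd'.1⟩
  simp [this]

/-- `z` is a power of `y` with exponent coprime to the order of `y`. -/
def IsGen {G : Type*} [Group G] (y z : G) : Prop := ∃ k : ℕ, k.Coprime (orderOf y) ∧ z = y ^ k

/-- Möbius inversion over the subgroups of a cyclic group. -/
theorem sum_moebius_zpowers {G : Type*} [Group G] [Finite G] (y z : G)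
    [DecidablePred fun d : ℕ => z ∈ Subgroup.zpowers (y ^ d)] [Decidable (IsGen y z)] :
    ∑ d ∈ (orderOf y).divisors, ArithmeticFunction.moebius d *
      (if z ∈ Subgroup.zpowers (y ^ d) then (1 : ℤ) else 0) = if IsGen y z then 1 else 0 := by
  classical
  have hn : orderOf y ≠ 0 := (orderOf_pos y).ne'
  by_cases hz : z ∈ Subgroup.zpowers y
  · obtain ⟨j, rfl⟩ := (mem_powers_iff_mem_zpowers).2 hz
    simp only at *
    set n := orderOf y with hndef
    have hmem : ∀ d ∈ n.divisors, (y ^ j ∈ Subgroup.zpowers (y ^ d) ↔ d ∣ j) := by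
      intro d hd
      have hdn := (Nat.mem_divisors.1 hd).1
      constructor
      · intro h
        obtain ⟨i, hi⟩ := (mem_powers_iff_mem_zpowers).2 h
        simp only [← pow_mul] at hi
        have h1 : d * i ≡ j [MOD n] := pow_eq_pow_iff_modEq.1 hi
        have h2 : d * i ≡ j [MOD d] := h1.of_dvd hdn
        exact (Nat.modEq_zero_iff_dvd.1 (h2.symm.trans (Nat.modEq_zero_iff_dvd.2 (dvd_mul_right _ _))))
      · rintro ⟨i, rfl⟩
        rw [pow_mul]
        exact Subgroup.pow_mem _ (Subgroup.mem_zpowers _) _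
    have h1 : ∑ d ∈ n.divisors, ArithmeticFunction.moebius d *
        (if y ^ j ∈ Subgroup.zpowers (y ^ d) then (1 : ℤ) else 0) =
        ∑ d ∈ (Nat.gcd n j).divisors, ArithmeticFunction.moebius d := by
      have h2 : (Nat.gcd n j).divisors = n.divisors.filter (fun d => d ∣ j) := by
        ext d
        rw [mem_filter, Nat.mem_divisors, Nat.mem_divisors, Nat.dvd_gcd_iff]
        constructor
        · rintro ⟨⟨h3, h4⟩, -⟩
          exact ⟨⟨h3, hn⟩, h4⟩
        · rintro ⟨⟨h3, -⟩, h4⟩
          exact ⟨⟨h3, h4⟩, Nat.gcd_ne_zero_left hn⟩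
      rw [h2, sum_filter]
      refine sum_congr rfl fun d hd => ?_
      by_cases hdj : d ∣ j
      · rw [if_pos ((hmem d hd).2 hdj), if_pos hdj, mul_one]
      · rw [if_neg (fun h => hdj ((hmem d hd).1 h)), if_neg hdj, mul_zero]
    rw [h1, sum_moebius _ (Nat.gcd_ne_zero_left hn)]
    congr 1
    apply propext
    constructor
    · intro h
      exact ⟨j, (Nat.Coprime.symm h), rfl⟩
    · rintro ⟨k, hk, hkj⟩
      have h3 : j ≡ k [MOD n] := pow_eq_pow_iff_modEq.1 hkj
      have h4 := h3.gcd_eq
      rw [Nat.gcd_comm, h4]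
      exact hk
  · have h1 : ∀ d, z ∉ Subgroup.zpowers (y ^ d) := by
      intro d h
      apply hz
      have : Subgroup.zpowers (y ^ d) ≤ Subgroup.zpowers y := by
        rw [Subgroup.zpowers_le]
        exact Subgroup.pow_mem _ (Subgroup.mem_zpowers y) d
      exact this h
    have h2 : ¬ IsGen y z := by
      rintro ⟨k, -, rfl⟩
      exact hz (Subgroup.pow_mem _ (Subgroup.mem_zpowers y) k)
    rw [if_neg h2]
    refine sum_eq_zero fun d _ => ?_
    rw [if_neg (h1 d), mul_zero]

end Pool.Agent.Ord
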