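import Mathlib
import Pool.Agent.Lib.Helper90.GSem.OpenField
import Pool.Agent.Lib.Helper95.Ord.DegOne
import Pool.Agent.Lib.Helper95.Ord.PrimeSum
import Pool.Agent.Lib.Helper95.Ord.GroupCount

/-!
# Frobenius' density theorem (existence part)

Every element of a finite quotient of the absolute Galois group of `ℚ` has a power, with exponent
coprime to its order, which is the class of a Frobenius element at an arbitrarily large prime.
-/

open Set Module NumberField Filter Topology Pool.Agent.GSem Pool.Agent.Lib.H59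
open scoped Pointwise

noncomputable section

namespace Pool.Agent.Ord

variable {Ω : Type*} [Field Ω] [CharZero Ω] [IsAlgClosure ℚ Ω]

/-- Every embedding of a subfield extends to an automorphism. -/
theorem exists_extend (L : IntermediateField ℚ Ω) (σ : L →+* Ω) :
    ∃ g : Gal(Ω/ℚ), ((g : Ω ≃+* Ω) : Ω →+* Ω).comp (algebraMap L Ω) = σ := by
  have hG : IsGalois ℚ Ω := isGaloisΩ
  let σ' : L →ₐ[ℚ] Ω := σ.toRatAlgHom
  let f : Ω →ₐ[ℚ] Ω := AlgHom.liftNormal σ' Ω
  have hf : Function.Bijective f := Algebra.IsAlgebraic.algHom_bijective f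
  refine ⟨AlgEquiv.ofBijective f hf, ?_⟩
  ext x
  exact AlgHom.liftNormal_commutes σ' Ω x

omit [IsAlgClosure ℚ Ω] in
/-- A conjugate of a Frobenius element is a Frobenius element. -/
theorem isFrobAt_conj {q : ℕ} {φ : Gal(Ω/ℚ)} (hφ : IsFrobAt q φ) (g : Gal(Ω/ℚ)) :
    IsFrobAt q (g⁻¹ * φ * g) := by
  obtain ⟨Q, hQ, hqQ, hQφ⟩ := hφ
  refine ⟨g⁻¹ • Q, ?_, ?_, fun x => ?_⟩
  · infer_instance
  · rw [Ideal.mem_inv_pointwise_smul_iff]
    have : g • ((q : ℕ) : 𝓞 Ω) = q := map_natCast (MulSemiringAction.toRingHom Gal(Ω/ℚ) (𝓞 Ω) g) q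
    rw [this]
    exact hqQ
  · rw [Ideal.mem_inv_pointwise_smul_iff, smul_sub, smul_pow', ← mul_smul]
    have : g * (g⁻¹ * φ * g) = φ * g := by group
    rw [this, mul_smul]
    exact hQφ (g • x)

section

variable (N : Subgroup Gal(Ω/ℚ)) [hNn : N.Normal] (hN : IsOpen (N : Set Gal(Ω/ℚ)))

omit [IsAlgClosure ℚ Ω] in
theorem isOpen_comap (C : Subgroup (Gal(Ω/ℚ) ⧸ N)) (hN : IsOpen (N : Set Gal(Ω/ℚ))) :
    IsOpen ((C.comap (QuotientGroup.mk' N) : Subgroup Gal(Ω/ℚ)) : Set Gal(Ω/ℚ)) := by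
  refine Subgroup.isOpen_mono (H₁ := N) ?_ hN
  intro g hg
  rw [Subgroup.mem_comap, QuotientGroup.mk'_apply, (QuotientGroup.eq_one_iff g).2 hg]
  exact one_mem _

omit hNn in
theorem finite_quotient (hN : IsOpen (N : Set Gal(Ω/ℚ))) : Finite (Gal(Ω/ℚ) ⧸ N) :=
  Subgroup.quotient_finite_of_isOpen N hN

/-- The field attached to a subgroup of the quotient. -/
def fld (C : Subgroup (Gal(Ω/ℚ) ⧸ N)) : IntermediateField ℚ Ω :=
  ofOpen (C.comap (QuotientGroup.mk' N))

theorem numberField_fld (C : Subgroup (Gal(Ω/ℚ) ⧸ N)) (hN : IsOpen (N : Set Gal(Ω/ℚ))) :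
    NumberField (fld N C) := by
  have hG : IsGalois ℚ Ω := isGaloisΩ
  exact numberField_ofOpen (isOpen_comap N C hN)

theorem card_conj_mem (C : Subgroup (Gal(Ω/ℚ) ⧸ N)) (hN : IsOpen (N : Set Gal(Ω/ℚ)))
    (φ : Gal(Ω/ℚ)) :
    Nat.card {x : Gal(Ω/ℚ) ⧸ N // x⁻¹ * (φ : Gal(Ω/ℚ) ⧸ N) * x ∈ C} =
      Nat.card C *
        Nat.card {σ : fld N C →+* Ω // ((φ : Ω ≃+* Ω) : Ω →+* Ω).comp σ = σ} := by
  have hG : IsGalois ℚ Ω := isGaloisΩ
  have hfin := finite_quotient N hN
  have hU := isOpen_comap N C hN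
  let r : Gal(Ω/ℚ) → (fld N C →+* Ω) := fun g =>
    ((g : Ω ≃+* Ω) : Ω →+* Ω).comp (algebraMap (fld N C) Ω)
  have hr : ∀ g g', r g = r g' ↔ g⁻¹ * g' ∈ C.comap (QuotientGroup.mk' N) := by
    intro g g'
    constructor
    · intro h
      apply mem_of_fixes hU
      intro x hx
      have h1 := DFunLike.congr_fun h (⟨x, hx⟩ : fld N C)
      have h2 : g x = g' x := h1
      rw [AlgEquiv.mul_apply, ← h2]
      exact g.symm_apply_apply x
    · intro h
      ext x
      have h1 := fixes_of_mem h (x : Ω) x.2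
      rw [AlgEquiv.mul_apply] at h1
      have h2 : g (g⁻¹ (g' (x : Ω))) = g x := by rw [h1]
      have h3 : g (g⁻¹ (g' (x : Ω))) = g' x := g.apply_symm_apply _
      show g x = g' x
      rw [← h2, h3]
  let F : Gal(Ω/ℚ) ⧸ N → (fld N C →+* Ω) := fun x => r x.out
  have hout : ∀ x : Gal(Ω/ℚ) ⧸ N, ((x.out : Gal(Ω/ℚ)) : Gal(Ω/ℚ) ⧸ N) = x := fun x =>
    QuotientGroup.out_eq' x
  have hF : Function.Surjective F := by
    intro σ
    obtain ⟨g, hg⟩ := exists_extend (fld N C) σ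
    refine ⟨(g : Gal(Ω/ℚ) ⧸ N), ?_⟩
    rw [← hg]
    show r _ = r g
    rw [hr, Subgroup.mem_comap, QuotientGroup.mk'_apply]
    have : ((((g : Gal(Ω/ℚ) ⧸ N).out)⁻¹ * g : Gal(Ω/ℚ)) : Gal(Ω/ℚ) ⧸ N) = 1 := by
      rw [QuotientGroup.mk_mul, QuotientGroup.mk_inv, hout, inv_mul_cancel]
    rw [this]
    exact one_mem _
  have hfib : ∀ x x', F x = F x' ↔ x⁻¹ * x' ∈ C := by
    intro x x'
    show r _ = r _ ↔ _
    rw [hr, Subgroup.mem_comap, QuotientGroup.mk'_apply, QuotientGroup.mk_mul,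
      QuotientGroup.mk_inv, hout, hout]
  rw [← card_fibres C F hF hfib (fun σ => ((φ : Ω ≃+* Ω) : Ω →+* Ω).comp σ = σ)]
  refine Nat.card_congr (Equiv.subtypeEquivRight fun x => ?_)
  have h1 : ((φ : Ω ≃+* Ω) : Ω →+* Ω).comp (F x) = r (φ * x.out) := by
    ext y; rfl
  show _ ↔ ((φ : Ω ≃+* Ω) : Ω →+* Ω).comp (F x) = F x
  rw [h1, eq_comm]
  show _ ↔ r x.out = _
  rw [hr, Subgroup.mem_comap, QuotientGroup.mk'_apply, QuotientGroup.mk_mul,
      QuotientGroup.mk_inv, QuotientGroup.mk_mul, hout, mul_assoc]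

/-- **Frobenius' density theorem**, existence part: for every `y` and every open normal subgroup
`N` there are arbitrarily large primes with a Frobenius element in `y ^ k N`, `k` coprime to the
order of `y` modulo `N`. -/
theorem exists_frob_gen (hN : IsOpen (N : Set Gal(Ω/ℚ))) (y : Gal(Ω/ℚ)) (b : ℕ) :
    ∃ p : ℕ, b < p ∧ p.Prime ∧ ∃ φ : Gal(Ω/ℚ), IsFrobAt p φ ∧
      IsGen (y : Gal(Ω/ℚ) ⧸ N) (φ : Gal(Ω/ℚ) ⧸ N) := by
  classical
  by_contra hcon
  push Not at hcon
  have hfinG := finite_quotient N hN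
  have : Fintype (Gal(Ω/ℚ) ⧸ N) := Fintype.ofFinite _
  set yb : Gal(Ω/ℚ) ⧸ N := (y : Gal(Ω/ℚ) ⧸ N) with hyb
  set n := orderOf yb with hn
  let C : ℕ → Subgroup (Gal(Ω/ℚ) ⧸ N) := fun d => Subgroup.zpowers (yb ^ d)
  have hNF : ∀ d, NumberField (fld N (C d)) := fun d => numberField_fld N (C d) hN
  let D := n.divisors
  let μ : ℕ → ℤ := fun d => ArithmeticFunction.moebius d
  -- bounds
  choose bd hbd using fun d => exists_bound_degOne_eq Ω (fld N (C d))
  let B : ℕ := max b (D.sup bd)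
  -- the combination vanishes for large primes
  have hzero : ∀ p : ℕ, B < p → p.Prime →
      ∑ d ∈ D, (μ d : ℝ) * Nat.card (C d) * degOne (fld N (C d)) p = 0 := by
    intro p hp hpp
    obtain ⟨φ, hφ⟩ := exists_frob (Ω := Ω) hpp
    have h1 : ∀ d ∈ D, ((Nat.card (C d) * degOne (fld N (C d)) p : ℕ) : ℤ) =
        ∑ x : Gal(Ω/ℚ) ⧸ N, if x⁻¹ * (φ : Gal(Ω/ℚ) ⧸ N) * x ∈ C d then (1 : ℤ) else 0 := by
      intro d hd
      have hb : bd d < p := by
        have : bd d ≤ D.sup bd := Finset.le_sup hd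
        have h2 : D.sup bd ≤ B := le_max_right _ _
        omega
      rw [hbd d p hb hpp φ hφ, ← card_conj_mem N (C d) hN φ, Nat.card_eq_fintype_card,
        Fintype.card_subtype, Finset.card_filter]
      push_cast
      rfl
    have h2 : ∑ d ∈ D, μ d * ((Nat.card (C d) * degOne (fld N (C d)) p : ℕ) : ℤ) = 0 := by
      rw [Finset.sum_congr rfl fun d hd => by rw [h1 d hd, Finset.mul_sum]]
      rw [Finset.sum_comm]
      refine Finset.sum_eq_zero fun x _ => ?_
      have h3 := sum_moebius_zpowers yb (x⁻¹ * (φ : Gal(Ω/ℚ) ⧸ N) * x)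
      have h4 : ¬ IsGen yb (x⁻¹ * (φ : Gal(Ω/ℚ) ⧸ N) * x) := by
        intro h5
        obtain ⟨g, rfl⟩ := QuotientGroup.mk_surjective x
        refine hcon p (lt_of_le_of_lt (le_max_left _ _) hp) hpp (g⁻¹ * φ * g)
          (isFrobAt_conj hφ g) ?_
        rw [QuotientGroup.mk_mul, QuotientGroup.mk_mul, QuotientGroup.mk_inv]
        exact h5
      rw [if_neg h4] at h3
      exact h3
    have h3 : ((∑ d ∈ D, μ d * ((Nat.card (C d) * degOne (fld N (C d)) p : ℕ) : ℤ) : ℤ) : ℝ) = 0 := by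
      rw [h2]; simp
    rw [← h3]
    push_cast
    refine Finset.sum_congr rfl fun d _ => ?_
    ring
  -- the total weight is positive
  have hpos : (1 : ℝ) ≤ ∑ d ∈ D, (μ d : ℝ) * Nat.card (C d) := by
    have h1 : ∀ d, ((Nat.card (C d) : ℕ) : ℤ) =
        ∑ x : Gal(Ω/ℚ) ⧸ N, if x ∈ C d then (1 : ℤ) else 0 := by
      intro d
      rw [Nat.card_eq_fintype_card, ← Finset.card_univ]
      have : Fintype.card (C d) = (Finset.univ.filter fun x => x ∈ C d).card := by
        rw [← Fintype.card_subtype]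
      rw [Finset.card_univ, this, Finset.card_filter]
      push_cast
      rfl
    have h2 : (1 : ℤ) ≤ ∑ d ∈ D, μ d * ((Nat.card (C d) : ℕ) : ℤ) := by
      rw [Finset.sum_congr rfl fun d _ => by rw [h1 d, Finset.mul_sum]]
      rw [Finset.sum_comm]
      have h3 : ∀ x : Gal(Ω/ℚ) ⧸ N, ∑ d ∈ D, μ d * (if x ∈ C d then (1 : ℤ) else 0) =
          if IsGen yb x then 1 else 0 := fun x => sum_moebius_zpowers yb x
      rw [Finset.sum_congr rfl fun x _ => h3 x]
      have h4 : (if IsGen yb yb then (1 : ℤ) else 0) ≤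
          ∑ x : Gal(Ω/ℚ) ⧸ N, if IsGen yb x then (1 : ℤ) else 0 :=
        Finset.single_le_sum (f := fun x => if IsGen yb x then (1 : ℤ) else 0)
          (fun x _ => by positivity) (Finset.mem_univ yb)
      rw [if_pos ⟨1, Nat.coprime_one_left _, (pow_one _).symm⟩] at h4
      exact h4
    have h3 : ((1 : ℤ) : ℝ) ≤ ((∑ d ∈ D, μ d * ((Nat.card (C d) : ℕ) : ℤ) : ℤ) : ℝ) := by
      exact_mod_cast h2
    push_cast at h3
    exact h3
  -- the analytic part
  choose Cc hCc using fun d => psum_bounds (fld N (C d))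
  have hev : ∀ᶠ σ : ℝ in 𝓝[>] 0, ∀ d ∈ D, Summable (pterm (fld N (C d)) σ) ∧
      |psum (fld N (C d)) σ - Real.log (1 / σ)| ≤ Cc d := by
    rw [Filter.eventually_all_finset]
    intro d _
    exact hCc d
  -- upper bound for the combination
  let M : ℝ := ∑ p ∈ Finset.range (B + 1), ∑ d ∈ D, |(μ d : ℝ)| * Nat.card (C d) *
    degOne (fld N (C d)) p
  let M' : ℝ := ∑ d ∈ D, |(μ d : ℝ)| * Nat.card (C d) * |Cc d|
  have hkey : ∀ᶠ σ : ℝ in 𝓝[>] 0, Real.log (1 / σ) ≤ M + M' := by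
    have hlt : ∀ᶠ σ : ℝ in 𝓝[>] 0, σ < 1 :=
      (eventually_lt_nhds (by norm_num : (0 : ℝ) < 1)).filter_mono nhdsWithin_le_nhds
    filter_upwards [hev, hlt, self_mem_nhdsWithin] with σ hσ hσ1 hσ0
    have hσ0' : (0 : ℝ) < σ := hσ0
    have hlog0 : 0 ≤ Real.log (1 / σ) := by
      apply Real.log_nonneg
      rw [le_div_iff₀ hσ0']
      linarith
    have h1 : ∑ d ∈ D, (μ d : ℝ) * Nat.card (C d) * psum (fld N (C d)) σ ≤ M := by
      have h2 : ∑ d ∈ D, (μ d : ℝ) * Nat.card (C d) * psum (fld N (C d)) σ =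
          ∑' p, ∑ d ∈ D, (μ d : ℝ) * Nat.card (C d) * pterm (fld N (C d)) σ p := by
        rw [Summable.tsum_finsetSum (fun d hd => ((hσ d hd).1.mul_left _))]
        refine Finset.sum_congr rfl fun d _ => ?_
        rw [tsum_mul_left]
        rfl
      rw [h2]
      have h3 : ∀ p ∉ Finset.range (B + 1),
          ∑ d ∈ D, (μ d : ℝ) * Nat.card (C d) * pterm (fld N (C d)) σ p = 0 := by
        intro p hp
        rw [Finset.mem_range, not_lt] at hp
        by_cases hpp : p.Prime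
        · have h4 : ∀ d ∈ D, (μ d : ℝ) * Nat.card (C d) * pterm (fld N (C d)) σ p =
              ((μ d : ℝ) * Nat.card (C d) * degOne (fld N (C d)) p) * (p : ℝ) ^ (-(1 + σ)) := by
            intro d _
            unfold pterm
            rw [if_pos hpp]
            ring
          rw [Finset.sum_congr rfl h4, ← Finset.sum_mul, hzero p (by omega) hpp, zero_mul]
        · refine Finset.sum_eq_zero fun d _ => ?_
          unfold pterm
          rw [if_neg hpp, mul_zero]
      rw [tsum_eq_sum h3]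
      refine Finset.sum_le_sum fun p _ => Finset.sum_le_sum fun d _ => ?_
      have h5 : pterm (fld N (C d)) σ p ≤ degOne (fld N (C d)) p := by
        unfold pterm
        split_ifs with hpp
        · have h6 : (p : ℝ) ^ (-(1 + σ)) ≤ 1 := by
            apply Real.rpow_le_one_of_one_le_of_nonpos
            · exact_mod_cast hpp.one_le
            · linarith
          have h7 : (0 : ℝ) ≤ degOne (fld N (C d)) p := by positivity
          nlinarith
        · positivity
      have h8 : 0 ≤ pterm (fld N (C d)) σ p := pterm_nonneg _ _ _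
      have h9 : (0 : ℝ) ≤ Nat.card (C d) := by positivity
      calc (μ d : ℝ) * Nat.card (C d) * pterm (fld N (C d)) σ p
          ≤ |(μ d : ℝ)| * Nat.card (C d) * pterm (fld N (C d)) σ p := by
            gcongr
            exact le_abs_self _
        _ ≤ _ := by gcongr
    have h2 : (∑ d ∈ D, (μ d : ℝ) * Nat.card (C d)) * Real.log (1 / σ) - M' ≤
        ∑ d ∈ D, (μ d : ℝ) * Nat.card (C d) * psum (fld N (C d)) σ := by
      have h3 : ∀ d ∈ D, (μ d : ℝ) * Nat.card (C d) * Real.log (1 / σ) -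
          |(μ d : ℝ)| * Nat.card (C d) * |Cc d| ≤
          (μ d : ℝ) * Nat.card (C d) * psum (fld N (C d)) σ := by
        intro d hd
        have h4 := (hσ d hd).2.trans (le_abs_self _)
        have h5 : |(μ d : ℝ) * Nat.card (C d) * (psum (fld N (C d)) σ - Real.log (1 / σ))| ≤
            |(μ d : ℝ)| * Nat.card (C d) * |Cc d| := by
          rw [abs_mul, abs_mul, Nat.abs_cast]
          gcongr
        have h6 := (abs_le.1 h5).1
        have h7 : (μ d : ℝ) * Nat.card (C d) * (psum (fld N (C d)) σ - Real.log (1 / σ)) =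
          (μ d : ℝ) * Nat.card (C d) * psum (fld N (C d)) σ -
            (μ d : ℝ) * Nat.card (C d) * Real.log (1 / σ) := by ring
        linarith
      have h8 := Finset.sum_le_sum h3
      rw [Finset.sum_sub_distrib, ← Finset.sum_mul] at h8
      exact h8
    have h10 : Real.log (1 / σ) ≤ (∑ d ∈ D, (μ d : ℝ) * Nat.card (C d)) * Real.log (1 / σ) := by
      nlinarith
    linarith
  have htend : Tendsto (fun σ : ℝ => Real.log (1 / σ)) (𝓝[>] 0) atTop := by
    have h1 : Tendsto (fun σ : ℝ => 1 / σ) (𝓝[>] 0) atTop := by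
      simpa [one_div] using tendsto_inv_nhdsGT_zero (𝕜 := ℝ)
    exact Real.tendsto_log_atTop.comp h1
  have h1 := htend.eventually (eventually_gt_atTop (M + M'))
  obtain ⟨σ, hσ1, hσ2⟩ := (hkey.and h1).exists
  linarith

end

end Pool.Agent.Ord
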