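import Mathlib
import Pool.Agent.Lib.Helper90.GSem.CycChar
import Pool.Agent.Lib.Helper95.Ord.Core
import Pool.Agent.Lib.Helper95.Ord.Density

/-!
# Frobenius elements whose twisted symmetric functions avoid finite sets
-/

open Set Topology NumberField Pool.Agent.GSem

noncomputable section

namespace Pool.Agent.Ord

variable {Ω : Type*} [Field Ω] [CharZero Ω] [IsAlgClosure ℚ Ω]

/-- The power `-c` of the `ℓ`-adic cyclotomic character, with values in `ℂ_[ℓ]`. -/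
def cycTwist (ℓ : ℕ) [Fact ℓ.Prime] (Γ : Subgroup Gal(Ω/ℚ)) (c : ℕ) : Γ →* ℂ_[ℓ] :=
  ((algebraMap ℚ_[ℓ] ℂ_[ℓ]).toMonoidHom.comp (toQ (p := ℓ))).comp
    (((cyc ℓ Ω)⁻¹ ^ c).comp Γ.subtype)

omit [IsAlgClosure ℚ Ω] in
theorem continuous_cycTwist (ℓ : ℕ) [Fact ℓ.Prime]
    (Γ : Subgroup Gal(Ω/ℚ)) (c : ℕ) :
    Continuous (cycTwist ℓ Γ c) := by
  have h1 : Continuous fun z : Γ => ((cyc ℓ Ω (z : Gal(Ω/ℚ)))⁻¹ ^ c : ℤ_[ℓ]ˣ) :=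
    (((continuous_cyc ℓ Ω).comp continuous_subtype_val).inv).pow c
  have h0 : Continuous (fun x : ℤ_[ℓ] => (x : ℚ_[ℓ])) := continuous_subtype_val
  have h2 : Continuous fun u : ℤ_[ℓ]ˣ => (toQ u : ℚ_[ℓ]) := h0.comp Units.continuous_val
  exact (continuous_algebraMap ℚ_[ℓ] ℂ_[ℓ]).comp (h2.comp h1)

omit [IsAlgClosure ℚ Ω] in
theorem cycTwist_frob (ℓ : ℕ) [Fact ℓ.Prime] (Γ : Subgroup Gal(Ω/ℚ)) (c : ℕ) {p : ℕ}
    (hp : p.Prime) (hpl : p ≠ ℓ) (φ : Γ) (hφ : IsFrobAt p (φ : Gal(Ω/ℚ)))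
    [IsAlgClosed Ω] :
    cycTwist ℓ Γ c φ = ((p : ℂ_[ℓ]) ^ c)⁻¹ := by
  have h1 : cycTwist ℓ Γ c φ =
      algebraMap ℚ_[ℓ] ℂ_[ℓ] (toQ ((cyc ℓ Ω (φ : Gal(Ω/ℚ)))⁻¹ ^ c)) := rfl
  have h2 : (toQ (cyc ℓ Ω (φ : Gal(Ω/ℚ))) : ℚ_[ℓ]) = (p : ℚ_[ℓ]) := by
    have h3 := cyc_frob (p := ℓ) hp hpl hφ
    have h4 : (toQ (cyc ℓ Ω (φ : Gal(Ω/ℚ))) : ℚ_[ℓ]) =
      (((cyc ℓ Ω (φ : Gal(Ω/ℚ)) : ℤ_[ℓ]ˣ) : ℤ_[ℓ]) : ℚ_[ℓ]) := rfl
    rw [h4, h3]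
    simp
  have h5 : (toQ ((cyc ℓ Ω (φ : Gal(Ω/ℚ)))⁻¹) : ℚ_[ℓ]) = (p : ℚ_[ℓ])⁻¹ := by
    have h6 : (toQ ((cyc ℓ Ω (φ : Gal(Ω/ℚ)))⁻¹) : ℚ_[ℓ]) * toQ (cyc ℓ Ω (φ : Gal(Ω/ℚ))) = 1 := by
      rw [← map_mul, inv_mul_cancel, map_one]
    rw [h2] at h6
    exact eq_inv_of_mul_eq_one_left h6
  rw [h1, map_pow, h5, map_pow, map_inv₀, map_natCast, inv_pow]

set_option maxHeartbeats 1000000 in
theorem core_galois (ℓ : ℕ) [Fact ℓ.Prime] {Γ : Subgroup Gal(Ω/ℚ)}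
    (hΓ : IsOpen (Γ : Set Gal(Ω/ℚ))) {ι : Type*} [Finite ι] [Nonempty ι] {n : ι → ℕ}
    {ρ : ∀ j, Γ →* Matrix (Fin (n j)) (Fin (n j)) ℂ_[ℓ]}
    (hρ : ∀ j, Continuous (ρ j)) (hconn : IsConnectedFamily ρ)
    (hdist : ∀ j, ∃ (g : Γ) (α : Fin (n j) → ℂ_[ℓ]),
      (ρ j g).charpoly = ∏ i, (Polynomial.X - Polynomial.C (α i)) ∧ ∃ i i', α i ≠ α i')
    (h : ι → ℕ) (hh0 : ∀ j, 0 < h j) (hhn : ∀ j, h j < n j) (c : ι → ℕ)
    (T : ι → Finset ℂ_[ℓ]) {g : Gal(Ω/ℚ)} (hg : g ∈ Γ) {N : Subgroup Gal(Ω/ℚ)}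
    [N.Normal] (hN : IsOpen (N : Set Gal(Ω/ℚ))) {m : ℕ} (hm : ¬ ℓ ∣ m) (hgm : g ^ m ∈ N)
    (b : ℕ) :
    ∃ p : ℕ, b < p ∧ p.Prime ∧ ∃ φ : Γ, IsFrobAt p (φ : Gal(Ω/ℚ)) ∧
      (∀ j, ∀ t ∈ T j, tw ρ h (fun j => cycTwist ℓ Γ (c j)) j φ ≠ t) ∧
      ∃ k : ℕ, ((φ : Gal(Ω/ℚ)) ^ k)⁻¹ * g ∈ N := by
  classical
  have hG : IsGalois ℚ Ω := isGaloisΩ
  have hΓc : IsClosed (Γ : Set Gal(Ω/ℚ)) := Γ.isClosed_of_isOpen hΓ
  have hcomp : CompactSpace Γ := isCompact_iff_compactSpace.1 hΓc.isCompact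
  set ψ : ι → (Γ →* ℂ_[ℓ]) := fun j => cycTwist ℓ Γ (c j) with hψ
  let T' : ι → Finset ℂ_[ℓ] := fun j => insert ((((n j).choose (h j) : ℕ) : ℂ_[ℓ])) (T j)
  let W : Set Γ := {x : Γ | g⁻¹ * (x : Gal(Ω/ℚ)) ∈ N}
  have hW : IsOpen W :=
    hN.preimage ((continuous_const_mul g⁻¹).comp continuous_subtype_val)
  have hgW : (⟨g, hg⟩ : Γ) ∈ W := by
    show g⁻¹ * g ∈ N
    rw [inv_mul_cancel]
    exact one_mem N
  obtain ⟨x, hxW, e, δ, hδ, hx⟩ := core_group ℓ hρ hconn hdist h hh0 hhn ψ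
    (fun j => continuous_cycTwist ℓ Γ (c j)) T' hW ⟨_, hgW⟩
  -- value at `1`
  have htw1 : ∀ j, tw ρ h ψ j 1 = (((n j).choose (h j) : ℕ) : ℂ_[ℓ]) := by
    intro j
    have h1 : (ρ j 1).charpoly =
        ∏ _i : Fin (n j), (Polynomial.X - Polynomial.C (1 : ℂ_[ℓ])) := by
      rw [map_one, Matrix.charpoly_one]
      simp
    rw [tw, inv_one, h1, pe_prod _ (hhn j).le, map_one, mul_one]
    simp
  -- continuity
  have hcont : ∀ j, Continuous fun z => tw ρ h ψ j z := by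
    intro j
    have h1 : Continuous fun z : Γ => (ρ j z⁻¹).charpoly.coeff (n j - h j) := by
      have h2 : Continuous fun M : Matrix (Fin (n j)) (Fin (n j)) ℂ_[ℓ] =>
          M.charpoly.coeff (n j - h j) := by
        have h3 : (fun M : Matrix (Fin (n j)) (Fin (n j)) ℂ_[ℓ] =>
            M.charpoly.coeff (n j - h j)) = fun M => MvPolynomial.eval (ent M)
            ((Matrix.charpoly.univ ℂ_[ℓ] (Fin (n j))).coeff (n j - h j)) := by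
          funext M
          rw [eval_univ_coeff]
        rw [h3]
        refine (MvPolynomial.continuous_eval _).comp ?_
        exact continuous_pi fun ij => continuous_id.matrix_elem ij.1 ij.2
      exact h2.comp ((hρ j).comp continuous_inv)
    exact (continuous_const.mul h1).mul (continuous_cycTwist ℓ Γ (c j))
  -- uniformity
  let O : Set (Γ × Γ) := {a | ∀ j, ‖tw ρ h ψ j (a.1 * a.2) - tw ρ h ψ j a.1‖ < δ}
  have hO : IsOpen O := by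
    have : O = ⋂ j, {a : Γ × Γ | ‖tw ρ h ψ j (a.1 * a.2) - tw ρ h ψ j a.1‖ < δ} := by
      ext a
      simp [O, mem_iInter]
    rw [this]
    refine isOpen_iInter_of_finite fun j => ?_
    refine isOpen_lt ?_ continuous_const
    exact (((hcont j).comp (continuous_fst.mul continuous_snd)).sub
      ((hcont j).comp continuous_fst)).norm
  obtain ⟨u, V, -, hV, hu, h1V, huV⟩ := generalized_tube_lemma (isCompact_univ (X := Γ))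
    (isCompact_singleton (x := (1 : Γ))) hO (by
      rintro ⟨a, b⟩ ⟨-, hb⟩ j
      rw [mem_singleton_iff] at hb
      simp only at hb ⊢
      rw [hb, mul_one, sub_self, norm_zero]
      exact hδ)
  have hunif : ∀ z : Γ, ∀ v ∈ V, ∀ j, ‖tw ρ h ψ j (z * v) - tw ρ h ψ j z‖ < δ := by
    intro z v hv j
    have h1 : ((z, v) : Γ × Γ) ∈ O := huV (mk_mem_prod (hu (mem_univ z)) hv)
    exact h1 j
  have hV' : IsOpen ((N : Set Gal(Ω/ℚ)) ∩ (Subtype.val '' V)) :=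
    hN.inter (hΓ.isOpenMap_subtype_val V hV)
  obtain ⟨N', hN'⟩ := ProfiniteGrp.exist_openNormalSubgroup_sub_open_nhds_of_one hV'
    ⟨one_mem N, ⟨1, h1V rfl, rfl⟩⟩
  have hN'o : IsOpen (N'.toSubgroup : Set Gal(Ω/ℚ)) := N'.isOpen
  have hN'N : ∀ v ∈ N'.toSubgroup, v ∈ N := fun v hv => (hN' hv).1
  have hN'V : ∀ v ∈ N'.toSubgroup, ∃ v' ∈ V, (v' : Gal(Ω/ℚ)) = v := fun v hv => (hN' hv).2
  set y : Γ := x ^ (ℓ ^ e) with hy
  obtain ⟨p, hbp, hp, φ, hφ, k, hk, hφk⟩ :=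
    exists_frob_gen N'.toSubgroup hN'o (y : Gal(Ω/ℚ)) b
  rw [← QuotientGroup.mk_pow, eq_comm, QuotientGroup.eq] at hφk
  obtain ⟨v, hvV, hv⟩ := hN'V _ hφk
  have hφeq : φ = ((y ^ k * v : Γ) : Gal(Ω/ℚ)) := by
    rw [Subgroup.coe_mul, hv, Subgroup.coe_pow]
    group
  set o := orderOf ((y : Gal(Ω/ℚ)) : Gal(Ω/ℚ) ⧸ N'.toSubgroup) with ho
  have hyo : (y : Gal(Ω/ℚ)) ^ o ∈ N'.toSubgroup := by
    rw [← QuotientGroup.eq_one_iff, QuotientGroup.mk_pow, ho, pow_orderOf_eq_one]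
  have hℓk : ¬ ℓ ∣ k := by
    intro hdvd
    have hℓo : ¬ ℓ ∣ o := by
      intro hdvd'
      have h1 : ℓ ∣ Nat.gcd k o := Nat.dvd_gcd hdvd hdvd'
      rw [hk.gcd_eq_one] at h1
      exact (Fact.out : ℓ.Prime).one_lt.ne' (Nat.dvd_one.1 h1)
    obtain ⟨v', hv'V, hv'⟩ := hN'V _ hyo
    have hv'y : v' = x ^ (ℓ ^ e * o) := by
      apply Subtype.ext
      rw [hv', pow_mul, ← hy]
      rfl
    obtain ⟨j⟩ := (inferInstance : Nonempty ι)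
    have h1 := hunif 1 v' hv'V j
    rw [one_mul, htw1, hv'y] at h1
    have h2 := hx o hℓo j _ (Finset.mem_insert_self _ _)
    exact absurd h1 (not_lt.2 h2)
  refine ⟨p, hbp, hp, y ^ k * v, ?_, ?_, ?_⟩
  · rw [← hφeq]
    exact hφ
  · intro j t ht heq
    have h1 := hunif (y ^ k) v hvV j
    rw [heq, hy, ← pow_mul, norm_sub_rev] at h1
    exact absurd h1 (not_lt.2 (hx k hℓk j t (Finset.mem_insert_of_mem ht)))
  · -- the class in `G ⧸ N`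
    have hvN : (v : Gal(Ω/ℚ)) ∈ N := by
      rw [hv]
      exact hN'N _ hφk
    have hxg : ((x : Gal(Ω/ℚ)) : Gal(Ω/ℚ) ⧸ N) = (g : Gal(Ω/ℚ) ⧸ N) := by
      rw [eq_comm, QuotientGroup.eq]
      exact hxW
    have hfinN := finite_quotient N hN
    set gb : Gal(Ω/ℚ) ⧸ N := (g : Gal(Ω/ℚ) ⧸ N) with hgb
    have hφb : (((y ^ k * v : Γ) : Gal(Ω/ℚ)) : Gal(Ω/ℚ) ⧸ N) = gb ^ (ℓ ^ e * k) := by
      rw [Subgroup.coe_mul, QuotientGroup.mk_mul, (QuotientGroup.eq_one_iff _).2 hvN, mul_one,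
        Subgroup.coe_pow, hy, Subgroup.coe_pow, ← pow_mul, QuotientGroup.mk_pow, hxg]
    have hog : ¬ ℓ ∣ orderOf gb := by
      intro hdvd
      apply hm
      refine hdvd.trans (orderOf_dvd_of_pow_eq_one ?_)
      rw [hgb, ← QuotientGroup.mk_pow, QuotientGroup.eq_one_iff]
      exact hgm
    have hcopℓ : (ℓ ^ e).Coprime (orderOf gb) :=
      Nat.Coprime.pow_left e ((Nat.Prime.coprime_iff_not_dvd Fact.out).2 hog)
    have hcopk : k.Coprime (orderOf gb) := by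
      have h1 : orderOf (gb ^ (ℓ ^ e)) = orderOf gb := by
        rw [orderOf_pow, Nat.Coprime.gcd_eq_one hcopℓ.symm, Nat.div_one]
      rw [← h1]
      refine Nat.Coprime.coprime_dvd_right ?_ hk
      apply orderOf_dvd_of_pow_eq_one
      have h2 : ((y : Gal(Ω/ℚ)) : Gal(Ω/ℚ) ⧸ N) = gb ^ (ℓ ^ e) := by
        rw [hy, Subgroup.coe_pow, QuotientGroup.mk_pow, hxg]
      rw [← h2, ← QuotientGroup.mk_pow, QuotientGroup.eq_one_iff]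
      exact hN'N _ hyo
    obtain ⟨k', hk'⟩ := exists_pow_eq_self_of_coprime
      (Nat.Coprime.mul_left hcopℓ hcopk : (ℓ ^ e * k).Coprime (orderOf gb))
    refine ⟨k', ?_⟩
    rw [← QuotientGroup.eq, QuotientGroup.mk_pow, hφb, hk']

end Pool.Agent.Ord
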