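import Mathlib
import Pool.Agent.Lib.Helper95.Ord.Core2
import Pool.Agent.Lib.Helper95.Ord.Galois

/-!
# Frobenius elements whose twisted symmetric functions avoid finite sets, several families
-/

open Set Topology NumberField Pool.Agent.GSem

noncomputable section

namespace Pool.Agent.Ord

variable {Ω : Type*} [Field Ω] [CharZero Ω] [IsAlgClosure ℚ Ω]

theorem continuous_charpoly_coeff {K : Type*} [NormedField K] {n : ℕ} (k : ℕ) :
    Continuous fun M : Matrix (Fin n) (Fin n) K => M.charpoly.coeff k := by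
  have h3 : (fun M : Matrix (Fin n) (Fin n) K =>
      M.charpoly.coeff k) = fun M => MvPolynomial.eval (ent M)
      ((Matrix.charpoly.univ K (Fin n)).coeff k) := by
    funext M
    rw [eval_univ_coeff]
  rw [h3]
  refine (MvPolynomial.continuous_eval _).comp ?_
  exact continuous_pi fun ij => continuous_id.matrix_elem ij.1 ij.2

set_option maxHeartbeats 1000000 in
theorem core_galois₂ (ℓ : ℕ) [Fact ℓ.Prime] {Γ : Subgroup Gal(Ω/ℚ)}
    (hΓ : IsOpen (Γ : Set Gal(Ω/ℚ))) {ι : Type*} [Finite ι] {Λ : ι → Type*}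
    [∀ j, Fintype (Λ j)] {n : ι → ℕ} {τ : Type*} [Finite τ]
    {ρ : ∀ j, Λ j → (Γ →* Matrix (Fin (n j)) (Fin (n j)) ℂ_[ℓ])}
    (hρ : ∀ j l, Continuous (ρ j l)) (hconn : IsConnectedFamily (tot ρ))
    {ld : ∀ j, Λ j}
    (hdist : ∀ j, ∃ (g : Γ) (α : Fin (n j) → ℂ_[ℓ]),
      (ρ j (ld j) g).charpoly = ∏ i, (Polynomial.X - Polynomial.C (α i)) ∧ ∃ i i', α i ≠ α i')
    (jj : τ → ι) (h : τ → ℕ) (hh0 : ∀ t, 0 < h t) (hhn : ∀ t, h t < n (jj t)) (c : τ → ℕ)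
    (T : τ → Finset ℂ_[ℓ]) {g : Gal(Ω/ℚ)} (hg : g ∈ Γ) {N : Subgroup Gal(Ω/ℚ)}
    [N.Normal] (hN : IsOpen (N : Set Gal(Ω/ℚ))) {m : ℕ} (hm : ¬ ℓ ∣ m) (hgm : g ^ m ∈ N)
    (b : ℕ) :
    ∃ p : ℕ, b < p ∧ p.Prime ∧ ∃ φ : Γ, IsFrobAt p (φ : Gal(Ω/ℚ)) ∧
      (∀ t, ∀ u ∈ T t, tw₂ ρ jj h (fun t => cycTwist ℓ Γ (c t)) t φ ≠ u) ∧
      ∃ k : ℕ, ((φ : Gal(Ω/ℚ)) ^ k)⁻¹ * g ∈ N := by
  classical
  have hG : IsGalois ℚ Ω := isGaloisΩ
  have hΓc : IsClosed (Γ : Set Gal(Ω/ℚ)) := Γ.isClosed_of_isOpen hΓ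
  have hcomp : CompactSpace Γ := isCompact_iff_compactSpace.1 hΓc.isCompact
  set ψ : τ → (Γ →* ℂ_[ℓ]) := fun t => cycTwist ℓ Γ (c t) with hψ
  let T' : τ → Finset ℂ_[ℓ] := fun t =>
    insert (((((n (jj t)).choose (h t)) ^ Fintype.card (Λ (jj t)) : ℕ) : ℂ_[ℓ])) (T t)
  let W : Set Γ := {x : Γ | g⁻¹ * (x : Gal(Ω/ℚ)) ∈ N}
  have hW : IsOpen W :=
    hN.preimage ((continuous_const_mul g⁻¹).comp continuous_subtype_val)
  have hgW : (⟨g, hg⟩ : Γ) ∈ W := by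
    show g⁻¹ * g ∈ N
    rw [inv_mul_cancel]
    exact one_mem N
  obtain ⟨x, hxW, e, δ, hδ, hx⟩ := core_group₂ ℓ hρ hconn hdist jj h hh0 hhn ψ
    (fun t => continuous_cycTwist ℓ Γ (c t)) T' hW ⟨_, hgW⟩
  -- value at `1`
  have htw1 : ∀ t, tw₂ ρ jj h ψ t 1 =
      ((((n (jj t)).choose (h t)) ^ Fintype.card (Λ (jj t)) : ℕ) : ℂ_[ℓ]) := by
    intro t
    have h1 : ∀ l, (ρ (jj t) l 1⁻¹).charpoly =
        ∏ _i : Fin (n (jj t)), (Polynomial.X - Polynomial.C (1 : ℂ_[ℓ])) := by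
      intro l
      rw [inv_one, map_one, Matrix.charpoly_one]
      simp
    rw [tw₂, Finset.prod_congr rfl fun l _ => by rw [h1 l, pe_prod _ (hhn t).le], map_one, mul_one]
    simp
  -- continuity
  have hcont : ∀ t, Continuous fun z => tw₂ ρ jj h ψ t z := by
    intro t
    refine Continuous.mul ?_ (continuous_cycTwist ℓ Γ (c t))
    refine continuous_finsetProd _ fun l _ => ?_
    exact continuous_const.mul
      ((continuous_charpoly_coeff _).comp ((hρ (jj t) l).comp continuous_inv))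
  -- uniformity
  let O : Set (Γ × Γ) := {a | ∀ t, ‖tw₂ ρ jj h ψ t (a.1 * a.2) - tw₂ ρ jj h ψ t a.1‖ < δ}
  have hO : IsOpen O := by
    have : O = ⋂ t, {a : Γ × Γ | ‖tw₂ ρ jj h ψ t (a.1 * a.2) - tw₂ ρ jj h ψ t a.1‖ < δ} := by
      ext a
      simp [O, mem_iInter]
    rw [this]
    refine isOpen_iInter_of_finite fun t => ?_
    refine isOpen_lt ?_ continuous_const
    exact (((hcont t).comp (continuous_fst.mul continuous_snd)).sub
      ((hcont t).comp continuous_fst)).norm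
  obtain ⟨u, V, -, hV, hu, h1V, huV⟩ := generalized_tube_lemma (isCompact_univ (X := Γ))
    (isCompact_singleton (x := (1 : Γ))) hO (by
      rintro ⟨a, b⟩ ⟨-, hb⟩ t
      rw [mem_singleton_iff] at hb
      simp only at hb ⊢
      rw [hb, mul_one, sub_self, norm_zero]
      exact hδ)
  have hunif : ∀ z : Γ, ∀ v ∈ V, ∀ t, ‖tw₂ ρ jj h ψ t (z * v) - tw₂ ρ jj h ψ t z‖ < δ := by
    intro z v hv t
    have h1 : ((z, v) : Γ × Γ) ∈ O := huV (mk_mem_prod (hu (mem_univ z)) hv)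
    exact h1 t
  have hV' : IsOpen ((N : Set Gal(Ω/ℚ)) ∩ (Subtype.val '' V)) :=
    hN.inter (hΓ.isOpenMap_subtype_val V hV)
  obtain ⟨N', hN'⟩ := ProfiniteGrp.exist_openNormalSubgroup_sub_open_nhds_of_one hV'
    ⟨one_mem N, ⟨1, h1V rfl, rfl⟩⟩
  have hN'o : IsOpen (N'.toSubgroup : Set Gal(Ω/ℚ)) := N'.isOpen
  have hN'N : ∀ v ∈ N'.toSubgroup, v ∈ N := fun v hv => (hN' hv).1
  have hN'V : ∀ v ∈ N'.toSubgroup, ∃ v' ∈ V, (v' : Gal(Ω/ℚ)) = v := fun v hv => (hN' hv).2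
  set y : Γ := x ^ (ℓ ^ e) with hy
  obtain ⟨p, hbp, hp, φ, hφ, k, hk, hφk⟩ :=
    exists_frob_gen N'.toSubgroup hN'o (y : Gal(Ω/ℚ)) b
  rw [← QuotientGroup.mk_pow, eq_comm, QuotientGroup.eq] at hφk
  obtain ⟨v, hvV, hv⟩ := hN'V _ hφk
  have hφeq : φ = ((y ^ k * v : Γ) : Gal(Ω/ℚ)) := by
    rw [Subgroup.coe_mul, hv, Subgroup.coe_pow]
    group
  set o := orderOf ((y : Gal(Ω/ℚ)) : Gal(Ω/ℚ) ⧸ N'.toSubgroup) with ho
  have hyo : (y : Gal(Ω/ℚ)) ^ o ∈ N'.toSubgroup := by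
    rw [← QuotientGroup.eq_one_iff, QuotientGroup.mk_pow, ho, pow_orderOf_eq_one]
  refine ⟨p, hbp, hp, y ^ k * v, ?_, ?_, ?_⟩
  · rw [← hφeq]
    exact hφ
  · intro t u hu heq
    have hℓk : ¬ ℓ ∣ k := by
      intro hdvd
      have hℓo : ¬ ℓ ∣ o := by
        intro hdvd'
        have h1 : ℓ ∣ Nat.gcd k o := Nat.dvd_gcd hdvd hdvd'
        rw [hk.gcd_eq_one] at h1
        exact (Fact.out : ℓ.Prime).one_lt.ne' (Nat.dvd_one.1 h1)
      obtain ⟨v', hv'V, hv'⟩ := hN'V _ hyo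
      have hv'y : v' = x ^ (ℓ ^ e * o) := by
        apply Subtype.ext
        rw [hv', pow_mul, ← hy]
        rfl
      have h1 := hunif 1 v' hv'V t
      rw [one_mul, htw1, hv'y] at h1
      have h2 := hx o hℓo t _ (Finset.mem_insert_self _ _)
      exact absurd h1 (not_lt.2 h2)
    have h1 := hunif (y ^ k) v hvV t
    rw [heq, hy, ← pow_mul, norm_sub_rev] at h1
    exact absurd h1 (not_lt.2 (hx k hℓk t u (Finset.mem_insert_of_mem hu)))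
  · -- the class in `G ⧸ N`
    have hvN : (v : Gal(Ω/ℚ)) ∈ N := by
      rw [hv]
      exact hN'N _ hφk
    have hxg : ((x : Gal(Ω/ℚ)) : Gal(Ω/ℚ) ⧸ N) = (g : Gal(Ω/ℚ) ⧸ N) := by
      rw [eq_comm, QuotientGroup.eq]
      exact hxW
    have hfinN := finite_quotient N hN
    set gb : Gal(Ω/ℚ) ⧸ N := (g : Gal(Ω/ℚ) ⧸ N) with hgb
    have hφb : (((y ^ k * v : Γ) : Gal(Ω/ℚ)) : Gal(Ω/ℚ) ⧸ N) = gb ^ (ℓ ^ e * k) := by
      rw [Subgroup.coe_mul, QuotientGroup.mk_mul, (QuotientGroup.eq_one_iff _).2 hvN, mul_one,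
        Subgroup.coe_pow, hy, Subgroup.coe_pow, ← pow_mul, QuotientGroup.mk_pow, hxg]
    have hog : ¬ ℓ ∣ orderOf gb := by
      intro hdvd
      apply hm
      refine hdvd.trans (orderOf_dvd_of_pow_eq_one ?_)
      rw [hgb, ← QuotientGroup.mk_pow, QuotientGroup.eq_one_iff]
      exact hgm
    have hcopℓ : (ℓ ^ e).Coprime (orderOf gb) :=
      Nat.Coprime.pow_left e ((Nat.Prime.coprime_iff_not_dvd Fact.out).2 hog)
    have hcopk : k.Coprime (orderOf gb) := by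
      have h1 : orderOf (gb ^ (ℓ ^ e)) = orderOf gb := by
        rw [orderOf_pow, Nat.Coprime.gcd_eq_one hcopℓ.symm, Nat.div_one]
      rw [← h1]
      refine Nat.Coprime.coprime_dvd_right ?_ hk
      apply orderOf_dvd_of_pow_eq_one
      have h2 : ((y : Gal(Ω/ℚ)) : Gal(Ω/ℚ) ⧸ N) = gb ^ (ℓ ^ e) := by
        rw [hy, Subgroup.coe_pow, QuotientGroup.mk_pow, hxg]
      rw [← h2, ← QuotientGroup.mk_pow, QuotientGroup.eq_one_iff]
      exact hN'N _ hyo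
    obtain ⟨k', hk'⟩ := exists_pow_eq_self_of_coprime
      (Nat.Coprime.mul_left hcopℓ hcopk : (ℓ ^ e * k).Coprime (orderOf gb))
    refine ⟨k', ?_⟩
    rw [← QuotientGroup.eq, QuotientGroup.mk_pow, hφb, hk']

end Pool.Agent.Ord
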