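import Mathlib
import Pool.Agent.Lib.Helper95.Ord.Sym

/-!
# Newton polygons touching a convex polygon at its vertices
-/

open Finset

namespace Pool.Agent.Ord

section prods

variable {α : Type*} [DecidableEq α]

theorem prod_lt_prod_of_not_subset {u : α → ℝ} (h0 : ∀ i, 0 ≤ u i) {S A : Finset α}
    (hS : ∀ i ∈ S, 1 ≤ u i) (hS' : ∀ i ∉ S, u i < 1) (hA : ¬ A ⊆ S) :
    ∏ i ∈ A, u i < ∏ i ∈ S, u i := by
  obtain ⟨i₀, hi₀, hi₀S⟩ := Finset.not_subset.1 hA
  have h1 : ∏ i ∈ A, u i = (∏ i ∈ A ∩ S, u i) * ∏ i ∈ A \ S, u i := by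
    rw [Finset.prod_inter_mul_prod_sdiff]
  have h2 : ∏ i ∈ S, u i = (∏ i ∈ S ∩ A, u i) * ∏ i ∈ S \ A, u i := by
    rw [Finset.prod_inter_mul_prod_sdiff]
  have hpos : 0 < ∏ i ∈ A ∩ S, u i :=
    Finset.prod_pos fun i hi => lt_of_lt_of_le one_pos (hS i (Finset.mem_inter.1 hi).2)
  have h3 : ∏ i ∈ A \ S, u i < 1 := by
    rw [← Finset.prod_erase_mul _ _ (Finset.mem_sdiff.2 ⟨hi₀, hi₀S⟩)]
    have h4 : ∏ i ∈ (A \ S).erase i₀, u i ≤ 1 :=
      Finset.prod_le_one (fun i _ => h0 i) fun i hi =>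
        (hS' i (Finset.mem_sdiff.1 (Finset.mem_of_mem_erase hi)).2).le
    calc (∏ i ∈ (A \ S).erase i₀, u i) * u i₀ ≤ 1 * u i₀ := by
          gcongr
          exact h0 i₀
      _ < 1 := by rw [one_mul]; exact hS' i₀ hi₀S
  have h5 : 1 ≤ ∏ i ∈ S \ A, u i := by
    have := Finset.prod_le_prod (s := S \ A) (f := fun _ => (1 : ℝ)) (g := u)
      (fun _ _ => zero_le_one) (fun i hi => hS i (Finset.mem_sdiff.1 hi).1)
    simpa using this
  rw [h1, h2, Finset.inter_comm S A]
  calc (∏ i ∈ A ∩ S, u i) * ∏ i ∈ A \ S, u i < (∏ i ∈ A ∩ S, u i) * 1 := by gcongr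
    _ ≤ (∏ i ∈ A ∩ S, u i) * ∏ i ∈ S \ A, u i := by gcongr

theorem prod_lt_prod_of_not_superset {u : α → ℝ} (h0 : ∀ i, 0 ≤ u i) {S A : Finset α}
    (hS : ∀ i ∈ S, 1 < u i) (hS' : ∀ i ∉ S, u i ≤ 1) (hA : ¬ S ⊆ A) :
    ∏ i ∈ A, u i < ∏ i ∈ S, u i := by
  obtain ⟨i₀, hi₀, hi₀A⟩ := Finset.not_subset.1 hA
  have h1 : ∏ i ∈ A, u i = (∏ i ∈ A ∩ S, u i) * ∏ i ∈ A \ S, u i := by
    rw [Finset.prod_inter_mul_prod_sdiff]
  have h2 : ∏ i ∈ S, u i = (∏ i ∈ S ∩ A, u i) * ∏ i ∈ S \ A, u i := by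
    rw [Finset.prod_inter_mul_prod_sdiff]
  have hpos : 0 < ∏ i ∈ A ∩ S, u i :=
    Finset.prod_pos fun i hi => lt_trans one_pos (hS i (Finset.mem_inter.1 hi).2)
  have h3 : ∏ i ∈ A \ S, u i ≤ 1 :=
    Finset.prod_le_one (fun i _ => h0 i) fun i hi => hS' i (Finset.mem_sdiff.1 hi).2
  have h5 : 1 < ∏ i ∈ S \ A, u i := by
    rw [← Finset.prod_erase_mul _ _ (Finset.mem_sdiff.2 ⟨hi₀, hi₀A⟩)]
    have h4 : 1 ≤ ∏ i ∈ (S \ A).erase i₀, u i := by
      have := Finset.prod_le_prod (s := (S \ A).erase i₀) (f := fun _ => (1 : ℝ)) (g := u)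
        (fun _ _ => zero_le_one)
        (fun i hi => (hS i (Finset.mem_sdiff.1 (Finset.mem_of_mem_erase hi)).1).le)
      simpa using this
    calc (1 : ℝ) < u i₀ := hS i₀ hi₀
      _ = 1 * u i₀ := (one_mul _).symm
      _ ≤ (∏ i ∈ (S \ A).erase i₀, u i) * u i₀ := by
        gcongr
        exact h0 i₀
  rw [h1, h2, Finset.inter_comm S A]
  calc (∏ i ∈ A ∩ S, u i) * ∏ i ∈ A \ S, u i ≤ (∏ i ∈ A ∩ S, u i) * 1 := by gcongr
    _ < (∏ i ∈ A ∩ S, u i) * ∏ i ∈ S \ A, u i := by gcongr

end prods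

/-- The polygon with slopes `s`. -/
def HP {n : ℕ} (s : Fin n → ℕ) (i : ℕ) : ℕ := ∑ k with (k : Fin n).val < i, s k

section count

variable {n : ℕ} {s : Fin n → ℕ}

/-- The number of slopes which are at most `t`. -/
def cnt (s : Fin n → ℕ) (t : ℕ) : ℕ := (Finset.univ.filter fun k => s k ≤ t).card

theorem cnt_le (s : Fin n → ℕ) (t : ℕ) : cnt s t ≤ n := by
  unfold cnt
  refine (Finset.card_le_univ _).trans ?_
  simp

theorem le_iff_lt_cnt (hs : Monotone s) (t : ℕ) (k : Fin n) : s k ≤ t ↔ k.val < cnt s t := by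
  constructor
  · intro h
    have h1 : Finset.Iic k ⊆ Finset.univ.filter fun k => s k ≤ t := by
      intro k' hk'
      rw [Finset.mem_filter]
      exact ⟨Finset.mem_univ _, (hs (Finset.mem_Iic.1 hk')).trans h⟩
    have h2 := Finset.card_le_card h1
    rw [Fin.card_Iic] at h2
    exact h2
  · intro h
    by_contra hlt
    rw [not_le] at hlt
    have h1 : (Finset.univ.filter fun k => s k ≤ t) ⊆ Finset.Iio k := by
      intro k' hk'
      rw [Finset.mem_filter] at hk'
      rw [Finset.mem_Iio]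
      by_contra hle
      rw [not_lt] at hle
      exact absurd (hs hle) (not_le.2 (lt_of_le_of_lt hk'.2 hlt))
    have h2 := Finset.card_le_card h1
    rw [Fin.card_Iio] at h2
    exact absurd h (not_lt.2 h2)

theorem HP_mono (s : Fin n → ℕ) {i j : ℕ} (hij : i ≤ j) :
    HP s j = HP s i + ∑ k with i ≤ (k : Fin n).val ∧ k.val < j, s k := by
  unfold HP
  rw [← Finset.sum_union]
  · congr 1
    ext k
    simp only [Finset.mem_filter, Finset.mem_univ, true_and, Finset.mem_union]
    omega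
  · rw [Finset.disjoint_filter]
    intro k _ h1 h2
    omega

theorem card_between {i j : ℕ} (hij : i ≤ j) (hj : j ≤ n) :
    (Finset.univ.filter fun k : Fin n => i ≤ k.val ∧ k.val < j).card = j - i := by
  have h1 : (Finset.univ.filter fun k : Fin n => i ≤ k.val ∧ k.val < j).card =
      (Finset.Ico i j).card := by
    apply Finset.card_bij (fun k _ => k.val)
    · intro k hk
      rw [Finset.mem_filter] at hk
      exact Finset.mem_Ico.2 hk.2
    · intro a _ b _ h
      exact Fin.ext h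
    · intro b hb
      rw [Finset.mem_Ico] at hb
      exact ⟨⟨b, by omega⟩, by simp [hb.1, hb.2], rfl⟩
  rw [h1, Nat.card_Ico]

theorem HP_cnt_le (hs : Monotone s) (t : ℕ) {b : ℕ} (hb : b ≤ cnt s t) :
    HP s (cnt s t) ≤ HP s b + t * (cnt s t - b) := by
  rw [HP_mono s hb]
  have h1 : ∑ k with b ≤ (k : Fin n).val ∧ k.val < cnt s t, s k ≤
      ∑ _k : Fin n with b ≤ (_k : Fin n).val ∧ _k.val < cnt s t, t := by
    refine Finset.sum_le_sum fun k hk => ?_
    rw [Finset.mem_filter] at hk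
    exact (le_iff_lt_cnt hs t k).2 hk.2.2
  rw [Finset.sum_const, card_between hb (cnt_le s t), smul_eq_mul, mul_comm] at h1
  omega

theorem le_HP_cnt (hs : Monotone s) (t : ℕ) {a : ℕ} (ha : cnt s t ≤ a) (han : a ≤ n) :
    HP s (cnt s t) + (t + 1) * (a - cnt s t) ≤ HP s a := by
  rw [HP_mono s ha]
  have h1 : ∑ _k : Fin n with cnt s t ≤ (_k : Fin n).val ∧ _k.val < a, (t + 1) ≤
      ∑ k with cnt s t ≤ (k : Fin n).val ∧ k.val < a, s k := by
    refine Finset.sum_le_sum fun k hk => ?_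
    rw [Finset.mem_filter] at hk
    by_contra h
    have h2 := (le_iff_lt_cnt hs t k).1 (by omega)
    omega
  rw [Finset.sum_const, card_between ha han, smul_eq_mul, mul_comm] at h1
  omega

end count

section newton

variable {L : Type*} [NormedField L] [IsUltrametricDist L] {n : ℕ}

theorem norm_sum_lt {κ : Type*} (T : Finset κ) (f : κ → L) {C : ℝ} (hC : 0 < C)
    (h : ∀ i ∈ T, ‖f i‖ < C) : ‖∑ i ∈ T, f i‖ < C := by
  classical
  induction T using Finset.induction_on with
  | empty => simpa using hC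
  | insert a T ha ih =>
    rw [Finset.sum_insert ha]
    exact lt_of_le_of_lt (IsUltrametricDist.norm_add_le_max _ _)
      (max_lt (h a (Finset.mem_insert_self _ _))
        (ih fun i hi => h i (Finset.mem_insert_of_mem hi)))

/-- The elementary symmetric function of degree the number of roots of norm at least `r`. -/
theorem norm_esymm_eq (a : Fin n → L) {r : ℝ} (hr : 0 < r) (S : Finset (Fin n))
    (hS : ∀ i ∈ S, r ≤ ‖a i‖) (hS' : ∀ i ∉ S, ‖a i‖ < r) :
    ‖∑ A ∈ Finset.powersetCard S.card Finset.univ, ∏ i ∈ A, a i‖ = ∏ i ∈ S, ‖a i‖ := by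
  classical
  have hmem : S ∈ Finset.powersetCard S.card (Finset.univ : Finset (Fin n)) :=
    Finset.mem_powersetCard.2 ⟨Finset.subset_univ _, rfl⟩
  have hpos : 0 < ∏ i ∈ S, ‖a i‖ := Finset.prod_pos fun i hi => hr.trans_le (hS i hi)
  have hlt : ‖∑ A ∈ (Finset.powersetCard S.card Finset.univ).erase S, ∏ i ∈ A, a i‖ <
      ∏ i ∈ S, ‖a i‖ := by
    refine norm_sum_lt _ _ hpos fun A hA => ?_
    rw [Finset.mem_erase, Finset.mem_powersetCard] at hA
    rw [norm_prod]
    have hns : ¬ A ⊆ S := fun hsub => hA.1 (Finset.eq_of_subset_of_card_le hsub hA.2.2.ge)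
    have h1 := prod_lt_prod_of_not_subset (u := fun i => ‖a i‖ / r)
      (fun i => div_nonneg (norm_nonneg _) hr.le) (S := S) (A := A)
      (fun i hi => (one_le_div hr).2 (hS i hi)) (fun i hi => (div_lt_one hr).2 (hS' i hi)) hns
    simp only [Finset.prod_div_distrib, Finset.prod_const, hA.2.2] at h1
    exact (div_lt_div_iff_of_pos_right (pow_pos hr _)).1 h1
  rw [← Finset.add_sum_erase _ _ hmem, ← norm_prod]
  rw [← norm_prod] at hlt
  rw [IsUltrametricDist.norm_add_eq_max_of_norm_ne_norm hlt.ne', max_eq_left hlt.le]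

theorem cnt_le_card_ge {a : Fin n → L} {q : ℝ} (hq0 : 0 < q) (hq1 : q < 1) {s : Fin n → ℕ}
    (hs : Monotone s)
    (hle : ∀ i ≤ n, ‖∑ A ∈ Finset.powersetCard i Finset.univ, ∏ j ∈ A, a j‖ ≤ q ^ HP s i)
    (t : ℕ)
    (heq : ‖∑ A ∈ Finset.powersetCard (cnt s t) Finset.univ, ∏ j ∈ A, a j‖ =
      q ^ HP s (cnt s t)) :
    cnt s t ≤ (Finset.univ.filter fun i => q ^ t ≤ ‖a i‖).card := by
  classical
  set S := Finset.univ.filter fun i => q ^ t ≤ ‖a i‖ with hSdef
  have hr : 0 < q ^ t := pow_pos hq0 t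
  have hS : ∀ i ∈ S, q ^ t ≤ ‖a i‖ := fun i hi => (Finset.mem_filter.1 hi).2
  have hS' : ∀ i ∉ S, ‖a i‖ < q ^ t := by
    intro i hi
    by_contra h
    exact hi (Finset.mem_filter.2 ⟨Finset.mem_univ _, not_lt.1 h⟩)
  have hSn : S.card ≤ n := by
    have := Finset.card_le_univ S
    simpa using this
  by_contra hcon
  rw [not_le] at hcon
  have h1 : ∏ i ∈ S, ‖a i‖ ≤ q ^ HP s S.card := by
    rw [← norm_esymm_eq a hr S hS hS']
    exact hle _ hSn
  have h2 : ‖∑ A ∈ Finset.powersetCard (cnt s t) Finset.univ, ∏ j ∈ A, a j‖ <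
      q ^ HP s (cnt s t) := by
    refine norm_sum_lt _ _ (pow_pos hq0 _) fun A hA => ?_
    rw [Finset.mem_powersetCard] at hA
    rw [norm_prod]
    have hns : ¬ A ⊆ S := fun hsub => by
      have := Finset.card_le_card hsub
      omega
    have h3 := prod_lt_prod_of_not_subset (u := fun i => ‖a i‖ / q ^ t)
      (fun i => div_nonneg (norm_nonneg _) hr.le) (S := S) (A := A)
      (fun i hi => (one_le_div hr).2 (hS i hi)) (fun i hi => (div_lt_one hr).2 (hS' i hi)) hns
    simp only [Finset.prod_div_distrib, Finset.prod_const, hA.2] at h3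
    rw [div_lt_div_iff₀ (pow_pos hr _) (pow_pos hr _)] at h3
    have h4 : q ^ (HP s S.card + t * (cnt s t - S.card)) ≤ q ^ HP s (cnt s t) :=
      pow_le_pow_of_le_one hq0.le hq1.le (HP_cnt_le hs t hcon.le)
    have h5 : (q ^ t) ^ cnt s t = (q ^ t) ^ S.card * (q ^ t) ^ (cnt s t - S.card) := by
      rw [← pow_add]
      congr 1
      omega
    have h6 : (∏ i ∈ A, ‖a i‖) * (q ^ t) ^ S.card <
        q ^ HP s (cnt s t) * (q ^ t) ^ S.card := by
      calc (∏ i ∈ A, ‖a i‖) * (q ^ t) ^ S.card < (∏ i ∈ S, ‖a i‖) * (q ^ t) ^ cnt s t := h3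
        _ ≤ q ^ HP s S.card * (q ^ t) ^ cnt s t := by gcongr
        _ = q ^ (HP s S.card + t * (cnt s t - S.card)) * (q ^ t) ^ S.card := by
          rw [h5, pow_add, pow_mul]
          ring
        _ ≤ _ := by gcongr
    exact lt_of_mul_lt_mul_right h6 (pow_pos hr _).le
  exact absurd heq h2.ne

theorem card_gt_le {a : Fin n → L} {q : ℝ} (hq0 : 0 < q) (hq1 : q < 1) {s : Fin n → ℕ}
    (hle : ∀ i ≤ n, ‖∑ A ∈ Finset.powersetCard i Finset.univ, ∏ j ∈ A, a j‖ ≤ q ^ HP s i)
    (t i₀ : ℕ)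
    (heq : ‖∑ A ∈ Finset.powersetCard i₀ Finset.univ, ∏ j ∈ A, a j‖ = q ^ HP s i₀)
    (hHP : ∀ b, i₀ ≤ b → b ≤ n → HP s i₀ + t * (b - i₀) ≤ HP s b) :
    (Finset.univ.filter fun i => q ^ t < ‖a i‖).card ≤ i₀ := by
  classical
  set S := Finset.univ.filter fun i => q ^ t < ‖a i‖ with hSdef
  have hr : 0 < q ^ t := pow_pos hq0 t
  have hS : ∀ i ∈ S, q ^ t < ‖a i‖ := fun i hi => (Finset.mem_filter.1 hi).2
  have hS' : ∀ i ∉ S, ‖a i‖ ≤ q ^ t := by
    intro i hi
    by_contra h
    exact hi (Finset.mem_filter.2 ⟨Finset.mem_univ _, not_le.1 h⟩)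
  have hSn : S.card ≤ n := by
    have := Finset.card_le_univ S
    simpa using this
  by_contra hcon
  rw [not_le] at hcon
  have hne : S.Nonempty := Finset.card_pos.1 (by omega)
  obtain ⟨i₁, hi₁, hmin⟩ := Finset.exists_min_image S (fun i => ‖a i‖) hne
  have h1 : ∏ i ∈ S, ‖a i‖ ≤ q ^ HP s S.card := by
    rw [← norm_esymm_eq a (hr.trans (hS i₁ hi₁)) S hmin
      (fun i hi => lt_of_le_of_lt (hS' i hi) (hS i₁ hi₁))]
    exact hle _ hSn
  have h2 : ‖∑ A ∈ Finset.powersetCard i₀ Finset.univ, ∏ j ∈ A, a j‖ <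
      q ^ HP s i₀ := by
    refine norm_sum_lt _ _ (pow_pos hq0 _) fun A hA => ?_
    rw [Finset.mem_powersetCard] at hA
    rw [norm_prod]
    have hns : ¬ S ⊆ A := fun hsub => by
      have := Finset.card_le_card hsub
      omega
    have h3 := prod_lt_prod_of_not_superset (u := fun i => ‖a i‖ / q ^ t)
      (fun i => div_nonneg (norm_nonneg _) hr.le) (S := S) (A := A)
      (fun i hi => (one_lt_div hr).2 (hS i hi)) (fun i hi => (div_le_one hr).2 (hS' i hi)) hns
    simp only [Finset.prod_div_distrib, Finset.prod_const, hA.2] at h3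
    rw [div_lt_div_iff₀ (pow_pos hr _) (pow_pos hr _)] at h3
    have h4 : q ^ HP s S.card ≤ q ^ (HP s i₀ + t * (S.card - i₀)) :=
      pow_le_pow_of_le_one hq0.le hq1.le (hHP _ hcon.le hSn)
    have h5 : (q ^ t) ^ S.card = (q ^ t) ^ i₀ * (q ^ t) ^ (S.card - i₀) := by
      rw [← pow_add]
      congr 1
      omega
    have h6 : (∏ i ∈ A, ‖a i‖) * (q ^ t) ^ S.card < q ^ HP s i₀ * (q ^ t) ^ S.card := by
      calc (∏ i ∈ A, ‖a i‖) * (q ^ t) ^ S.card < (∏ i ∈ S, ‖a i‖) * (q ^ t) ^ i₀ := h3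
        _ ≤ q ^ HP s S.card * (q ^ t) ^ i₀ := by gcongr
        _ ≤ q ^ (HP s i₀ + t * (S.card - i₀)) * (q ^ t) ^ i₀ := by gcongr
        _ = _ := by
          rw [h5, pow_add, pow_mul]
          ring
    exact lt_of_mul_lt_mul_right h6 (pow_pos hr _).le
  exact absurd heq h2.ne

/-- If the Newton polygon lies on or above the polygon with slopes `s` and the coefficients at the
vertices of the latter have the smallest possible valuation, the two polygons agree. -/
theorem newton_eq {a : Fin n → L} {q : ℝ} (hq0 : 0 < q) (hq1 : q < 1) {s : Fin n → ℕ}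
    (hs : Monotone s)
    (hle : ∀ i ≤ n, ‖∑ A ∈ Finset.powersetCard i Finset.univ, ∏ j ∈ A, a j‖ ≤ q ^ HP s i)
    (heq : ∀ t, ‖∑ A ∈ Finset.powersetCard (cnt s t) Finset.univ, ∏ j ∈ A, a j‖ =
      q ^ HP s (cnt s t)) :
    (Finset.univ.val.map fun i => ‖a i‖) = Finset.univ.val.map fun i => q ^ s i := by
  classical
  symm
  refine Multiset.eq_of_le_of_card_le ?_ (by simp)
  rw [Multiset.le_iff_count]
  intro x
  rw [Multiset.count_map, Multiset.count_map]
  by_cases hx : ∃ t : ℕ, x = q ^ t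
  · obtain ⟨t, rfl⟩ := hx
    have hinj : ∀ k, q ^ t = q ^ s k ↔ s k = t := by
      intro k
      rw [pow_right_inj₀ hq0 hq1.ne, eq_comm]
    have h1 : (Finset.univ.filter fun k => s k = t).card + (Finset.univ.filter
        fun k => s k < t).card = cnt s t := by
      unfold cnt
      rw [← Finset.card_union_of_disjoint]
      · congr 1
        ext k
        simp only [Finset.mem_union, Finset.mem_filter, Finset.mem_univ, true_and]
        omega
      · rw [Finset.disjoint_filter]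
        intro k _ h1 h2
        omega
    have h2 : (Finset.univ.filter fun i => q ^ t = ‖a i‖).card + (Finset.univ.filter
        fun i => q ^ t < ‖a i‖).card = (Finset.univ.filter fun i => q ^ t ≤ ‖a i‖).card := by
      rw [← Finset.card_union_of_disjoint]
      · congr 1
        ext k
        simp only [Finset.mem_union, Finset.mem_filter, Finset.mem_univ, true_and]
        rw [le_iff_eq_or_lt]
      · rw [Finset.disjoint_filter]
        intro k _ h1 h2
        exact absurd h1 h2.ne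
    have h3 := cnt_le_card_ge hq0 hq1 hs hle t (heq t)
    have h4 : (Finset.univ.filter fun i => q ^ t < ‖a i‖).card ≤
        (Finset.univ.filter fun k => s k < t).card := by
      rcases Nat.eq_zero_or_pos t with rfl | ht
      · have h5 : (Finset.univ.filter fun k => s k < 0) = ∅ := by
          ext k
          simp
        rw [h5, Finset.card_empty]
        refine card_gt_le hq0 hq1 hle 0 0 ?_ ?_
        · simp [HP]
        · intro b _ _
          simp [HP]
      · have h5 : (Finset.univ.filter fun k => s k < t).card = cnt s (t - 1) := by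
          unfold cnt
          congr 1
          ext k
          simp only [Finset.mem_filter, Finset.mem_univ, true_and]
          omega
        rw [h5]
        refine card_gt_le hq0 hq1 hle t _ (heq _) ?_
        intro b hb hbn
        have h6 := le_HP_cnt hs (t - 1) hb hbn
        have h7 : t - 1 + 1 = t := by omega
        rw [h7] at h6
        exact h6
    have h5 : (Finset.univ.filter fun k => s k = t).card ≤
        (Finset.univ.filter fun i => q ^ t = ‖a i‖).card := by omega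
    have h6 : (Multiset.filter (fun k => q ^ t = q ^ s k) (Finset.univ : Finset (Fin n)).val).card =
        (Finset.univ.filter fun k => s k = t).card := by
      rw [← Finset.filter_val, Finset.card_val]
      congr 1
      ext k
      simp only [Finset.mem_filter, Finset.mem_univ, true_and]
      exact hinj k
    rw [h6]
    exact h5
  · push Not at hx
    have h6 : Multiset.filter (fun k => x = q ^ s k) (Finset.univ : Finset (Fin n)).val = 0 := by
      rw [Multiset.filter_eq_nil]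
      intro k _
      exact hx (s k)
    rw [h6, Multiset.card_zero]
    exact Nat.zero_le _

end newton

end Pool.Agent.Ord
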