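import Mathlib
import Pool.Agent.Lib.Helper95.Ord.Newton

/-!
# Combinatorics of the Hodge numbers
-/

open Finset

namespace Pool.Agent.Ord

variable {n w : ℕ} {s : Fin n → ℕ}

/-- The slopes are symmetric, of weight `w`, not all equal to `w / 2`, and the area between the
polygon with slopes `s` and the line of slope `w / 2` is as small as possible: this is the case if
and only if, up to a shift of the slopes (Tate twist), the slopes are `0, 1` (elliptic type) or
`0, 0, 1, 1` (abelian surface type) or `0, 1, …, 1, 2` (K3 type). -/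
def IsSmall (s : Fin n → ℕ) (w : ℕ) : Prop :=
  Monotone s ∧ (∀ i, s i + s i.rev = w) ∧ ∑ i, |2 * (s i : ℤ) - w| ≤ 4 ∧ ∃ i, 2 * s i ≠ w

/-- The number of slopes smaller than `w / 2`. -/
def hh (s : Fin n → ℕ) (w : ℕ) : ℕ := (Finset.univ.filter fun k => 2 * s k < w).card

theorem IsSmall.sum_neg (hs : IsSmall s w) :
    ∑ i with 2 * s i < w, ((w : ℤ) - 2 * s i) ≤ 2 := by
  obtain ⟨-, hsym, hsum, -⟩ := hs
  have h1 : ∑ i with 2 * s i < w, ((w : ℤ) - 2 * s i) =
      ∑ i with w < 2 * s i, ((2 : ℤ) * s i - w) := by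
    apply Finset.sum_bij (fun i _ => Fin.rev i)
    · intro i hi
      rw [Finset.mem_filter] at hi ⊢
      have := hsym i
      exact ⟨Finset.mem_univ _, by omega⟩
    · intro a _ b _ h
      exact Fin.rev_injective h
    · intro b hb
      rw [Finset.mem_filter] at hb
      refine ⟨b.rev, ?_, Fin.rev_rev b⟩
      rw [Finset.mem_filter]
      have := hsym b
      exact ⟨Finset.mem_univ _, by omega⟩
    · intro i _
      have := hsym i
      omega
  have h2 : ∑ i, |2 * (s i : ℤ) - w| = ∑ i with 2 * s i < w, ((w : ℤ) - 2 * s i) +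
      ∑ i with w < 2 * s i, ((2 : ℤ) * s i - w) := by
    rw [Finset.sum_filter, Finset.sum_filter, ← Finset.sum_add_distrib]
    refine Finset.sum_congr rfl fun i _ => ?_
    rcases lt_trichotomy (2 * s i) w with h | h | h
    · rw [if_pos h, if_neg (by omega), abs_of_nonpos (by omega)]
      ring
    · rw [if_neg (by omega), if_neg (by omega), abs_of_nonneg (by omega)]
      omega
    · rw [if_neg (by omega), if_pos h, abs_of_nonneg (by omega)]
      ring
  rw [h2, ← h1] at hsum
  omega

theorem IsSmall.le_two (hs : IsSmall s w) {k : Fin n} (hk : 2 * s k < w) : w ≤ 2 * s k + 2 := by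
  have h1 := hs.sum_neg
  have h2 : ((w : ℤ) - 2 * s k) ≤ ∑ i with 2 * s i < w, ((w : ℤ) - 2 * s i) := by
    refine Finset.single_le_sum (f := fun i => ((w : ℤ) - 2 * s i)) (fun i hi => ?_)
      (Finset.mem_filter.2 ⟨Finset.mem_univ k, hk⟩)
    rw [Finset.mem_filter] at hi
    have := hi.2
    omega
  omega

theorem IsSmall.eq_of_lt (hs : IsSmall s w) {k k' : Fin n} (hk : 2 * s k < w)
    (hk' : 2 * s k' < w) : s k = s k' := by
  have h1 := hs.le_two hk
  have h2 := hs.le_two hk'
  omega

theorem IsSmall.lt_iff (hs : IsSmall s w) (k : Fin n) : 2 * s k < w ↔ k.val < hh s w := by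
  rcases Nat.eq_zero_or_pos w with rfl | hw
  · simp [hh]
  · have h1 : ∀ k, 2 * s k < w ↔ s k ≤ (w - 1) / 2 := by
      intro k
      omega
    have h2 : hh s w = cnt s ((w - 1) / 2) := by
      unfold hh cnt
      congr 1
      ext k
      simp only [Finset.mem_filter, Finset.mem_univ, true_and]
      exact h1 k
    rw [h2, ← le_iff_lt_cnt hs.1, h1]

theorem IsSmall.hh_pos (hs : IsSmall s w) : 0 < hh s w := by
  obtain ⟨i, hi⟩ := hs.2.2.2
  have hsym := hs.2.1 i
  rcases lt_or_gt_of_ne hi with h | h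
  · have := (hs.lt_iff i).1 h
    omega
  · have := (hs.lt_iff i.rev).1 (by omega)
    omega

theorem IsSmall.two_mul_hh_le (hs : IsSmall s w) : 2 * hh s w ≤ n := by
  by_contra hcon
  rw [not_le] at hcon
  have hn : hh s w ≤ n := by
    unfold hh
    refine (Finset.card_le_univ _).trans ?_
    simp
  have hpos := hs.hh_pos
  have h1 := (hs.lt_iff ⟨hh s w - 1, by omega⟩).2 (by simp; omega)
  have hsym := hs.2.1 ⟨hh s w - 1, by omega⟩
  have h2 := (hs.lt_iff (Fin.rev ⟨hh s w - 1, by omega⟩)).2 (by rw [Fin.val_rev]; simp; omega)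
  omega

theorem IsSmall.cnt_cases (hs : IsSmall s w) (t : ℕ) :
    cnt s t = 0 ∨ cnt s t = hh s w ∨ cnt s t = n - hh s w ∨ cnt s t = n := by
  have hle := cnt_le s t
  have h2 := hs.two_mul_hh_le
  by_contra hcon
  push Not at hcon
  obtain ⟨hc0, hc1, hc2, hc3⟩ := hcon
  have hlt : cnt s t < n := lt_of_le_of_ne hle hc3
  -- the slopes on both sides of `cnt s t`
  have ha := (le_iff_lt_cnt hs.1 t ⟨cnt s t - 1, by omega⟩).2 (by simp; omega)
  have hb : ¬ s ⟨cnt s t, hlt⟩ ≤ t := fun h => by
    have := (le_iff_lt_cnt hs.1 t ⟨cnt s t, hlt⟩).1 h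
    simp at this
  set a : Fin n := ⟨cnt s t - 1, by omega⟩ with hadef
  set b : Fin n := ⟨cnt s t, hlt⟩ with hbdef
  have hsa := hs.2.1 a
  have hsb := hs.2.1 b
  have hA := hs.lt_iff a
  have hB := hs.lt_iff b
  have hA' := hs.lt_iff a.rev
  have hB' := hs.lt_iff b.rev
  rw [Fin.val_rev] at hA' hB'
  have hav : a.val = cnt s t - 1 := rfl
  have hbv : b.val = cnt s t := rfl
  rw [hav] at hA hA'
  rw [hbv] at hB hB'
  rcases lt_or_gt_of_ne hc1 with h | h
  · -- both smaller than `w / 2`
    have h3 := hs.eq_of_lt (hA.2 (by omega)) (hB.2 h)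
    omega
  · rcases lt_or_gt_of_ne hc2 with h' | h'
    · -- both equal to `w / 2`
      have h3 : ¬ 2 * s a < w := fun h4 => by
        have := hA.1 h4
        omega
      have h4 : ¬ 2 * s b.rev < w := fun h4 => by
        have := hB'.1 h4
        omega
      omega
    · have h3 := hs.eq_of_lt (hA'.2 (by omega)) (hB'.2 (by omega))
      omega

theorem HP_hh (hs : IsSmall s w) : HP s (hh s w) = ∑ k with 2 * s k < w, s k := by
  unfold HP
  congr 1
  ext k
  simp only [Finset.mem_filter, Finset.mem_univ, true_and]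
  exact (hs.lt_iff k).symm

theorem IsSmall.gap (hs : IsSmall s w) : w * hh s w ≤ 2 * HP s (hh s w) + 2 := by
  have h1 := hs.sum_neg
  rw [Finset.sum_sub_distrib, Finset.sum_const, ← Finset.mul_sum] at h1
  rw [HP_hh hs]
  have h2 : (w : ℤ) * hh s w ≤ 2 * ∑ k with 2 * s k < w, (s k : ℤ) + 2 := by
    have h3 : (Finset.univ.filter fun k => 2 * s k < w).card = hh s w := rfl
    rw [h3, nsmul_eq_mul, mul_comm] at h1
    linarith
  exact_mod_cast h2

theorem IsSmall.two_mul_HP (hs : IsSmall s w) : 2 * HP s n = n * w := by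
  have h1 : HP s n = ∑ k, s k := by
    unfold HP
    rw [Finset.filter_true_of_mem]
    intro k _
    exact k.2
  have h2 : ∑ k : Fin n, s k.rev = ∑ k, s k := Equiv.sum_comp Fin.revPerm s
  have h3 : ∑ k, (s k + s k.rev) = n * w := by
    rw [Finset.sum_congr rfl fun k _ => hs.2.1 k]
    simp
  rw [Finset.sum_add_distrib, h2] at h3
  omega

theorem HP_sub (hsym : ∀ i, s i + s i.rev = w) {h : ℕ} (hh : h ≤ n) :
    HP s (n - h) + w * h = HP s n + HP s h := by
  have h1 := HP_mono s (Nat.sub_le n h)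
  have h2 : ∑ k with n - h ≤ (k : Fin n).val ∧ k.val < n, s k + HP s h = w * h := by
    have h3 : HP s h = ∑ k with n - h ≤ (k : Fin n).val ∧ k.val < n, s k.rev := by
      unfold HP
      apply Finset.sum_bij (fun i _ => Fin.rev i)
      · intro i hi
        rw [Finset.mem_filter] at hi ⊢
        rw [Fin.val_rev]
        exact ⟨Finset.mem_univ _, by omega⟩
      · intro a _ b _ h
        exact Fin.rev_injective h
      · intro b hb
        rw [Finset.mem_filter] at hb
        refine ⟨b.rev, ?_, Fin.rev_rev b⟩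
        rw [Finset.mem_filter, Fin.val_rev]
        exact ⟨Finset.mem_univ _, by omega⟩
      · intro i _
        rw [Fin.rev_rev]
    rw [h3, ← Finset.sum_add_distrib, Finset.sum_congr rfl fun k _ => hsym k, Finset.sum_const,
      card_between (Nat.sub_le n h) le_rfl, smul_eq_mul, mul_comm]
    congr 1
    omega
  omega

end Pool.Agent.Ord
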