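import Mathlib
import Pool.Agent.Lib.Helper95.Ord.Hodge
import Pool.Agent.Lib.Helper95.Ord.DegOne

/-!
# Arithmetic of the coefficients of the characteristic polynomial of a Frobenius element
-/

open Finset Module NumberField Pool.Agent.GSem
open scoped ComplexConjugate

namespace Pool.Agent.Ord

section es

variable {n : ℕ}

/-- The elementary symmetric functions. -/
def es {R : Type*} [CommRing R] (z : Fin n → R) (h : ℕ) : R :=
  ∑ A ∈ powersetCard h (univ : Finset (Fin n)), ∏ i ∈ A, z i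

theorem es_top {R : Type*} [CommRing R] (z : Fin n → R) : es z n = ∏ i, z i := by
  unfold es
  have h1 : powersetCard n (univ : Finset (Fin n)) = {univ} := by
    have := powersetCard_self (univ : Finset (Fin n))
    rwa [card_univ, Fintype.card_fin] at this
  rw [h1, sum_singleton]

theorem norm_es_sq_le (z : Fin n → ℂ) {Q : ℝ} (hQ : 0 ≤ Q) (hz : ∀ i, ‖z i‖ ^ 2 = Q) (h : ℕ) :
    ‖es z h‖ ^ 2 ≤ (n.choose h : ℝ) ^ 2 * Q ^ h := by
  have h1 : ∀ i, ‖z i‖ = √Q := fun i => by rw [← hz i, Real.sqrt_sq (norm_nonneg _)]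
  have h2 : ‖es z h‖ ≤ n.choose h * √Q ^ h := by
    unfold es
    refine (norm_sum_le _ _).trans ?_
    have h3 : ∀ A ∈ powersetCard h (univ : Finset (Fin n)), ‖∏ i ∈ A, z i‖ = √Q ^ h := by
      intro A hA
      rw [norm_prod, prod_congr rfl fun i _ => h1 i, prod_const, (mem_powersetCard.1 hA).2]
    rw [sum_congr rfl h3, sum_const, card_powersetCard, card_univ, Fintype.card_fin,
      nsmul_eq_mul]
  calc ‖es z h‖ ^ 2 ≤ (n.choose h * √Q ^ h) ^ 2 := by gcongr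
    _ = _ := by rw [mul_pow, ← pow_mul, mul_comm h 2, pow_mul, Real.sq_sqrt hQ]

theorem norm_es_top_sq (z : Fin n → ℂ) {Q : ℝ} (hz : ∀ i, ‖z i‖ ^ 2 = Q) :
    ‖es z n‖ ^ 2 = Q ^ n := by
  rw [es_top, norm_prod, ← prod_pow, prod_congr rfl fun i _ => hz i, prod_const, card_univ,
    Fintype.card_fin]

theorem es_conj (z : Fin n → ℂ) {Q : ℝ} (hz : ∀ i, ‖z i‖ ^ 2 = Q) {h : ℕ} (hh : h ≤ n) :
    es z (n - h) * (Q : ℂ) ^ h = es z n * conj (es z h) := by
  classical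
  have h1 : ∀ i, z i * conj (z i) = (Q : ℂ) := by
    intro i
    rw [Complex.mul_conj, Complex.normSq_eq_norm_sq, hz i]
  have h2 : es z (n - h) = ∑ A ∈ powersetCard h (univ : Finset (Fin n)), ∏ i ∈ Aᶜ, z i := by
    unfold es
    refine sum_nbij' (fun A => Aᶜ) (fun A => Aᶜ) ?_ ?_ ?_ ?_ ?_
    · intro A hA
      rw [mem_powersetCard] at hA ⊢
      refine ⟨subset_univ _, ?_⟩
      rw [card_compl, Fintype.card_fin, hA.2]
      omega
    · intro A hA
      rw [mem_powersetCard] at hA ⊢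
      refine ⟨subset_univ _, ?_⟩
      rw [card_compl, Fintype.card_fin, hA.2]
    · intro A _
      exact compl_compl A
    · intro A _
      exact compl_compl A
    · intro A _
      rw [compl_compl]
  rw [h2, es_top]
  unfold es
  rw [map_sum, mul_sum, sum_mul]
  refine sum_congr rfl fun A hA => ?_
  rw [map_prod, ← prod_mul_prod_compl A, mul_right_comm, ← prod_mul_distrib,
    prod_congr rfl fun i _ => h1 i, prod_const, (mem_powersetCard.1 hA).2, mul_comm]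

end es

section padic

theorem norm_le_one_of_isIntegral {L : Type*} [NormedField L] [IsUltrametricDist L] {x : L}
    (hx : IsIntegral ℤ x) : ‖x‖ ≤ 1 := by
  have h1 : IsIntegral (NormedField.valuation (K := L)).integer x := hx.tower_top
  have h2 := (Valuation.integer.integers (NormedField.valuation (K := L))).mem_of_integral h1
  have h3 : NormedField.valuation x ≤ 1 := h2
  exact_mod_cast h3

variable {E : Type*} [Field E] [NumberField E]

omit [NumberField E] in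
theorem norm_emb_le_one {L : Type*} [NormedField L] [IsUltrametricDist L] (τ : E →+* L)
    (x : 𝓞 E) : ‖τ x‖ ≤ 1 :=
  norm_le_one_of_isIntegral ((RingOfIntegers.isIntegral_coe x).map τ.toIntAlgHom)

theorem norm_emb_eq_one {L : Type*} [NormedField L] [IsUltrametricDist L] {p : ℕ}
    (hL : ∀ m : ℕ, ¬ p ∣ m → ‖(m : L)‖ = 1) (τ : E →+* L) {x : 𝓞 E}
    (hx : ¬ p ∣ Ideal.absNorm (Ideal.span {x})) : ‖τ x‖ = 1 := by
  obtain ⟨y, hy⟩ := Ideal.mem_span_singleton'.1 (Ideal.absNorm_mem (Ideal.span {x}))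
  have h1 : τ y * τ x = ((Ideal.absNorm (Ideal.span {x}) : ℕ) : L) := by
    have h2 : (y : E) * (x : E) = ((Ideal.absNorm (Ideal.span {x}) : ℕ) : E) := by
      have := congrArg (algebraMap (𝓞 E) E) hy
      simpa using this
    rw [← map_mul, h2, map_natCast]
  have h3 := congrArg norm h1
  rw [norm_mul, hL _ hx] at h3
  have h4 := norm_emb_le_one τ x
  have h5 := norm_emb_le_one τ y
  nlinarith [norm_nonneg (τ x), norm_nonneg (τ y)]

end padic

section global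

variable {E : Type*} [Field E] [NumberField E]

theorem absNorm_eq_of_norm_eq {x y : 𝓞 E} (h : ∀ σ : E →+* ℂ, ‖σ x‖ = ‖σ y‖) :
    Ideal.absNorm (Ideal.span {x}) = Ideal.absNorm (Ideal.span {y}) := by
  have h1 : ∀ x : 𝓞 E, ((Ideal.absNorm (Ideal.span {x}) : ℕ) : ℝ) =
      ∏ σ : E →ₐ[ℚ] ℂ, ‖σ x‖ := by
    intro x
    rw [← norm_prod, ← Algebra.norm_eq_prod_embeddings ℚ ℂ, Ideal.absNorm_span_singleton,
      ← Algebra.coe_norm_int]
    simp [Nat.cast_natAbs]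
  have h2 : ((Ideal.absNorm (Ideal.span {x}) : ℕ) : ℝ) = (Ideal.absNorm (Ideal.span {y}) : ℕ) := by
    rw [h1, h1]
    exact prod_congr rfl fun σ _ => h (σ : E →+* ℂ)
  exact_mod_cast h2

theorem dvd_of_trace {p : ℕ} (hp : p.Prime) (hdisc : ¬ (p : ℤ) ∣ discr E) {b : 𝓞 E}
    (h : ∀ x : 𝓞 E, (p : ℤ) ∣ Algebra.trace ℤ (𝓞 E) (b * x)) : (p : 𝓞 E) ∣ b := by
  classical
  have hpZ : Prime (p : ℤ) := Nat.prime_iff_prime_int.1 hp
  set ω := RingOfIntegers.basis E with hω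
  have h1 := Algebra.traceMatrix_of_basis_mulVec ω b
  have h2 : (Algebra.traceMatrix ℤ ω).det = discr E := rfl
  have h3 : discr E • ω.equivFun b =
      (Algebra.traceMatrix ℤ ω).adjugate.mulVec fun i => Algebra.trace ℤ (𝓞 E) (b * ω i) := by
    rw [← h1, Matrix.mulVec_mulVec, Matrix.adjugate_mul, h2, Matrix.smul_mulVec, Matrix.one_mulVec]
  have h4 : ∀ i, (p : ℤ) ∣ ω.equivFun b i := by
    intro i
    have h5 : (p : ℤ) ∣ discr E * ω.equivFun b i := by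
      have h6 := congrFun h3 i
      rw [Pi.smul_apply, smul_eq_mul] at h6
      rw [h6, Matrix.mulVec, dotProduct]
      exact dvd_sum fun j _ => (h (ω j)).mul_left _
    exact (hpZ.dvd_or_dvd h5).resolve_left hdisc
  rw [← ω.sum_equivFun b]
  refine dvd_sum fun i _ => ?_
  obtain ⟨c, hc⟩ := h4 i
  rw [hc, mul_smul, zsmul_eq_mul]
  exact Dvd.intro _ (by push_cast; rfl)

theorem finite_small (E : Type*) [Field E] [NumberField E] (C : ℝ) :
    {x : 𝓞 E | ∀ σ : E →+* ℂ, ‖σ x‖ ≤ C}.Finite := by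
  have h1 := Embeddings.finite_of_norm_le E ℂ C
  refine Set.Finite.of_finite_image (f := fun x : 𝓞 E => (x : E)) (h1.subset ?_)
    (RingOfIntegers.coe_injective.injOn)
  rintro _ ⟨x, hx, rfl⟩
  exact ⟨RingOfIntegers.isIntegral_coe x, hx⟩

end global

section galois

variable {Ω : Type*} [Field Ω] [CharZero Ω] [IsAlgClosure ℚ Ω]
variable {E : Type*} [Field E] [NumberField E]

/-- An embedding restricted to the rings of integers. -/
abbrev omr (σ : E →+* Ω) : 𝓞 E →+* 𝓞 Ω := RingOfIntegers.mapRingHom σ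

theorem exists_mem_of_dvd_absNorm {p : ℕ} {Q : Ideal (𝓞 Ω)} (hQ : Q.IsPrime)
    (hpQ : (p : 𝓞 Ω) ∈ Q) {b : 𝓞 E} (hb : p ∣ Ideal.absNorm (Ideal.span {b})) :
    ∃ σ : E →+* Ω, omr σ b ∈ Q := by
  have hΩ : IsAlgClosed Ω := IsAlgClosure.isAlgClosed ℚ
  have h1 : (((Algebra.norm ℤ b : ℤ)) : 𝓞 Ω) = ∏ σ : E →ₐ[ℚ] Ω, omr (σ : E →+* Ω) b := by
    apply RingOfIntegers.coe_injective
    have h2 := Algebra.norm_eq_prod_embeddings ℚ Ω (b : E)
    rw [← Algebra.coe_norm_int] at h2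
    rw [map_prod]
    have h3 : (algebraMap (𝓞 Ω) Ω) ((Algebra.norm ℤ b : ℤ) : 𝓞 Ω) =
        algebraMap ℚ Ω ((Algebra.norm ℤ b : ℤ) : ℚ) := by simp
    rw [h3, h2]
    rfl
  have h2 : ((Algebra.norm ℤ b : ℤ) : 𝓞 Ω) ∈ Q := by
    rw [Ideal.absNorm_span_singleton] at hb
    have h3 : (p : ℤ) ∣ Algebra.norm ℤ b := Int.natCast_dvd.2 hb
    obtain ⟨c, hc⟩ := h3
    rw [hc, Int.cast_mul, Int.cast_natCast]
    exact Q.mul_mem_right _ hpQ
  rw [h1] at h2
  obtain ⟨σ, -, hσ⟩ := (hQ.prod_mem_iff).1 h2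
  exact ⟨σ, hσ⟩

theorem dvd_of_forall_mem {p : ℕ} (hp : p.Prime) (hdisc : ¬ (p : ℤ) ∣ discr E)
    {Q : Ideal (𝓞 Ω)} (hQ : Q.IsPrime) (hpQ : (p : 𝓞 Ω) ∈ Q) {b : 𝓞 E}
    (hb : ∀ σ : E →+* Ω, omr σ b ∈ Q) : (p : 𝓞 E) ∣ b := by
  have hΩ : IsAlgClosed Ω := IsAlgClosure.isAlgClosed ℚ
  refine dvd_of_trace hp hdisc fun x => ?_
  rw [← intCast_mem_iff hp hQ hpQ]
  have h1 : (((Algebra.trace ℤ (𝓞 E) (b * x) : ℤ)) : 𝓞 Ω) =
      ∑ σ : E →ₐ[ℚ] Ω, omr (σ : E →+* Ω) (b * x) := by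
    apply RingOfIntegers.coe_injective
    have h2 := trace_eq_sum_embeddings (K := ℚ) Ω (x := ((b * x : 𝓞 E) : E))
    rw [← Algebra.coe_trace_int] at h2
    rw [map_sum]
    have h3 : (algebraMap (𝓞 Ω) Ω) ((Algebra.trace ℤ (𝓞 E) (b * x) : ℤ) : 𝓞 Ω) =
        algebraMap ℚ Ω ((Algebra.trace ℤ (𝓞 E) (b * x) : ℤ) : ℚ) := by simp
    rw [h3, h2]
    rfl
  rw [h1]
  refine Q.sum_mem fun σ _ => ?_
  rw [map_mul]
  exact Q.mul_mem_right _ (hb σ)

/-- `g` permutes the embeddings of `E` transitively, up to composition with `c`. -/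
def CycTrans (g : Gal(Ω/ℚ)) (c : E →+* E) : Prop :=
  ∀ σ σ' : E →+* Ω, ∃ k : ℕ, (∀ x, (g ^ k) (σ x) = σ' x) ∨ ∀ x, (g ^ k) (σ x) = σ' (c x)

theorem not_dvd_absNorm {p : ℕ} (hp : p.Prime) (hdisc : ¬ (p : ℤ) ∣ discr E)
    {Q : Ideal (𝓞 Ω)} (hQ : Q.IsPrime) (hpQ : (p : 𝓞 Ω) ∈ Q) {φ : Gal(Ω/ℚ)}
    (hφ : ∀ x : 𝓞 Ω, φ • x - x ^ p ∈ Q) {g : Gal(Ω/ℚ)} {c : E →+* E} (hg : CycTrans (Ω := Ω) g c)
    {k' : ℕ} (hk' : ∀ (k : ℕ) (σ : E →+* Ω) x, (g ^ k) (σ x) = (φ ^ (k' * k)) (σ x))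
    {b ε : 𝓞 E} (hbc : b = ε * RingOfIntegers.mapRingHom c b) (hnd : ¬ (p : 𝓞 E) ∣ b) :
    ¬ p ∣ Ideal.absNorm (Ideal.span {b}) := by
  intro hdvd
  obtain ⟨σ₀, hσ₀⟩ := exists_mem_of_dvd_absNorm (Ω := Ω) hQ hpQ hdvd
  apply hnd
  refine dvd_of_forall_mem hp hdisc hQ hpQ fun σ => ?_
  have hstep : ∀ x ∈ Q, φ • x ∈ Q := by
    intro x hx
    have h1 : φ • x = (φ • x - x ^ p) + x ^ p := by ring
    rw [h1]
    exact Q.add_mem (hφ x) (Q.pow_mem_of_mem hx p hp.pos)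
  have hpow : ∀ (j : ℕ), ∀ x ∈ Q, φ ^ j • x ∈ Q := by
    intro j
    induction j with
    | zero => intro x hx; simpa using hx
    | succ j ih =>
      intro x hx
      rw [pow_succ', mul_smul]
      exact hstep _ (ih x hx)
  obtain ⟨k, hk | hk⟩ := hg σ₀ σ
  · have h1 : omr σ b = φ ^ (k' * k) • omr σ₀ b := by
      apply RingOfIntegers.coe_injective
      have h2 := hk (b : E)
      rw [hk' k σ₀] at h2
      exact h2.symm
    rw [h1]
    exact hpow _ _ hσ₀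
  · have h1 : omr σ (RingOfIntegers.mapRingHom c b) = φ ^ (k' * k) • omr σ₀ b := by
      apply RingOfIntegers.coe_injective
      have h2 := hk (b : E)
      rw [hk' k σ₀] at h2
      exact h2.symm
    rw [hbc, map_mul, h1]
    exact Q.mul_mem_left _ (hpow _ _ hσ₀)

end galois

end Pool.Agent.Ord
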