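import Mathlib
import Pool.Agent.Lib.Helper95.Ord.Arith
import Pool.Agent.Lib.Helper95.Ord.ExpAdic

/-!
# Valuations of the conjugates of an algebraic integer
-/

open Finset Module NumberField Pool.Agent.GSem
open scoped Pointwise

namespace Pool.Agent.Ord

variable {Ω : Type*} [Field Ω] [CharZero Ω] [IsAlgClosure ℚ Ω]
variable {E : Type*} [Field E] [NumberField E]

section global

/-- If `p` does not divide the discriminant, the ideal `(p)` is radical. -/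
theorem dvd_of_dvd_pow (Ω : Type*) [Field Ω] [CharZero Ω] [IsAlgClosure ℚ Ω] {p : ℕ} (hp : p.Prime)
    (hdisc : ¬ (p : ℤ) ∣ discr E) {x : 𝓞 E} {a : ℕ} (h : (p : 𝓞 E) ∣ x ^ a) : (p : 𝓞 E) ∣ x := by
  obtain ⟨Q, hQ, hpQ⟩ := exists_prime_above (Ω := Ω) hp
  refine dvd_of_forall_mem hp hdisc hQ.isPrime hpQ fun σ => ?_
  obtain ⟨y, hy⟩ := h
  have h1 : (omr σ x) ^ a = (p : 𝓞 Ω) * omr σ y := by
    rw [← map_pow, hy, map_mul, map_natCast]
  exact hQ.isPrime.mem_of_pow_mem a (by rw [h1]; exact Q.mul_mem_right _ hpQ)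

theorem exists_complement (Ω : Type*) [Field Ω] [CharZero Ω] [IsAlgClosure ℚ Ω] {p : ℕ}
    (hp : p.Prime) (hdisc : ¬ (p : ℤ) ∣ discr E) (x : 𝓞 E) :
    ∃ M : ℕ, 0 < M ∧ (p : 𝓞 E) ∣ x * (1 - x ^ M) := by
  have hp0 : (p : 𝓞 E) ≠ 0 := by exact_mod_cast hp.ne_zero
  have hfin : Finite (𝓞 E ⧸ Ideal.span {(p : 𝓞 E)}) := by
    refine Ideal.finiteQuotientOfFreeOfNeBot _ (fun h ↦ ?_)
    rw [Ideal.span_singleton_eq_bot] at h
    exact hp0 h
  obtain ⟨a, b, hab, hxab⟩ := Finite.exists_ne_map_eq_of_infinite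
    (fun k : ℕ => (Ideal.Quotient.mk (Ideal.span {(p : 𝓞 E)}) x) ^ k)
  wlog hlt : a < b generalizing a b
  · exact this b a hab.symm hxab.symm (lt_of_le_of_ne (not_lt.1 hlt) hab.symm)
  refine ⟨b - a, by omega, ?_⟩
  rw [← map_pow, ← map_pow, Ideal.Quotient.eq, Ideal.mem_span_singleton] at hxab
  refine dvd_of_dvd_pow Ω (x := x * (1 - x ^ (b - a))) hp hdisc (a := a + 1) ?_
  have h1 : x ^ b = x ^ a * x ^ (b - a) := by
    rw [← pow_add]
    congr 1
    omega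
  have h2 : (x * (1 - x ^ (b - a))) ^ (a + 1) =
      (x ^ a - x ^ b) * (x * (1 - x ^ (b - a)) ^ a) := by
    rw [h1, mul_pow, pow_succ, pow_succ (1 - x ^ (b - a))]
    ring
  rw [h2]
  exact hxab.mul_right _

end global

section padic

variable {p : ℕ} [hp : Fact p.Prime] {L : Type*} [NormedField L] [NormedAlgebra ℚ_[p] L]

theorem norm_p_eq : ‖(p : L)‖ = (p : ℝ)⁻¹ := by
  have : (p : L) = algebraMap ℚ_[p] L p := by simp
  rw [this, norm_algebraMap', Padic.norm_p]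

theorem norm_int_eq (m : ℤ) : ‖(m : L)‖ = ‖(m : ℚ_[p])‖ := by
  have : (m : L) = algebraMap ℚ_[p] L m := by simp
  rw [this, norm_algebraMap']

variable [IsUltrametricDist L]

/-- Two embeddings inducing the same place have the same absolute value, and the value group is
generated by `p` if `p` does not divide the discriminant. -/
theorem norm_eq_of_place (Ω : Type*) [Field Ω] [CharZero Ω] [IsAlgClosure ℚ Ω]
    (hdisc : ¬ (p : ℤ) ∣ discr E) {τ τ' : E →+* L}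
    (h : ∀ x : 𝓞 E, ‖τ x‖ < 1 ↔ ‖τ' x‖ < 1) (x : 𝓞 E) (hx : x ≠ 0) :
    ∃ r : ℕ, ‖τ x‖ = ((p : ℝ)⁻¹) ^ r ∧ ‖τ' x‖ = ((p : ℝ)⁻¹) ^ r := by
  have hp1 : (1 : ℝ) < p := by exact_mod_cast hp.out.one_lt
  have hp0 : (0 : ℝ) < p := by positivity
  have key : ∀ m : ℕ, ∀ x : 𝓞 E, ((p : ℝ)⁻¹) ^ m ≤ ‖τ x‖ →
      ∃ r : ℕ, ‖τ x‖ = ((p : ℝ)⁻¹) ^ r ∧ ‖τ' x‖ = ((p : ℝ)⁻¹) ^ r := by
    intro m
    induction m with
    | zero =>
      intro x hx
      rw [pow_zero] at hx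
      refine ⟨0, ?_, ?_⟩
      · rw [pow_zero]
        exact le_antisymm (norm_emb_le_one τ x) hx
      · rw [pow_zero]
        refine le_antisymm (norm_emb_le_one τ' x) (not_lt.1 fun h1 => ?_)
        exact absurd ((h x).2 h1) (not_lt.2 hx)
    | succ m ih =>
      intro x hx
      by_cases h1 : ‖τ x‖ < 1
      · obtain ⟨M, hM, y, hy⟩ := exists_complement Ω hp.out hdisc x
        have h1' := (h x).1 h1
        have hu : ∀ τ : E →+* L, ‖τ x‖ < 1 → ‖τ x‖ = ((p : ℝ)⁻¹) * ‖τ y‖ := by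
          intro τ hτ
          have h2 : τ x * (1 - τ x ^ M) = p * τ y := by
            have h3 := congrArg (fun z : 𝓞 E => τ (z : E)) hy
            simpa using h3
          have h3 : ‖1 - τ x ^ M‖ = 1 := by
            have h4 : ‖τ x ^ M‖ < ‖(1 : L)‖ := by
              rw [norm_pow, norm_one]
              exact pow_lt_one₀ (norm_nonneg _) hτ hM.ne'
            rw [sub_eq_add_neg, IsUltrametricDist.norm_add_eq_max_of_norm_ne_norm
              (by rw [norm_neg]; exact h4.ne'), norm_neg, max_eq_left h4.le, norm_one]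
          have h5 := congrArg norm h2
          rw [norm_mul, norm_mul, h3, mul_one, norm_p_eq] at h5
          exact h5
        have h2 := hu τ h1
        have h3 := hu τ' h1'
        obtain ⟨r, hr, hr'⟩ := ih y (by
          rw [h2, pow_succ'] at hx
          exact le_of_mul_le_mul_left hx (inv_pos.2 hp0))
        refine ⟨r + 1, ?_, ?_⟩
        · rw [h2, hr, pow_succ']
        · rw [h3, hr', pow_succ']
      · refine ⟨0, ?_, ?_⟩
        · rw [pow_zero]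
          exact le_antisymm (norm_emb_le_one τ x) (not_lt.1 h1)
        · rw [pow_zero]
          exact le_antisymm (norm_emb_le_one τ' x) (not_lt.1 fun h2 => h1 ((h x).2 h2))
  have hxE : (x : E) ≠ 0 := by simpa using hx
  have hpos : 0 < ‖τ x‖ := norm_pos_iff.2 ((map_ne_zero τ).2 hxE)
  obtain ⟨m, hm⟩ := exists_pow_lt_of_lt_one hpos (inv_lt_one_of_one_lt₀ hp1)
  exact key m x hm.le

omit [IsUltrametricDist L] in
theorem norm_int_dvd {N : ℤ} {c : ℕ} (h : ‖(N : L)‖ ≤ ((p : ℝ)⁻¹) ^ c) : ((p : ℤ) ^ c) ∣ N := by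
  rw [norm_int_eq (p := p)] at h
  have h1 := (Padic.norm_int_le_pow_iff_dvd (p := p) N c).1 (by
    rw [zpow_neg, zpow_natCast, ← inv_pow]
    exact h)
  exact_mod_cast h1

end padic

section norm

/-- The norm as a product over all embeddings in an algebraically closed field. -/
theorem prod_emb (K : Type*) [Field K] [CharZero K] [IsAlgClosed K] (x : 𝓞 E) :
    ∏ σ : E →+* K, σ x = ((Algebra.norm ℤ x : ℤ) : K) := by
  have h1 := Algebra.norm_eq_prod_embeddings ℚ K (x : E)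
  rw [← Algebra.coe_norm_int] at h1
  have h3 : algebraMap ℚ K ((Algebra.norm ℤ x : ℤ) : ℚ) = ((Algebra.norm ℤ x : ℤ) : K) := by simp
  rw [h3] at h1
  rw [h1]
  exact Fintype.prod_equiv (RingHom.equivRatAlgHom E K) _ _ fun σ => rfl

end norm

section frob

variable {p : ℕ} [hp : Fact p.Prime]

/-- `φ` acts as `x ↦ x ^ p` on the residue field of the place of `Ω` above `p` given by the
embedding `ι`. -/
def IsFrobFor (p : ℕ) [Fact p.Prime] (ι : Ω →+* PadicAlgCl p) (φ : Gal(Ω/ℚ)) : Prop :=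
  ∀ x : 𝓞 Ω, ‖ι (φ (x : Ω) - (x : Ω) ^ p)‖ < 1

omit [IsAlgClosure ℚ Ω] in
theorem norm_frob_lt_iff {ι : Ω →+* PadicAlgCl p} {φ : Gal(Ω/ℚ)} (hφ : IsFrobFor p ι φ)
    (x : 𝓞 Ω) : ‖ι (φ (x : Ω))‖ < 1 ↔ ‖ι (x : Ω)‖ < 1 := by
  have h1 := hφ x
  have h2 : ι (φ (x : Ω)) = ι (φ (x : Ω) - (x : Ω) ^ p) + ι (x : Ω) ^ p := by
    rw [map_sub ι, map_pow ι, sub_add_cancel]
  have h3 : ι (x : Ω) ^ p = ι (φ (x : Ω)) + -ι (φ (x : Ω) - (x : Ω) ^ p) := by
    rw [h2]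
    ring
  constructor
  · intro h
    have h4 : ‖ι (x : Ω) ^ p‖ < 1 := by
      rw [h3]
      refine lt_of_le_of_lt (IsUltrametricDist.norm_add_le_max _ _) (max_lt h ?_)
      rw [norm_neg]
      exact h1
    rw [norm_pow] at h4
    by_contra hge
    rw [not_lt] at hge
    exact absurd h4 (not_lt.2 (one_le_pow₀ hge))
  · intro h
    rw [h2]
    refine lt_of_le_of_lt (IsUltrametricDist.norm_add_le_max _ _) (max_lt h1 ?_)
    rw [norm_pow]
    exact pow_lt_one₀ (norm_nonneg _) h hp.out.ne_zero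

omit [IsAlgClosure ℚ Ω] in
theorem norm_frob_pow_lt_iff {ι : Ω →+* PadicAlgCl p} {φ : Gal(Ω/ℚ)} (hφ : IsFrobFor p ι φ)
    (k : ℕ) (x : 𝓞 Ω) : ‖ι ((φ ^ k) (x : Ω))‖ < 1 ↔ ‖ι (x : Ω)‖ < 1 := by
  induction k with
  | zero => simp
  | succ k ih =>
    rw [pow_succ']
    have h1 : (φ * φ ^ k) (x : Ω) = φ ((φ ^ k • x : 𝓞 Ω) : Ω) := rfl
    rw [h1, norm_frob_lt_iff hφ, ← ih]
    rfl

/-- A Frobenius element is a Frobenius element for a suitable embedding. -/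
theorem exists_isFrobFor {φ : Gal(Ω/ℚ)} (hφ : IsFrobAt p φ) :
    ∃ ι : Ω →+* PadicAlgCl p, IsFrobFor p ι φ := by
  obtain ⟨Q, hQ, hpQ, hQφ⟩ := hφ
  have hG : IsGalois ℚ Ω := isGaloisΩ
  have hinv := isInvariant_int (Ω := Ω)
  have halg : Algebra.IsAlgebraic ℚ Ω := IsAlgClosure.isAlgebraic
  let ι₀ : Ω →+* PadicAlgCl p := (IsAlgClosed.lift (M := PadicAlgCl p) (R := ℚ) (S := Ω) :
    Ω →ₐ[ℚ] PadicAlgCl p)
  have hι₀ : ∀ x : 𝓞 Ω, ‖ι₀ x‖ ≤ 1 := fun x =>
    norm_le_one_of_isIntegral ((RingOfIntegers.isIntegral_coe x).map ι₀.toIntAlgHom)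
  let Q₀ : Ideal (𝓞 Ω) :=
    { carrier := {x | ‖ι₀ (x : Ω)‖ < 1}
      add_mem' := by
        intro a b ha hb
        have h1 : ‖ι₀ ((a : Ω) + (b : Ω))‖ < 1 := by
          rw [map_add]
          exact lt_of_le_of_lt (IsUltrametricDist.norm_add_le_max _ _) (max_lt ha hb)
        exact h1
      zero_mem' := by
        have h1 : ‖ι₀ ((0 : 𝓞 Ω) : Ω)‖ < 1 := by simp
        exact h1
      smul_mem' := by
        intro a b hb
        have h1 : ‖ι₀ ((a : Ω) * (b : Ω))‖ < 1 := by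
          rw [map_mul, norm_mul]
          have hb' : ‖ι₀ (b : Ω)‖ < 1 := hb
          have ha := hι₀ a
          nlinarith [norm_nonneg (ι₀ (a : Ω)), norm_nonneg (ι₀ (b : Ω))]
        exact h1 }
  have hmem : ∀ x, x ∈ Q₀ ↔ ‖ι₀ (x : Ω)‖ < 1 := fun x => Iff.rfl
  have hp1 : (1 : ℝ) < p := by exact_mod_cast hp.out.one_lt
  have hpQ₀ : (p : 𝓞 Ω) ∈ Q₀ := by
    rw [hmem]
    have h1 : ι₀ ((p : 𝓞 Ω) : Ω) = (p : PadicAlgCl p) := by simp
    rw [h1, norm_p_eq]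
    exact inv_lt_one_of_one_lt₀ hp1
  have hQ₀ : Q₀.IsPrime := by
    refine ⟨?_, ?_⟩
    · rw [Ideal.ne_top_iff_one, hmem]
      simp
    · intro a b hab
      rw [hmem] at hab ⊢
      rw [hmem]
      by_contra hcon
      rw [not_or, not_lt, not_lt] at hcon
      have h1 : ι₀ ((a * b : 𝓞 Ω) : Ω) = ι₀ a * ι₀ b := by
        rw [← map_mul]
        rfl
      rw [h1, norm_mul] at hab
      have h2 := le_antisymm (hι₀ a) hcon.1
      have h3 := le_antisymm (hι₀ b) hcon.2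
      rw [h2, h3] at hab
      norm_num at hab
  have hPQ : Q₀.under ℤ = Q.under ℤ := by
    ext m
    have h1 := intCast_mem_iff hp.out hQ₀ hpQ₀ m
    have h2 := intCast_mem_iff hp.out hQ hpQ m
    show algebraMap ℤ (𝓞 Ω) m ∈ Q₀ ↔ algebraMap ℤ (𝓞 Ω) m ∈ Q
    have h3 : algebraMap ℤ (𝓞 Ω) m = (m : 𝓞 Ω) := by simp
    rw [h3, h1, h2]
  let _ : TopologicalSpace (𝓞 Ω) := ⊥
  have : DiscreteTopology (𝓞 Ω) := ⟨rfl⟩
  have hcont : ContinuousSMul Gal(Ω/ℚ) (𝓞 Ω) := by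
    rw [continuousSMul_iff_stabilizer_isOpen]
    intro x
    have h1 := stabilizer_isOpen_of_isIntegral (K := ℚ) (x : Ω)
    convert! h1 using 1
    ext g
    simp only [SetLike.mem_coe, MulAction.mem_stabilizer_iff]
    constructor
    · intro h
      exact congrArg (fun y : 𝓞 Ω => (y : Ω)) h
    · intro h
      exact RingOfIntegers.coe_injective h
  obtain ⟨γ, hγ⟩ := Algebra.IsInvariant.exists_smul_of_under_eq_of_profinite (A := ℤ)
    (G := Gal(Ω/ℚ)) Q₀ Q hPQ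
  refine ⟨ι₀.comp ((γ⁻¹ : Gal(Ω/ℚ)) : Ω ≃+* Ω).toRingHom, fun x => ?_⟩
  have h1 := hQφ x
  rw [hγ, Ideal.mem_pointwise_smul_iff_inv_smul_mem, hmem] at h1
  exact h1

end frob

end Pool.Agent.Ord
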