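import Mathlib
import Pool.Agent.Lib.Helper95.Ord.Local

/-!
# The characteristic polynomials: absolute values and Newton polygons
-/

open Finset Module NumberField Pool.Agent.GSem
open scoped ComplexConjugate

namespace Pool.Agent.Ord

variable {Ω : Type*} [Field Ω] [CharZero Ω] [IsAlgClosure ℚ Ω]
variable {E : Type*} [Field E] [NumberField E]

/-- A ring homomorphism from `E` restricted to the integers. -/
abbrev resInt {K : Type*} [Field K] (σ : E →+* K) : 𝓞 E →+* K := σ.comp (algebraMap (𝓞 E) E)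

theorem exists_roots {K : Type*} [Field K] [IsAlgClosed K] {P : Polynomial K} {n : ℕ}
    (hP : P.Monic) (hn : P.natDegree = n) :
    ∃ z : Fin n → K, P = ∏ i, (Polynomial.X - Polynomial.C (z i)) ∧
      P.roots = (univ : Finset (Fin n)).val.map z := by
  have h1 : P.Splits := IsAlgClosed.splits P
  have h2 : Multiset.card P.roots = n := by
    rw [← hn]
    exact h1.natDegree_eq_card_roots.symm
  obtain ⟨z, hz⟩ := exists_fin_map P.roots h2
  refine ⟨z, ?_, hz⟩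
  have h3 := h1.eq_prod_roots_of_monic hP
  rw [hz, Multiset.map_map] at h3
  exact h3

theorem pe_eq_es {R : Type*} [CommRing R] {n : ℕ} (z : Fin n → R) {h : ℕ} (hh : h ≤ n) :
    pe (∏ i, (Polynomial.X - Polynomial.C (z i))) n h = es z h := pe_prod z hh

section complex

variable {P : Polynomial (𝓞 E)} {n : ℕ} {Q : ℝ}

omit [NumberField E] in
theorem complex_roots (hP : P.Monic) (hn : P.natDegree = n)
    (hpure : ∀ (η : E →+* ℂ) (z : ℂ), (P.map (resInt η)).IsRoot z → ‖z‖ ^ 2 = Q)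
    (η : E →+* ℂ) : ∃ z : Fin n → ℂ, (∀ i, ‖z i‖ ^ 2 = Q) ∧
      ∀ h ≤ n, η (pe P n h : 𝓞 E) = es z h := by
  obtain ⟨z, hz, hz'⟩ := exists_roots (n := n) (hP.map (resInt η))
    (by rw [hP.natDegree_map]; exact hn)
  refine ⟨z, fun i => ?_, fun h hh => ?_⟩
  · apply hpure η
    rw [hz, Polynomial.IsRoot.def, Polynomial.eval_prod]
    exact Finset.prod_eq_zero (Finset.mem_univ i) (by simp)
  · have h1 : η (pe P n h : 𝓞 E) = pe (P.map (resInt η)) n h := by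
      rw [pe_map]
      rfl
    rw [h1, hz, pe_eq_es z hh]

theorem norm_bound (hP : P.Monic) (hn : P.natDegree = n) (hQ : 0 ≤ Q)
    (hpure : ∀ (η : E →+* ℂ) (z : ℂ), (P.map (resInt η)).IsRoot z → ‖z‖ ^ 2 = Q)
    {i : ℕ} (hi : i ≤ n) :
    ((Algebra.norm ℤ (pe P n i) : ℤ) : ℝ) ^ 2 ≤
      ((n.choose i : ℝ) ^ 2 * Q ^ i) ^ finrank ℚ E := by
  have h1 : ‖((Algebra.norm ℤ (pe P n i) : ℤ) : ℂ)‖ = |((Algebra.norm ℤ (pe P n i) : ℤ) : ℝ)| := by
    rw [Complex.norm_intCast]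
  rw [← sq_abs, ← h1, ← prod_emb ℂ, norm_prod, ← Finset.prod_pow]
  have h2 : ∀ η : E →+* ℂ, ‖η (pe P n i : 𝓞 E)‖ ^ 2 ≤ (n.choose i : ℝ) ^ 2 * Q ^ i := by
    intro η
    obtain ⟨z, hz, hz'⟩ := complex_roots hP hn hpure η
    rw [hz' i hi]
    exact norm_es_sq_le z hQ hz i
  refine (Finset.prod_le_prod (fun _ _ => by positivity) fun η _ => h2 η).trans ?_
  rw [Finset.prod_const, Finset.card_univ, Embeddings.card]

theorem norm_top (hP : P.Monic) (hn : P.natDegree = n)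
    (hpure : ∀ (η : E →+* ℂ) (z : ℂ), (P.map (resInt η)).IsRoot z → ‖z‖ ^ 2 = Q) :
    ((Algebra.norm ℤ (pe P n n) : ℤ) : ℝ) ^ 2 = (Q ^ n) ^ finrank ℚ E := by
  have h1 : ‖((Algebra.norm ℤ (pe P n n) : ℤ) : ℂ)‖ = |((Algebra.norm ℤ (pe P n n) : ℤ) : ℝ)| := by
    rw [Complex.norm_intCast]
  rw [← sq_abs, ← h1, ← prod_emb ℂ, norm_prod, ← Finset.prod_pow]
  have h2 : ∀ η : E →+* ℂ, ‖η (pe P n n : 𝓞 E)‖ ^ 2 = Q ^ n := by
    intro η
    obtain ⟨z, hz, hz'⟩ := complex_roots hP hn hpure η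
    rw [hz' n le_rfl]
    exact norm_es_top_sq z hz
  rw [Finset.prod_congr rfl fun η _ => h2 η, Finset.prod_const, Finset.card_univ, Embeddings.card]

/-- The functional equation. -/
theorem conj_rel {q w : ℕ} (hP : P.Monic) (hn : P.natDegree = n)
    (hpure : ∀ (η : E →+* ℂ) (z : ℂ), (P.map (resInt η)).IsRoot z → ‖z‖ ^ 2 = (q : ℝ) ^ w)
    {c : E →+* E} (hc : ∀ (η : E →+* ℂ) (x : E), η (c x) = conj (η x)) {i : ℕ} (hi : i ≤ n) :
    ((pe P n (n - i) : 𝓞 E) : E) * (q : E) ^ (w * i) =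
      ((pe P n n : 𝓞 E) : E) * c (pe P n i : 𝓞 E) := by
  obtain ⟨η⟩ := (inferInstance : Nonempty (E →+* ℂ))
  apply η.injective
  obtain ⟨z, hz, hz'⟩ := complex_roots hP hn hpure η
  rw [map_mul, map_mul, hc, hz' _ (Nat.sub_le n i), hz' n le_rfl, hz' i hi, ← es_conj z hz hi,
    map_pow, map_natCast, pow_mul]
  push_cast
  rfl

end complex

section cplx

variable {c : E →+* E}

theorem conj_conj_eq (hc : ∀ (η : E →+* ℂ) (x : E), η (c x) = conj (η x)) (x : E) :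
    c (c x) = x := by
  obtain ⟨η⟩ := (inferInstance : Nonempty (E →+* ℂ))
  apply η.injective
  rw [hc, hc, Complex.conj_conj]

theorem bijective_comp_conj {K : Type*} [Field K]
    (hc : ∀ (η : E →+* ℂ) (x : E), η (c x) = conj (η x)) :
    Function.Bijective fun σ : E →+* K => σ.comp c := by
  have h1 : Function.Involutive fun σ : E →+* K => σ.comp c := by
    intro σ
    ext x
    simp only [RingHom.comp_apply]
    rw [conj_conj_eq hc]
  exact h1.bijective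

end cplx

theorem HP_top {n : ℕ} (s : Fin n → ℕ) : HP s n = ∑ k, s k := by
  unfold HP
  rw [Finset.filter_true_of_mem]
  intro k _
  exact k.2

theorem HP_conj {n w : ℕ} {s s' : Fin n → ℕ} (hsym : ∀ i, s' i + s i.rev = w) {i : ℕ}
    (hi : i ≤ n) : HP s' i + HP s n = w * i + HP s (n - i) := by
  have h1 := HP_mono s (Nat.sub_le n i)
  have h2 : HP s' i + ∑ k with n - i ≤ (k : Fin n).val ∧ k.val < n, s k = w * i := by
    have h3 : ∑ k with n - i ≤ (k : Fin n).val ∧ k.val < n, s k =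
        ∑ k with (k : Fin n).val < i, s k.rev := by
      symm
      apply Finset.sum_bij (fun i _ => Fin.rev i)
      · intro i hi
        rw [Finset.mem_filter] at hi ⊢
        rw [Fin.val_rev]
        exact ⟨Finset.mem_univ _, by omega⟩
      · intro a _ b _ h
        exact Fin.rev_injective h
      · intro b hb
        rw [Finset.mem_filter] at hb
        refine ⟨b.rev, ?_, Fin.rev_rev b⟩
        rw [Finset.mem_filter, Fin.val_rev]
        exact ⟨Finset.mem_univ _, by omega⟩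
      · intro i _
        rfl
    rw [h3]
    unfold HP
    rw [← Finset.sum_add_distrib, Finset.sum_congr rfl fun k _ => hsym k, Finset.sum_const,
      smul_eq_mul, mul_comm]
    congr 1
    have h4 := card_between (n := n) (Nat.zero_le i) hi
    simp only [Nat.zero_le, true_and, Nat.sub_zero] at h4
    exact h4
  omega

/-- The total height of the end points. -/
theorem sum_HP_top {n w : ℕ} {s : (E →+* Ω) → Fin n → ℕ} {c : E →+* E}
    (hc : ∀ (η : E →+* ℂ) (x : E), η (c x) = conj (η x))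
    (hsym : ∀ σ i, s (σ.comp c) i + s σ i.rev = w) :
    2 * ∑ σ : E →+* Ω, HP (s σ) n = w * n * finrank ℚ E := by
  have hΩ : IsAlgClosed Ω := IsAlgClosure.isAlgClosed ℚ
  have h1 : ∀ σ : E →+* Ω, HP (s (σ.comp c)) n + HP (s σ) n = w * n := by
    intro σ
    have := HP_conj (hsym σ) le_rfl
    rw [Nat.sub_self] at this
    have h0 : HP (s σ) 0 = 0 := by simp [HP]
    omega
  have h2 : ∑ σ : E →+* Ω, HP (s (σ.comp c)) n = ∑ σ : E →+* Ω, HP (s σ) n :=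
    (bijective_comp_conj (K := Ω) hc).sum_comp fun σ => HP (s σ) n
  have h3 : ∑ σ : E →+* Ω, (HP (s (σ.comp c)) n + HP (s σ) n) = w * n * finrank ℚ E := by
    rw [Finset.sum_congr rfl fun σ _ => h1 σ, Finset.sum_const, Finset.card_univ,
      Embeddings.card, smul_eq_mul, mul_comm]
  rw [Finset.sum_add_distrib, h2] at h3
  omega

section padic

variable {p : ℕ} [hp : Fact p.Prime]

theorem norm_transfer {ι : Ω →+* PadicAlgCl p} {φ : Gal(Ω/ℚ)} (hφ : IsFrobFor p ι φ)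
    (hdisc : ¬ (p : ℤ) ∣ discr E) {σ σ' : E →+* Ω} {k : ℕ} (h : ∀ x, (φ ^ k) (σ x) = σ' x)
    (x : 𝓞 E) : ‖ι (σ' x)‖ = ‖ι (σ x)‖ := by
  by_cases hx : x = 0
  · subst hx
    simp
  · have hpl : ∀ y : 𝓞 E, ‖(ι.comp σ) y‖ < 1 ↔ ‖(ι.comp σ') y‖ < 1 := by
      intro y
      have h1 := norm_frob_pow_lt_iff hφ k (omr σ y)
      have h2 : (φ ^ k) ((omr σ y : 𝓞 Ω) : Ω) = σ' y := h y
      rw [h2] at h1
      exact h1.symm
    obtain ⟨r, hr, hr'⟩ := norm_eq_of_place (L := PadicAlgCl p) Ω hdisc hpl x hx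
    exact hr'.trans hr.symm

theorem norm_le_of_lt (Ω : Type*) [Field Ω] [CharZero Ω] [IsAlgClosure ℚ Ω]
    (hdisc : ¬ (p : ℤ) ∣ discr E) {τ : E →+* PadicAlgCl p} {x : 𝓞 E} {H : ℕ}
    (h : ‖τ x‖ < ((p : ℝ)⁻¹) ^ H) : ‖τ x‖ ≤ ((p : ℝ)⁻¹) ^ (H + 1) := by
  have hp1 : (1 : ℝ) < p := by exact_mod_cast hp.out.one_lt
  have hq0 : (0 : ℝ) < (p : ℝ)⁻¹ := by positivity
  have hq1 : (p : ℝ)⁻¹ < 1 := inv_lt_one_of_one_lt₀ hp1
  by_cases hx : x = 0
  · subst hx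
    simp only [map_zero, norm_zero]
    positivity
  · obtain ⟨r, hr, -⟩ := norm_eq_of_place (L := PadicAlgCl p) Ω hdisc
      (τ := τ) (τ' := τ) (fun _ => Iff.rfl) x hx
    rw [hr] at h ⊢
    have h1 : H < r := (pow_lt_pow_iff_right_of_lt_one₀ hq0 hq1).1 h
    exact pow_le_pow_of_le_one hq0.le hq1.le h1

theorem prod_norm (ι : Ω →+* PadicAlgCl p) (x : 𝓞 E) :
    ∏ σ : E →+* Ω, ‖ι (σ x)‖ = ‖((Algebra.norm ℤ x : ℤ) : PadicAlgCl p)‖ := by
  have hΩ : IsAlgClosed Ω := IsAlgClosure.isAlgClosed ℚ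
  rw [← norm_prod, ← map_prod, prod_emb Ω, map_intCast]

theorem pow_dvd_norm (ι : Ω →+* PadicAlgCl p) {x : 𝓞 E} {H : (E →+* Ω) → ℕ}
    (h : ∀ σ, ‖ι (σ x)‖ ≤ ((p : ℝ)⁻¹) ^ H σ) :
    (p : ℤ) ^ (∑ σ, H σ) ∣ Algebra.norm ℤ x := by
  apply norm_int_dvd (p := p) (L := PadicAlgCl p)
  rw [← prod_norm ι, ← Finset.prod_pow_eq_pow_sum]
  exact Finset.prod_le_prod (fun _ _ => norm_nonneg _) fun σ _ => h σ

/-- At the end point the coefficient has the expected absolute value. -/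
theorem norm_top_eq (ι : Ω →+* PadicAlgCl p) {x : 𝓞 E} {H : (E →+* Ω) → ℕ}
    (h : ∀ σ, ‖ι (σ x)‖ ≤ ((p : ℝ)⁻¹) ^ H σ)
    (hN : (Algebra.norm ℤ x) ^ 2 = (p : ℤ) ^ (2 * ∑ σ, H σ)) (σ : E →+* Ω) :
    ‖ι (σ x)‖ = ((p : ℝ)⁻¹) ^ H σ := by
  have hp0 : (0 : ℝ) < (p : ℝ)⁻¹ := by
    have : (0 : ℝ) < p := by exact_mod_cast hp.out.pos
    positivity
  have hnorm : ‖((Algebra.norm ℤ x : ℤ) : PadicAlgCl p)‖ = ((p : ℝ)⁻¹) ^ (∑ σ, H σ) := by
    have h1 : ‖((Algebra.norm ℤ x : ℤ) : PadicAlgCl p)‖ ^ 2 =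
        (((p : ℝ)⁻¹) ^ (∑ σ, H σ)) ^ 2 := by
      rw [← norm_pow, ← Int.cast_pow, hN]
      push_cast
      rw [norm_pow, norm_p_eq, ← pow_mul, mul_comm]
    exact (pow_left_inj₀ (norm_nonneg _) (by positivity) two_ne_zero).1 h1
  have hx : x ≠ 0 := by
    rintro rfl
    rw [Algebra.norm_zero, zero_pow two_ne_zero] at hN
    have : (p : ℤ) ^ (2 * ∑ σ, H σ) ≠ 0 := pow_ne_zero _ (by exact_mod_cast hp.out.ne_zero)
    exact this hN.symm
  have hxE : (x : E) ≠ 0 := by simpa using hx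
  have hpos : ∀ σ : E →+* Ω, 0 < ‖ι (σ x)‖ := fun σ =>
    norm_pos_iff.2 ((map_ne_zero ι).2 ((map_ne_zero σ).2 hxE))
  refine le_antisymm (h σ) (not_lt.1 fun hlt => ?_)
  have h2 : ∏ σ : E →+* Ω, ‖ι (σ x)‖ < ∏ σ : E →+* Ω, ((p : ℝ)⁻¹) ^ H σ :=
    Finset.prod_lt_prod (fun σ _ => hpos σ) (fun σ _ => h σ) ⟨σ, Finset.mem_univ _, hlt⟩
  rw [prod_norm, hnorm, Finset.prod_pow_eq_pow_sum] at h2
  exact lt_irrefl _ h2

end padic

section newton

variable {p : ℕ} [hp : Fact p.Prime]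

theorem newton_of_vertices {P : Polynomial (𝓞 E)} {n : ℕ} (hP : P.Monic) (hn : P.natDegree = n)
    {τ : E →+* PadicAlgCl p} {s : Fin n → ℕ} (hs : Monotone s)
    (hle : ∀ i ≤ n, ‖τ (P.coeff (n - i))‖ ≤ ((p : ℝ)⁻¹) ^ HP s i)
    (heq : ∀ t, ‖τ (pe P n (cnt s t) : 𝓞 E)‖ = ((p : ℝ)⁻¹) ^ HP s (cnt s t)) :
    ((P.map (resInt τ)).roots.map fun z => ‖z‖) =
      (univ : Finset (Fin n)).val.map fun k => ((p : ℝ)⁻¹) ^ s k := by
  have hp1 : (1 : ℝ) < p := by exact_mod_cast hp.out.one_lt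
  have hq0 : (0 : ℝ) < (p : ℝ)⁻¹ := by positivity
  have hq1 : (p : ℝ)⁻¹ < 1 := inv_lt_one_of_one_lt₀ hp1
  obtain ⟨z, hz, hz'⟩ := exists_roots (n := n) (hP.map (resInt τ)) (by rw [hP.natDegree_map]; exact hn)
  have hes : ∀ i ≤ n, ∑ A ∈ Finset.powersetCard i Finset.univ, ∏ j ∈ A, z j =
      τ (pe P n i : 𝓞 E) := by
    intro i hi
    have h1 : τ (pe P n i : 𝓞 E) = pe (P.map (resInt τ)) n i := by
      rw [pe_map]
      rfl
    rw [h1, hz, pe_eq_es z hi]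
    rfl
  have hpe : ∀ i, ‖τ (pe P n i : 𝓞 E)‖ = ‖τ (P.coeff (n - i))‖ := by
    intro i
    have h1 : τ (pe P n i : 𝓞 E) = (-1) ^ i * τ (P.coeff (n - i)) := by
      simp [pe]
    rw [h1, norm_mul, norm_pow, norm_neg, norm_one, one_pow, one_mul]
  rw [hz', Multiset.map_map]
  have h2 := newton_eq (a := z) hq0 hq1 hs
    (fun i hi => by rw [hes i hi, hpe]; exact hle i hi)
    (fun t => by rw [hes _ (cnt_le s t)]; exact heq t)
  exact h2

end newton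

end Pool.Agent.Ord
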